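import Pool.Agent.Work.MP_2967d5_an.Defs

-- merged part: Pool.Agent.Work.MP_2967d5_an.Baire
section
open MeasureTheory Set Filter Topology MeasurableSpace
open scoped symmDiff ENNReal

namespace Pool.Agent.Work.MP_2967d5_an

variable {Z : Type*} [MeasurableSpace Z] {μ : Measure Z}

theorem Aut.mp (T : Aut μ) : MeasurePreserving T.rep μ μ := (Quotient.out T).2

theorem Aut.mp_symm (T : Aut μ) : MeasurePreserving T.rep.symm μ μ := T.mp.symm

theorem mp_symmDiff {Z' : Type*} [MeasurableSpace Z'] {μ' : Measure Z'} {T : Z' → Z}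
    (hT : MeasurePreserving T μ' μ) {A B : Set Z} (hA : MeasurableSet A) (hB : MeasurableSet B) :
    μ' ((T ⁻¹' A) ∆ (T ⁻¹' B)) = μ (A ∆ B) := by
  rw [← preimage_symmDiff, hT.measure_preimage (hA.symmDiff hB).nullMeasurableSet]

/-- A measure preserving map with an a.e. inverse defines a transformation. -/
theorem exists_aut [StandardBorelSpace Z] {T S : Z → Z} (hT : MeasurePreserving T μ μ)
    (hS : MeasurePreserving S μ μ) (hST : ∀ᵐ z ∂μ, S (T z) = z) (hTS : ∀ᵐ z ∂μ, T (S z) = z) :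
    ∃ U : Aut μ, (U.rep : Z → Z) =ᵐ[μ] T := by
  classical
  set A : Set Z := {z | S (T z) = z ∧ T (S z) = z} with hA
  have hAm : MeasurableSet A :=
    (measurableSet_eq_fun (hS.measurable.comp hT.measurable) measurable_id).inter
      (measurableSet_eq_fun (hT.measurable.comp hS.measurable) measurable_id)
  have hAae : ∀ᵐ z ∂μ, z ∈ A := hST.and hTS
  set B : Set Z := {z | ∀ n, T^[n] z ∈ A ∧ S^[n] z ∈ A} with hB
  have hBm : MeasurableSet B := by
    have : B = ⋂ n, (T^[n] ⁻¹' A ∩ S^[n] ⁻¹' A) := by ext; simp [hB]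
    rw [this]
    exact MeasurableSet.iInter fun n =>
      ((hT.measurable.iterate n) hAm).inter ((hS.measurable.iterate n) hAm)
  have hBae : ∀ᵐ z ∂μ, z ∈ B := ae_all_iff.mpr fun n =>
    ((hT.iterate n).quasiMeasurePreserving.ae hAae).and
      ((hS.iterate n).quasiMeasurePreserving.ae hAae)
  have hTB : ∀ z ∈ B, T z ∈ B := fun z hz n => ⟨(hz (n + 1)).1, by
    cases n with
    | zero => exact (hz 1).1
    | succ n => rw [Function.iterate_succ_apply, show S (T z) = z from (hz 0).1.1]; exact (hz n).2⟩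
  have hSB : ∀ z ∈ B, S z ∈ B := fun z hz n => ⟨by
    cases n with
    | zero => exact (hz 1).2
    | succ n => rw [Function.iterate_succ_apply, show T (S z) = z from (hz 0).1.2]; exact (hz n).1, (hz (n + 1)).2⟩
  let e : Z ≃ᵐ Z :=
    { toFun := B.piecewise T id
      invFun := B.piecewise S id
      left_inv := fun z => by
        by_cases hz : z ∈ B
        · rw [piecewise_eq_of_mem _ _ _ hz, piecewise_eq_of_mem _ _ _ (hTB z hz)]
          exact (hz 0).1.1
        · rw [piecewise_eq_of_notMem _ _ _ hz, id, piecewise_eq_of_notMem _ _ _ hz, id]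
      right_inv := fun z => by
        by_cases hz : z ∈ B
        · rw [piecewise_eq_of_mem _ _ _ hz, piecewise_eq_of_mem _ _ _ (hSB z hz)]
          exact (hz 0).1.2
        · rw [piecewise_eq_of_notMem _ _ _ hz, id, piecewise_eq_of_notMem _ _ _ hz, id]
      measurable_toFun := hT.measurable.piecewise hBm measurable_id
      measurable_invFun := hS.measurable.piecewise hBm measurable_id }
  have he : (e : Z → Z) =ᵐ[μ] T := by
    filter_upwards [hBae] with z hz
    exact piecewise_eq_of_mem _ _ _ hz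
  have hemp : MeasurePreserving e μ μ := hT.congr e.measurable he.symm
  exact ⟨Quotient.mk (autSetoid μ) ⟨e, hemp⟩,
    EventuallyEq.trans (Quotient.mk_out (s := autSetoid μ) ⟨e, hemp⟩) he⟩

theorem conv_of_coord [IsFiniteMeasure μ] {ι : Type*} {l : Filter ι} {a : ι → Z → ℕ → Bool}
    {b : Z → ℕ → Bool} {ν : Measure (ℕ → Bool)} [IsFiniteMeasure ν]
    (ha : ∀ n, MeasurePreserving (a n) μ ν) (hb : Measurable b)
    (h : ∀ i, Tendsto (fun n => μ ((a n ⁻¹' {ω | ω i = true}) ∆ (b ⁻¹' {ω | ω i = true}))) l (𝓝 0))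
    {D : Set (ℕ → Bool)} (hD : MeasurableSet D) :
    Tendsto (fun n => μ ((a n ⁻¹' D) ∆ (b ⁻¹' D))) l (𝓝 0) := by
  set C : Set (Set (ℕ → Bool)) := {D | MeasurableSet D ∧
    Tendsto (fun n => μ ((a n ⁻¹' D) ∆ (b ⁻¹' D))) l (𝓝 0)} with hC
  have hbin : ∀ {D D' E : Set (ℕ → Bool)}, D ∈ C → D' ∈ C → MeasurableSet E →
      (∀ n, (a n ⁻¹' E) ∆ (b ⁻¹' E) ⊆ (a n ⁻¹' D) ∆ (b ⁻¹' D) ∪ (a n ⁻¹' D') ∆ (b ⁻¹' D')) →
      E ∈ C := by
    intro D D' E h1 h2 hE hs
    refine ⟨hE, ?_⟩
    have := h1.2.add h2.2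
    rw [add_zero] at this
    exact tendsto_of_tendsto_of_tendsto_of_le_of_le tendsto_const_nhds this (fun _ => bot_le)
      fun n => (measure_mono (hs n)).trans (measure_union_le _ _)
  have hring : IsSetRing C :=
    { empty_mem := ⟨MeasurableSet.empty, by simpa using tendsto_const_nhds⟩
      union_mem := fun D D' h1 h2 => hbin h1 h2 (h1.1.union h2.1) fun n z => by
        clear * - Z a n D D' b z
        simp only [mem_symmDiff, mem_preimage, mem_union]; tauto
      sdiff_mem := fun D D' h1 h2 => hbin h1 h2 (h1.1.diff h2.1) fun n z => by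
        clear * - Z a n D D' b z
        simp only [mem_symmDiff, mem_preimage, mem_union, mem_diff]; tauto }
  have huniv : univ ∈ C := ⟨MeasurableSet.univ, by simpa using tendsto_const_nhds⟩
  have hgen : (MeasurableSpace.pi : MeasurableSpace (ℕ → Bool)) = generateFrom C := by
    clear * - C ι Z μ a b l h D hD
    refine le_antisymm ?_ (generateFrom_le fun D hD => hD.1)
    have : @Measurable _ _ (generateFrom C) MeasurableSpace.pi (id : (ℕ → Bool) → ℕ → Bool) := by
      refine @measurable_pi_lambda _ _ _ (generateFrom C) _ _ fun i => ?_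
      refine @measurable_to_bool _ (generateFrom C) _ ?_
      exact measurableSet_generateFrom ⟨by measurability, h i⟩
    exact fun s hs => this hs
  rw [ENNReal.tendsto_nhds_zero]
  intro ε hε
  have hε2 : 0 < ε / 2 := ENNReal.half_pos hε.ne'
  obtain ⟨D', hD', hlt⟩ := exists_measure_symmDiff_lt_of_generateFrom_isSetRing
    (μ := ν + μ.map b) hring ⟨{univ}, countable_singleton _, by simpa using huniv, by simp⟩ hgen hD hε2
  filter_upwards [ENNReal.tendsto_nhds_zero.mp hD'.2 _ hε2] with n hn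
  rw [Measure.add_apply, Measure.map_apply hb (hD'.1.symmDiff hD), preimage_symmDiff,
    ← mp_symmDiff (ha n) hD'.1 hD] at hlt
  calc μ ((a n ⁻¹' D) ∆ (b ⁻¹' D))
      ≤ μ ((a n ⁻¹' D) ∆ (a n ⁻¹' D')) + μ ((a n ⁻¹' D') ∆ (b ⁻¹' D)) := measure_symmDiff_le _ _ _
    _ ≤ μ ((a n ⁻¹' D) ∆ (a n ⁻¹' D')) + (μ ((a n ⁻¹' D') ∆ (b ⁻¹' D')) +
        μ ((b ⁻¹' D') ∆ (b ⁻¹' D))) := by gcongr; exact measure_symmDiff_le _ _ _
    _ = (μ ((a n ⁻¹' D') ∆ (a n ⁻¹' D)) + μ ((b ⁻¹' D') ∆ (b ⁻¹' D))) +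
        μ ((a n ⁻¹' D') ∆ (b ⁻¹' D')) := by rw [symmDiff_comm (a n ⁻¹' D)]; ring
    _ ≤ ε / 2 + ε / 2 := add_le_add hlt.le hn
    _ = ε := ENNReal.add_halves ε

theorem mapNatBool_coord [CountablyGenerated Z] (i : ℕ) :
    mapNatBool Z ⁻¹' {ω | ω i = true} = natGeneratingSequence Z i := by
  ext z
  simp [mapNatBool]

theorem conv_of_gen [IsFiniteMeasure μ] [StandardBorelSpace Z] {ι : Type*} {l : Filter ι}
    {a : ι → Z → Z} {b : Z → Z} (ha : ∀ n, MeasurePreserving (a n) μ μ) (hb : Measurable b)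
    (h : ∀ i, Tendsto (fun n => μ ((a n ⁻¹' natGeneratingSequence Z i) ∆
      (b ⁻¹' natGeneratingSequence Z i))) l (𝓝 0))
    {E : Set Z} (hE : MeasurableSet E) :
    Tendsto (fun n => μ ((a n ⁻¹' E) ∆ (b ⁻¹' E))) l (𝓝 0) := by
  have hκ : MeasurableEmbedding (mapNatBool Z) :=
    (measurable_mapNatBool Z).measurableEmbedding (injective_mapNatBool Z)
  have := conv_of_coord (μ := μ) (l := l) (a := fun n => mapNatBool Z ∘ a n) (b := mapNatBool Z ∘ b)
    (ν := μ.map (mapNatBool Z)) (fun n => (hκ.measurable.measurePreserving μ).comp (ha n))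
    (hκ.measurable.comp hb) (fun i => by simpa only [preimage_comp, mapNatBool_coord] using h i)
    (hκ.measurableSet_image.mpr hE)
  simpa only [preimage_comp, preimage_image_eq _ hκ.injective] using this

theorem exists_limit [IsProbabilityMeasure μ] [StandardBorelSpace Z]
    {a : ℕ → Z → Z} (ha : ∀ n, MeasurePreserving (a n) μ μ) {A : ℕ → Set Z}
    (hA : ∀ i, MeasurableSet (A i))
    (h : ∀ i, Tendsto (fun n => μ ((a n ⁻¹' natGeneratingSequence Z i) ∆ A i)) atTop (𝓝 0)) :
    ∃ b : Z → Z, MeasurePreserving b μ μ ∧ ∀ E, MeasurableSet E →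
      Tendsto (fun n => μ ((a n ⁻¹' E) ∆ (b ⁻¹' E))) atTop (𝓝 0) := by
  classical
  have : Nonempty Z := μ.nonempty_of_neZero
  have hκ : MeasurableEmbedding (mapNatBool Z) :=
    (measurable_mapNatBool Z).measurableEmbedding (injective_mapNatBool Z)
  set t : Z → ℕ → Bool := fun z i => decide (z ∈ A i) with ht
  have htm : Measurable t := measurable_pi_lambda _ fun i => measurable_to_bool (by
    convert hA i using 1
    ext z
    simp [ht])
  have hconv : ∀ D, MeasurableSet D →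
      Tendsto (fun n => μ (((mapNatBool Z ∘ a n) ⁻¹' D) ∆ (t ⁻¹' D))) atTop (𝓝 0) := fun D hD =>
    conv_of_coord (ν := μ.map (mapNatBool Z))
      (fun n => (hκ.measurable.measurePreserving μ).comp (ha n)) htm (fun i => by
        have : t ⁻¹' {ω | ω i = true} = A i := by ext z; simp [ht]
        simpa only [preimage_comp, mapNatBool_coord, this] using h i) hD
  have hrange : ∀ᵐ z ∂μ, t z ∈ range (mapNatBool Z) := by
    have h1 := hconv _ hκ.measurableSet_range
    have h2 : ∀ n, ((mapNatBool Z ∘ a n) ⁻¹' range (mapNatBool Z)) ∆ (t ⁻¹' range (mapNatBool Z)) =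
        {z | ¬ t z ∈ range (mapNatBool Z)} := by
      intro n
      ext z
      simp [mem_symmDiff]
    simp only [h2] at h1
    exact tendsto_nhds_unique tendsto_const_nhds h1
  have hbm : Measurable (hκ.invFun ∘ t) := hκ.measurable_invFun.comp htm
  have hE : ∀ E, MeasurableSet E →
      Tendsto (fun n => μ ((a n ⁻¹' E) ∆ ((hκ.invFun ∘ t) ⁻¹' E))) atTop (𝓝 0) := by
    intro E hE
    have h1 := hconv _ (hκ.measurableSet_image.mpr hE)
    simp only [preimage_comp, preimage_image_eq _ hκ.injective] at h1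
    refine h1.congr fun n => measure_congr (EventuallyEq.rfl.symmDiff ?_)
    filter_upwards [hrange] with z ⟨w, hw⟩
    show (t z ∈ mapNatBool Z '' E) = (hκ.invFun (t z) ∈ E)
    rw [← hw, hκ.leftInverse_invFun w, hκ.injective.mem_set_image]
  refine ⟨hκ.invFun ∘ t, ⟨hbm, Measure.ext fun E hEm => ?_⟩, hE⟩
  rw [Measure.map_apply hbm hEm]
  have h1 := hE E hEm
  apply le_antisymm
  · refine ge_of_tendsto' (f := fun n => μ E + μ ((a n ⁻¹' E) ∆ ((hκ.invFun ∘ t) ⁻¹' E)))
      (x := atTop) (by simpa using tendsto_const_nhds.add h1) fun n => ?_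
    rw [← (ha n).measure_preimage hEm.nullMeasurableSet]
    refine (measure_mono fun z => ?_).trans (measure_union_le _ _)
    simp only [mem_union, mem_symmDiff]; tauto
  · refine ge_of_tendsto' (f := fun n => μ ((hκ.invFun ∘ t) ⁻¹' E) +
      μ ((a n ⁻¹' E) ∆ ((hκ.invFun ∘ t) ⁻¹' E))) (x := atTop)
      (by simpa using tendsto_const_nhds.add h1) fun n => ?_
    rw [← (ha n).measure_preimage hEm.nullMeasurableSet]
    refine (measure_mono fun z => ?_).trans (measure_union_le _ _)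
    simp only [mem_union, mem_symmDiff]; tauto

theorem inverse_of_limit [StandardBorelSpace Z] {a a' : ℕ → Z → Z} {b b' : Z → Z}
    (ha : ∀ n, MeasurePreserving (a n) μ μ) (ha' : ∀ n, Measurable (a' n))
    (hinv : ∀ n z, a' n (a n z) = z) (hb' : Measurable b')
    (h : ∀ E, MeasurableSet E → Tendsto (fun n => μ ((a n ⁻¹' E) ∆ (b ⁻¹' E))) atTop (𝓝 0))
    (h' : ∀ E, MeasurableSet E → Tendsto (fun n => μ ((a' n ⁻¹' E) ∆ (b' ⁻¹' E))) atTop (𝓝 0)) :
    ∀ᵐ z ∂μ, b' (b z) = z := by
  refine EventuallyEq.of_forall_separating_preimage (f := b' ∘ b) (g := id) MeasurableSet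
    fun E hE => ?_
  rw [← measure_symmDiff_eq_zero_iff, ← nonpos_iff_eq_zero]
  have := (h' E hE).add (h _ (hb' hE))
  rw [add_zero] at this
  refine ge_of_tendsto' this fun n => ?_
  rw [← mp_symmDiff (ha n) (ha' n hE) (hb' hE)]
  have e : a n ⁻¹' (a' n ⁻¹' E) = E := by ext z; simp [hinv]
  rw [e, symmDiff_comm]
  exact measure_symmDiff_le _ _ _

theorem completeSpace_measuredSets : CompleteSpace (MeasuredSets μ) := by
  refine EMetric.complete_of_convergent_controlled_sequences (fun n => 2⁻¹ ^ n)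
    (fun n => ENNReal.pow_pos (by simp) n) fun u hu => ?_
  refine ⟨⟨limsup (fun n => (u n : Set Z)) atTop,
    MeasurableSet.measurableSet_limsup fun n => (u n).2⟩, ?_⟩
  rw [tendsto_iff_edist_tendsto_0]
  have hlim : Tendsto (fun n : ℕ => (2⁻¹ : ℝ≥0∞) ^ n * 2) atTop (𝓝 0) := by
    have := ENNReal.Tendsto.mul_const (b := 2)
      (ENNReal.tendsto_pow_atTop_nhds_zero_of_lt_one (r := 2⁻¹) (by simp)) (Or.inr (by simp))
    simpa using this
  refine tendsto_of_tendsto_of_tendsto_of_le_of_le tendsto_const_nhds hlim (fun _ => bot_le)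
    fun n => ?_
  have hsub : ((u n : Set Z) ∆ limsup (fun n => (u n : Set Z)) atTop) ⊆
      ⋃ k, ((u (n + k) : Set Z) ∆ (u (n + k + 1) : Set Z)) := by
    intro z hz
    by_contra hn
    simp only [mem_iUnion, not_exists, mem_symmDiff] at hn
    have hk : ∀ k, z ∈ (u (n + k) : Set Z) ↔ z ∈ (u n : Set Z) := by
      clear * - Z μ u n z hn
      intro k
      induction k with
      | zero => rfl
      | succ k ih => have := hn k; rw [← ih, ← add_assoc]; tauto
    have hev : ∀ᶠ k in atTop, z ∈ (u k : Set Z) ↔ z ∈ (u n : Set Z) := by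
      filter_upwards [eventually_ge_atTop n] with k hk'
      obtain ⟨k, rfl⟩ := Nat.exists_eq_add_of_le hk'
      exact hk k
    rw [mem_symmDiff, mem_limsup_iff_frequently_mem] at hz
    rcases hz with ⟨h1, h2⟩ | ⟨h1, h2⟩
    · exact h2 (hev.mono fun k hk => hk.mpr h1).frequently
    · obtain ⟨k, hk1, hk2⟩ := (h1.and_eventually hev).exists
      exact h2 (hk2.mp hk1)
  calc edist (u n) _ = μ ((u n : Set Z) ∆ limsup (fun n => (u n : Set Z)) atTop) := rfl
    _ ≤ ∑' k, μ ((u (n + k) : Set Z) ∆ (u (n + k + 1) : Set Z)) :=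
        (measure_mono hsub).trans (measure_iUnion_le _)
    _ ≤ ∑' k : ℕ, (2⁻¹ : ℝ≥0∞) ^ n * 2⁻¹ ^ k := ENNReal.tsum_le_tsum fun k => by
        rw [← pow_add]
        exact (hu (n + k) _ _ le_rfl (Nat.le_succ _)).le
    _ = 2⁻¹ ^ n * 2 := by
        rw [ENNReal.tsum_mul_left, ENNReal.tsum_geometric_two]

/-- image of a set -/
def img (E : Set Z) (hE : MeasurableSet E) (T : Aut μ) : MeasuredSets μ :=
  ⟨T.rep.symm ⁻¹' E, T.rep.symm.measurable hE⟩

/-- preimage of a set -/
def pre (E : Set Z) (hE : MeasurableSet E) (T : Aut μ) : MeasuredSets μ :=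
  ⟨T.rep ⁻¹' E, T.rep.measurable hE⟩

theorem continuous_img [IsFiniteMeasure μ] {E : Set Z} (hE : MeasurableSet E) :
    Continuous (img (μ := μ) E hE) := by
  rw [continuous_iff_continuousAt]
  intro T
  rw [ContinuousAt, Metric.tendsto_nhds]
  intro ε hε
  have : IsOpen {S : Aut μ | μ.real ((T.rep '' E) ∆ (S.rep '' E)) < ε} :=
    TopologicalSpace.isOpen_generateFrom_of_mem ⟨T, E, ε, hE, hε, rfl⟩
  filter_upwards [this.mem_nhds (by simpa using hε)] with S hS
  rw [dist_comm, MeasuredSets.dist_def]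
  simp only [MeasurableEquiv.image_eq_preimage_symm] at hS
  exact hS

theorem continuous_pre [IsFiniteMeasure μ] {E : Set Z} (hE : MeasurableSet E) :
    Continuous (pre (μ := μ) E hE) := by
  rw [continuous_iff_continuousAt]
  intro T
  have h := (continuous_img (μ := μ) (T.rep.measurable hE)).tendsto T
  rw [ContinuousAt]
  rw [tendsto_iff_edist_tendsto_0] at h ⊢
  refine h.congr fun S => ?_
  show μ ((S.rep.symm ⁻¹' (T.rep ⁻¹' E)) ∆ (T.rep.symm ⁻¹' (T.rep ⁻¹' E))) =
    μ ((S.rep ⁻¹' E) ∆ (T.rep ⁻¹' E))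
  have e1 : T.rep.symm ⁻¹' (T.rep ⁻¹' E) = E := by ext; simp
  have e2 : S.rep ⁻¹' (S.rep.symm ⁻¹' (T.rep ⁻¹' E)) = T.rep ⁻¹' E := by ext; simp
  rw [e1, ← mp_symmDiff S.mp (S.rep.symm.measurable (T.rep.measurable hE)) hE, e2, symmDiff_comm]

theorem tendsto_nhds_aut [IsFiniteMeasure μ] {ι : Type*} {l : Filter ι} {u : ι → Aut μ} {T : Aut μ}
    (h : ∀ E, MeasurableSet E →
      Tendsto (fun n => μ (((u n).rep.symm ⁻¹' E) ∆ (T.rep.symm ⁻¹' E))) l (𝓝 0)) :
    Tendsto u l (𝓝 T) := by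
  rw [weakTopology, TopologicalSpace.tendsto_nhds_generateFrom_iff]
  rintro _ ⟨T', E, ε, hE, hε, rfl⟩ hT
  have h1 : Tendsto (fun n => img E hE (u n)) l (𝓝 (img E hE T)) :=
    tendsto_iff_edist_tendsto_0.mpr (h E hE)
  have h2 := (tendsto_const_nhds (x := img E hE T')).dist h1
  have h3 : dist (img E hE T') (img E hE T) < ε := by
    rw [MeasuredSets.dist_def]
    simp only [MeasurableEquiv.image_eq_preimage_symm] at hT
    exact hT
  filter_upwards [h2.eventually_lt_const h3] with n hn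
  rw [MeasuredSets.dist_def] at hn
  simp only [mem_preimage, mem_setOf_eq, MeasurableEquiv.image_eq_preimage_symm]
  exact hn

theorem completelyPseudoMetrizable [IsProbabilityMeasure μ] [StandardBorelSpace Z] :
    TopologicalSpace.IsCompletelyPseudoMetrizableSpace (Aut μ) := by
  have := completeSpace_measuredSets (μ := μ)
  let ι : Aut μ → ℕ → MeasuredSets μ × MeasuredSets μ := fun T i =>
    (pre _ (measurableSet_natGeneratingSequence i) T, img _ (measurableSet_natGeneratingSequence i) T)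
  have hι : IsInducing ι := by
    refine ⟨le_antisymm (continuous_iff_le_induced.mp (continuous_pi fun i =>
      (continuous_pre _).prodMk (continuous_img _))) ?_⟩
    refine le_of_nhds_le_nhds fun T => ?_
    rw [nhds_induced]
    show Tendsto id (comap ι (𝓝 (ι T))) (𝓝 T)
    refine tendsto_nhds_aut (u := id) fun E hE => conv_of_gen (fun S => S.mp_symm)
      T.rep.symm.measurable (fun i => ?_) hE
    have h1 : Tendsto ι (comap ι (𝓝 (ι T))) (𝓝 (ι T)) := tendsto_comap
    exact tendsto_iff_edist_tendsto_0.mp ((tendsto_pi_nhds.mp h1 i).snd_nhds)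
  let U : UniformSpace (Aut μ) := (UniformSpace.comap ι inferInstance).replaceTopology hι.eq_induced
  have hU : IsUniformInducing ι := ⟨rfl⟩
  have : (uniformity (Aut μ)).IsCountablyGenerated := by
    rw [← hU.comap_uniformity]; infer_instance
  have : CompleteSpace (Aut μ) := by
    refine UniformSpace.complete_of_cauchySeq_tendsto fun u hu => ?_
    obtain ⟨A, hA⟩ := cauchySeq_tendsto_of_complete (hU.uniformContinuous.comp_cauchySeq hu)
    obtain ⟨b, hb, hb2⟩ := exists_limit (fun n => (u n).mp) (A := fun i => (A i).1)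
      (fun i => (A i).1.2) fun i =>
        tendsto_iff_edist_tendsto_0.mp ((tendsto_pi_nhds.mp hA i).fst_nhds)
    obtain ⟨b', hb', hb2'⟩ := exists_limit (fun n => (u n).mp_symm) (A := fun i => (A i).2)
      (fun i => (A i).2.2) fun i =>
        tendsto_iff_edist_tendsto_0.mp ((tendsto_pi_nhds.mp hA i).snd_nhds)
    have h1 := inverse_of_limit (fun n => (u n).mp) (fun n => (u n).rep.symm.measurable)
      (fun n z => by simp) hb'.measurable hb2 hb2'
    have h2 := inverse_of_limit (fun n => (u n).mp_symm) (fun n => (u n).rep.measurable)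
      (fun n z => by simp) hb.measurable hb2' hb2
    obtain ⟨T, hT⟩ := exists_aut hb hb' h1 h2
    refine ⟨T, tendsto_nhds_aut fun E hE => (hb2' E hE).congr fun n =>
      measure_congr (EventuallyEq.rfl.symmDiff ?_)⟩
    have h3 : b' =ᵐ[μ] T.rep.symm := by
      filter_upwards [h2, hb'.quasiMeasurePreserving.ae hT] with z hz hz'
      rw [eq_comm, MeasurableEquiv.symm_apply_eq, hz', hz]
    exact h3.preimage E
  infer_instance

theorem exists_delta [IsFiniteMeasure μ] {T : Aut μ} {O : Set (Aut μ)} (hO : O ∈ 𝓝 T) :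
    ∃ δ : ℝ≥0∞, 0 < δ ∧ ∀ S : Aut μ, μ {z | S.rep z ≠ T.rep z} ≤ δ → S ∈ O := by
  have h : Tendsto id (comap (fun S : Aut μ => μ {z | S.rep z ≠ T.rep z}) (𝓝 0)) (𝓝 T) := by
    refine tendsto_nhds_aut fun E hE => ?_
    refine tendsto_of_tendsto_of_tendsto_of_le_of_le tendsto_const_nhds tendsto_comap
      (fun _ => bot_le) fun S => ?_
    show μ ((S.rep.symm ⁻¹' E) ∆ (T.rep.symm ⁻¹' E)) ≤ μ {z | S.rep z ≠ T.rep z}
    rw [← mp_symmDiff S.mp (S.rep.symm.measurable hE) (T.rep.symm.measurable hE)]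
    refine measure_mono fun z hz h => ?_
    simp [mem_symmDiff, h] at hz
    rw [← h] at hz
    simp at hz
  obtain ⟨V, hV, hVO⟩ := mem_comap.mp (h hO)
  obtain ⟨δ, hδ, hδV⟩ := ENNReal.nhds_zero_basis_Iic.mem_iff.mp hV
  exact ⟨δ, hδ, fun S hS => hVO (hδV hS)⟩

variable {X Y : Type*} [MeasurableSpace X] [MeasurableSpace Y] {m : Measure X} {η : Measure Y}

theorem isClosed_extensions [IsProbabilityMeasure m] [IsProbabilityMeasure η]
    [StandardBorelSpace X] (R : Aut m) : IsClosed (Extensions η R) := by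
  have : Extensions η R = ⋂ (P : Set X) (hP : MeasurableSet P),
      {T | dist (pre (Prod.fst ⁻¹' P) (measurable_fst hP) T)
        ⟨(fun z => R.rep z.1) ⁻¹' P, (R.rep.measurable.comp measurable_fst) hP⟩ = 0} := by
    ext T
    simp only [mem_iInter, mem_setOf_eq, MeasuredSets.dist_def, Measure.real,
      ENNReal.toReal_eq_zero_iff, measure_ne_top, or_false, measure_symmDiff_eq_zero_iff]
    constructor
    · intro h P hP
      have h' : (fun z => (T.rep z).1) =ᵐ[m.prod η] fun z => R.rep z.1 := h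
      exact h'.preimage P
    · intro h
      exact EventuallyEq.of_forall_separating_preimage (f := fun z => (T.rep z).1)
        (g := fun z => R.rep z.1) MeasurableSet h
  rw [this]
  exact isClosed_iInter fun P => isClosed_iInter fun hP =>
    isClosed_eq ((continuous_pre _).dist continuous_const) continuous_const

theorem baireSpace_extensions [IsProbabilityMeasure m] [IsProbabilityMeasure η]
    [StandardBorelSpace X] [StandardBorelSpace Y] (R : Aut m) : BaireSpace (Extensions η R) := by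
  have := completelyPseudoMetrizable (μ := m.prod η)
  have := (isClosed_extensions (η := η) R).isCompletelyPseudoMetrizableSpace
  infer_instance

end Pool.Agent.Work.MP_2967d5_an
end

-- merged part: Pool.Agent.Work.MP_2967d5_an.Tower
section
open MeasureTheory Set Filter Topology
open scoped symmDiff ENNReal

namespace Pool.Agent.Work.MP_2967d5_an

variable {X : Type*} [MeasurableSpace X] {m : Measure X} [IsProbabilityMeasure m]

theorem symm_iter (R : X ≃ᵐ X) (n : ℕ) (x : X) : R.symm^[n] (R^[n] x) = x :=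
  (Function.LeftInverse.iterate R.symm_apply_apply n) x

theorem iter_symm (R : X ≃ᵐ X) (n : ℕ) (x : X) : R^[n] (R.symm^[n] x) = x :=
  (Function.LeftInverse.iterate R.apply_symm_apply n) x

theorem exists_clock {R : Aut m} (hR : IsMixing R)
    (hsmall : ∀ δ : ℝ, 0 < δ → ∃ C, MeasurableSet C ∧ 0 < m.real C ∧ m.real C ≤ δ)
    {c : ℝ} (hc : 0 < c) :
    ∃ r : X → ℕ, Measurable r ∧ m.real {x | r (R.rep x) ≠ r x + 1} ≤ c := by
  classical
  obtain ⟨C, hC, hC0, hCc⟩ := hsmall c hc
  set U : Set X := {x | ∃ n, R.rep.symm^[n] x ∈ C} with hU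
  have hUm : MeasurableSet U := by
    have : U = ⋃ n, R.rep.symm^[n] ⁻¹' C := by ext; simp [hU]
    rw [this]
    exact MeasurableSet.iUnion fun n => (R.rep.symm.measurable.iterate n) hC
  have hU0 : m.real Uᶜ = 0 := by
    have h1 := hR C Uᶜ hC hUm.compl
    have h2 : ∀ n, C ∩ R.rep^[n] ⁻¹' Uᶜ = ∅ := fun n => by
      ext x
      simp only [mem_inter_iff, mem_preimage, mem_compl_iff, mem_empty_iff_false, iff_false,
        not_and, not_not]
      exact fun hx => ⟨n, by rwa [symm_iter]⟩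
    simp only [h2, measureReal_empty] at h1
    have := tendsto_nhds_unique tendsto_const_nhds h1
    exact (mul_eq_zero.mp this.symm).resolve_left hC0.ne'
  have hp : ∀ x, ∃ n, R.rep.symm^[n] x ∈ C ∨ x ∉ U := fun x => by
    by_cases hx : x ∈ U
    · exact hx.imp fun n hn => Or.inl hn
    · exact ⟨0, Or.inr hx⟩
  refine ⟨fun x => Nat.find (hp x), measurable_find hp fun k =>
    ((R.rep.symm.measurable.iterate k) hC).union hUm.compl, ?_⟩
  have hsub : {x | Nat.find (hp (R.rep x)) ≠ Nat.find (hp x) + 1} ⊆ R.rep ⁻¹' C ∪ Uᶜ := by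
    intro x hx
    by_contra hn
    simp only [mem_union, mem_preimage, mem_compl_iff, not_or, not_not] at hn
    apply hx
    have hRx : R.rep x ∈ U := by
      obtain ⟨n, hn'⟩ := hn.2
      exact ⟨n + 1, by simpa using hn'⟩
    have h2 : ∃ n, R.rep.symm^[n + 1] (R.rep x) ∈ C ∨ R.rep x ∉ U := by
      obtain ⟨n, hn'⟩ := hn.2
      exact ⟨n, Or.inl (by simpa using hn')⟩
    rw [Nat.find_comp_succ (hp (R.rep x)) h2 (by simp [hn.1, hRx])]
    congr 1
    refine Nat.find_congr' fun {n} => ?_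
    simp [hRx, hn.2]
  refine (measureReal_mono hsub).trans ((measureReal_union_le _ _).trans ?_)
  rw [hU0, add_zero, R.mp.measureReal_preimage hC.nullMeasurableSet]
  exact hCc

section Clock

variable {R : X → X} {r : X → ℕ} {c : ℝ}

theorem meas_pred (hr : Measurable r) (P : ℕ → Prop) : MeasurableSet {x | P (r x)} :=
  hr (MeasurableSet.of_discrete (s := {n | P n}))

theorem clock_iter (hR : MeasurePreserving R m m) (hr : Measurable r)
    (hc : m.real {x | r (R x) ≠ r x + 1} ≤ c) (u : ℕ) :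
    m.real {x | r (R^[u] x) ≠ r x + u} ≤ u * c := by
  induction u with
  | zero => simp
  | succ u ih =>
    have hm : MeasurableSet {x | r (R x) ≠ r x + 1} :=
      (measurableSet_eq_fun (hr.comp hR.measurable) (hr.add_const 1)).compl
    have hsub : {x | r (R^[u + 1] x) ≠ r x + (u + 1)} ⊆
        {x | r (R^[u] x) ≠ r x + u} ∪ R^[u] ⁻¹' {x | r (R x) ≠ r x + 1} := by
      intro x hx
      by_contra hn
      simp only [mem_union, mem_preimage, mem_setOf_eq, not_or, not_not] at hn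
      apply hx
      rw [Function.iterate_succ_apply', hn.2, hn.1, add_assoc]
    refine (measureReal_mono hsub).trans ((measureReal_union_le _ _).trans ?_)
    rw [(hR.iterate u).measureReal_preimage hm.nullMeasurableSet]
    push_cast
    linarith only [hc, ih]

theorem shift_le (hR : MeasurePreserving R m m) (hr : Measurable r)
    (hc : m.real {x | r (R x) ≠ r x + 1} ≤ c) (P : ℕ → Prop) (u : ℕ) :
    m.real {x | P (r x + u)} ≤ m.real {x | P (r x)} + u * c := by
  have hsub : {x | P (r x + u)} ⊆ R^[u] ⁻¹' {x | P (r x)} ∪ {x | r (R^[u] x) ≠ r x + u} := by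
    intro x hx
    by_cases h : r (R^[u] x) = r x + u
    · left
      show P (r (R^[u] x))
      rwa [h]
    · exact Or.inr h
  refine (measureReal_mono hsub).trans ((measureReal_union_le _ _).trans ?_)
  rw [(hR.iterate u).measureReal_preimage (meas_pred hr P).nullMeasurableSet]
  linarith [clock_iter hR hr hc u]

theorem equi (hR : MeasurePreserving R m m) (hr : Measurable r) (hc0 : 0 ≤ c)
    (hc : m.real {x | r (R x) ≠ r x + 1} ≤ c) (P : ℕ → Prop) (H K : ℕ) (hK : 0 < K)
    (hper : ∀ ρ, P ρ → P (ρ + K * H))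
    (hdisj : ∀ ρ, ∀ t < K, ∀ t' < K, P (ρ + t * H) → P (ρ + t' * H) → t = t') :
    m.real {x | P (r x)} ≤ 1 / K + K * H * c := by
  have h1 : ∀ t ∈ Finset.range K,
      m.real {x | P (r x)} ≤ m.real {x | P (r x + t * H)} + K * H * c := by
    intro t ht
    rw [Finset.mem_range] at ht
    have h2 := shift_le hR hr hc (fun ρ => P (ρ + t * H)) ((K - t) * H)
    have h3 : {x | P (r x)} ⊆ {x | P (r x + (K - t) * H + t * H)} := fun x hx => by
      have := hper _ hx
      show P _
      rwa [add_assoc, ← add_mul, Nat.sub_add_cancel ht.le]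
    refine (measureReal_mono h3).trans (h2.trans ?_)
    have : (((K - t) * H : ℕ) : ℝ) ≤ K * H := by
      exact_mod_cast Nat.mul_le_mul_right H (Nat.sub_le K t)
    gcongr
  have h4 := Finset.sum_le_sum h1
  have h5 : ∑ t ∈ Finset.range K, m.real {x | P (r x + t * H)} ≤ 1 := by
    refine (sum_measureReal_le_measureReal_univ
      (fun t _ => meas_pred hr fun ρ => P (ρ + t * H)) ?_).trans (by simp)
    intro t ht t' ht' hne
    rw [Function.onFun, Set.disjoint_left]
    intro x hx hx'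
    exact hne (hdisj _ t (by simpa using ht) t' (by simpa using ht') hx hx')
  rw [Finset.sum_add_distrib, Finset.sum_const, Finset.sum_const, Finset.card_range, nsmul_eq_mul,
    nsmul_eq_mul] at h4
  have hK' : (0 : ℝ) < K := by exact_mod_cast hK
  have : m.real {x | P (r x)} ≤ (1 + K * (K * H * c)) / K := by
    rw [le_div_iff₀ hK']; linarith only [h4, h5]
  refine this.trans (le_of_eq ?_)
  field_simp

theorem jump (hR : MeasurePreserving R m m) (hr : Measurable r) (hc0 : 0 ≤ c)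
    (hc : m.real {x | r (R x) ≠ r x + 1} ≤ c) {q : ℕ} (hq : 0 < q) (j : ℕ) :
    m.real {x | (r x + j) / q ≠ r x / q} ≤ j * (1 / q + q * c) := by
  induction j with
  | zero => simp
  | succ j ih =>
    have h1 := equi hR hr hc0 hc (fun ρ => q ∣ ρ + j + 1) 1 q hq
      (fun ρ h => by
        have : ρ + q * 1 + j + 1 = (ρ + j + 1) + q := by ring
        rw [this]; exact dvd_add h dvd_rfl)
      (fun ρ t ht t' ht' h h' => by
        have e : ∀ t, ρ + t * 1 + j + 1 = (ρ + j + 1) + t := fun t => by ring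
        rw [e] at h h'
        have h2 : (ρ + j + 1) + t ≡ (ρ + j + 1) + t' [MOD q] :=
          ((Nat.modEq_zero_iff_dvd).mpr h).trans ((Nat.modEq_zero_iff_dvd).mpr h').symm
        exact Nat.ModEq.eq_of_lt_of_lt (Nat.ModEq.add_left_cancel' _ h2) ht ht')
    have hsub : {x | (r x + (j + 1)) / q ≠ r x / q} ⊆
        {x | (r x + j) / q ≠ r x / q} ∪ {x | q ∣ r x + j + 1} := by
      intro x hx
      by_contra hn
      simp only [mem_union, mem_setOf_eq, not_or, not_not] at hn
      apply hx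
      rw [← add_assoc, Nat.succ_div, if_neg hn.2, add_zero, hn.1]
    refine (measureReal_mono hsub).trans ((measureReal_union_le _ _).trans ?_)
    push_cast at h1 ⊢
    clear * - X m r j q c ih h1
    linarith only [ih, h1]

end Clock

theorem ev_small (a : ℝ) {b : ℝ} (hb : 0 < b) : ∀ᶠ c in 𝓝[>] (0 : ℝ), a * c ≤ b := by
  have : Tendsto (fun c : ℝ => a * c) (𝓝 0) (𝓝 (a * 0)) := tendsto_id.const_mul a
  rw [mul_zero] at this
  exact mem_nhdsWithin_of_mem_nhds (this.eventually (ge_mem_nhds hb))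

theorem div_pow_eq {D a b i j : ℕ} (hij : i ≤ j) (h : a / D ^ i = b / D ^ i) :
    a / D ^ j = b / D ^ j := by
  obtain ⟨k, rfl⟩ := Nat.exists_eq_add_of_le hij
  rw [pow_add, ← Nat.div_div_eq_div_mul, ← Nat.div_div_eq_div_mul, h]

theorem exists_types {R : Aut m} (hR : IsMixing R)
    (hsmall : ∀ δ : ℝ, 0 < δ → ∃ C, MeasurableSet C ∧ 0 < m.real C ∧ m.real C ≤ δ)
    (K M : ℕ) (hK : 0 < K) {δ : ℝ} (hδ : 0 < δ) :
    ∃ (τ B : X → ℕ) (J : ℕ → Finset ℕ), Measurable τ ∧ Measurable B ∧ (∀ x, τ x < K) ∧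
      (∀ k, (J k).card = M) ∧ m.real {x | B (R.rep x) ≠ B x} ≤ δ ∧
      (∀ k, m.real {x | τ x = k} ≤ 2 / K) ∧
      (∀ k < K, ∀ j ∈ J k, ∀ j' ∈ J k, j < j' → m.real {x | τ (R.rep^[j] x) = k ∧
        τ (R.rep^[j'] x) = k ∧ ¬ B (R.rep^[j] x) < B (R.rep^[j'] x)} ≤ δ) ∧
      (∀ k < K, ∀ j ∈ J k, m.real {x | k < τ (R.rep^[j] x) ∧ B (R.rep^[j] x) ≠ B x} ≤ δ) := by
  obtain ⟨D, hD⟩ := exists_nat_gt (2 * (M + 1) / δ)
  have hD0 : (0 : ℝ) < D := lt_trans (by positivity) hD
  have hD1 : 0 < D := by exact_mod_cast hD0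
  have hD2 : (M + 1 : ℝ) / D ≤ δ / 2 := by
    clear * - M D δ hD0 hδ hD
    rw [div_lt_iff₀ hδ] at hD
    rw [div_le_iff₀ hD0]
    linarith only [hD]
  have hM0 : (0 : ℝ) ≤ M := Nat.cast_nonneg M
  have hD3 : (1 : ℝ) / D ≤ δ / 2 := le_trans (by clear * - M D hD1 hD2 δ; gcongr; linarith only []) hD2
  have hD4 : (M : ℝ) / D ≤ δ / 2 := le_trans (by clear * - M D hD1 hD2 δ; gcongr; linarith only []) hD2
  set H : ℕ := D ^ (K + 1) with hH
  have hK' : (0 : ℝ) < K := by exact_mod_cast hK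
  obtain ⟨c, ⟨⟨⟨hc1, hc2⟩, hc3⟩, hc4⟩, hc0⟩ := (((((ev_small (K * H) (one_div_pos.mpr hK')).and
    (ev_small (1 + D) (half_pos hδ))).and (ev_small (2 * M * H) hδ)).and
    (ev_small (M * H + M * H * H) (half_pos hδ))).and self_mem_nhdsWithin).exists
  have hc0 : 0 < c := hc0
  obtain ⟨r, hr, hc⟩ := exists_clock hR hsmall hc0
  have hJ : ∀ k < K, ∀ j ∈ (Finset.range M).image (· * D ^ (k + 1)),
      (j : ℝ) ≤ M * D ^ (k + 1) ∧ (j : ℝ) ≤ M * H := by
    intro k hk j hj
    obtain ⟨i, hi, rfl⟩ := Finset.mem_image.mp hj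
    have hi' : i ≤ M := (Finset.mem_range.mp hi).le
    have h1 : D ^ (k + 1) ≤ H := Nat.pow_le_pow_right hD1 (by omega)
    exact ⟨by exact_mod_cast Nat.mul_le_mul_right _ hi', by exact_mod_cast Nat.mul_le_mul hi' h1⟩
  refine ⟨fun x => r x / H % K, fun x => r x / D ^ (r x / H % K + 1),
    fun k => (Finset.range M).image (· * D ^ (k + 1)),
    (Measurable.of_discrete (f := fun ρ => ρ / H % K)).comp hr,
    (Measurable.of_discrete (f := fun ρ => ρ / D ^ (ρ / H % K + 1))).comp hr,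
    fun x => Nat.mod_lt _ hK, fun k => ?_, ?_, fun k => ?_, fun k hk j hj j' hj' hjj => ?_,
    fun k hk j hj => ?_⟩
  · rw [Finset.card_image_of_injective _ (mul_left_injective₀ (pow_ne_zero _ hD1.ne')),
      Finset.card_range]
  · have h1 := jump R.mp hr hc0.le hc hD1 1
    have hsub : {x | r (R.rep x) / D ^ (r (R.rep x) / H % K + 1) ≠ r x / D ^ (r x / H % K + 1)} ⊆
        {x | r (R.rep x) ≠ r x + 1} ∪ {x | (r x + 1) / D ≠ r x / D} := by
      clear * - X r m R D H K hH hK
      intro x hx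
      by_contra hn
      simp only [mem_union, mem_setOf_eq, not_or, not_not] at hn
      apply hx
      have h2 : (r x + 1) / D ^ 1 = r x / D ^ 1 := by simpa using hn.2
      rw [hn.1, hH, div_pow_eq (by omega) h2, div_pow_eq (by omega) h2]
    refine (measureReal_mono hsub).trans ((measureReal_union_le _ _).trans ?_)
    push_cast at h1
    clear * - X m r R D δ c hD3 hc2 hc h1
    linarith only [hD3, hc2, hc, h1]
  · have hH0 : 0 < H := pow_pos hD1 _
    have h1 := equi R.mp hr hc0.le hc (fun ρ => ρ / H % K = k) H K hK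
      (fun ρ h => by rw [Nat.add_mul_div_right _ _ hH0, Nat.add_mod_right, h])
      (fun ρ t ht t' ht' h h' => by
        rw [Nat.add_mul_div_right _ _ hH0] at h h'
        exact Nat.ModEq.eq_of_lt_of_lt (Nat.ModEq.add_left_cancel' _ (h.trans h'.symm)) ht ht')
    refine h1.trans ?_
    have : (2 : ℝ) / K = 1 / K + 1 / K := by ring
    clear * - K H c hc1 this
    linarith only [hc1, this]
  · have h1 := clock_iter R.mp hr hc j
    have h2 := clock_iter R.mp hr hc j'
    refine (measureReal_mono (s₂ := {x | r (R.rep^[j] x) ≠ r x + j} ∪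
      {x | r (R.rep^[j'] x) ≠ r x + j'}) ?_).trans ((measureReal_union_le _ _).trans ?_)
    · rintro x ⟨a1, a2, a3⟩
      by_contra hn
      simp only [mem_union, mem_setOf_eq, not_or, not_not] at hn
      apply a3
      simp only at a1 a2 ⊢
      rw [a1, a2, hn.1, hn.2]
      obtain ⟨i, -, rfl⟩ := Finset.mem_image.mp hj
      obtain ⟨i', -, rfl⟩ := Finset.mem_image.mp hj'
      have h3 : 0 < D ^ (k + 1) := pow_pos hD1 _
      rw [Nat.add_mul_div_right _ _ h3, Nat.add_mul_div_right _ _ h3]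
      exact Nat.add_lt_add_left (lt_of_mul_lt_mul_right hjj (Nat.zero_le _)) _
    · have := (hJ k hk j hj).2
      have := (hJ k hk j' hj').2
      nlinarith
  · have h1 := clock_iter R.mp hr hc j
    have h2 := jump R.mp hr hc0.le hc (pow_pos hD1 (k + 2)) j
    refine (measureReal_mono (s₂ := {x | r (R.rep^[j] x) ≠ r x + j} ∪
      {x | (r x + j) / D ^ (k + 2) ≠ r x / D ^ (k + 2)}) ?_).trans
      ((measureReal_union_le _ _).trans ?_)
    · rintro x ⟨a1, a2⟩
      by_contra hn
      simp only [mem_union, mem_setOf_eq, not_or, not_not] at hn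
      apply a2
      simp only at a1 ⊢
      rw [hn.1] at a1 ⊢
      have h3 : (r x + j) / H = r x / H := div_pow_eq (by omega) hn.2
      rw [h3] at a1 ⊢
      exact div_pow_eq (by omega) hn.2
    · obtain ⟨a1, a2⟩ := hJ k hk j hj
      have a3 : ((D ^ (k + 2) : ℕ) : ℝ) ≤ H := by
        exact_mod_cast Nat.pow_le_pow_right hD1 (by omega)
      have a4 : (j : ℝ) * (1 / ((D ^ (k + 2) : ℕ) : ℝ)) ≤ M / D := by
        clear * - j D k M hD1 hD0 a1
        push_cast
        rw [mul_one_div, div_le_div_iff₀ (by positivity) hD0]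
        calc _ ≤ M * (D:ℝ) ^ (k + 1) * D := by gcongr
          _ = _ := by ring
      have a5 : (j : ℝ) * (((D ^ (k + 2) : ℕ) : ℝ) * c) ≤ M * H * (H * c) := by gcongr
      have a6 : (j : ℝ) * c ≤ M * H * c := by gcongr
      clear * - X m r R j D k δ M H c hD4 hc4 h1 h2 a4 a5 a6
      linarith only [hD4, hc4, h1, h2, a4, a5, a6]

end Pool.Agent.Work.MP_2967d5_an
end

-- merged part: Pool.Agent.Work.MP_2967d5_an.Core
section
open MeasureTheory Set Filter Topology
open scoped symmDiff ENNReal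

namespace Pool.Agent.Work.MP_2967d5_an

/-- measurable and bounded by one -/
structure Bd {α : Type*} [MeasurableSpace α] (F : α → ℝ) : Prop where
  meas : Measurable F
  le : ∀ z, |F z| ≤ 1

section Bd

variable {α β : Type*} [MeasurableSpace α] [MeasurableSpace β]

theorem Bd.mul {F G : α → ℝ} (hF : Bd F) (hG : Bd G) : Bd fun z => F z * G z :=
  ⟨hF.meas.mul hG.meas, fun z => by
    rw [abs_mul]; exact mul_le_one₀ (hF.le z) (abs_nonneg _) (hG.le z)⟩

theorem Bd.comp {F : α → ℝ} (hF : Bd F) {T : β → α} (hT : Measurable T) : Bd fun z => F (T z) :=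
  ⟨hF.meas.comp hT, fun _ => hF.le _⟩

theorem Bd.neg {F : α → ℝ} (hF : Bd F) : Bd fun z => -F z :=
  ⟨hF.meas.neg, fun z => by rw [abs_neg]; exact hF.le z⟩

theorem Bd.integrable {F : α → ℝ} (hF : Bd F) (μ : Measure α) [IsFiniteMeasure μ] :
    Integrable F μ :=
  Integrable.of_bound hF.meas.aestronglyMeasurable 1 (Eventually.of_forall hF.le)

theorem bd_indicator {A : Set α} (hA : MeasurableSet A) : Bd (A.indicator (1 : α → ℝ)) :=
  ⟨measurable_one.indicator hA, fun z => by by_cases h : z ∈ A <;> simp [h]⟩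

theorem Bd.abs_integral_le {F : α → ℝ} (hF : Bd F) (μ : Measure α) [IsProbabilityMeasure μ] :
    |∫ z, F z ∂μ| ≤ 1 := by
  have := norm_integral_le_of_norm_le_const (μ := μ) (f := F) (C := 1) (Eventually.of_forall hF.le)
  simpa using this

theorem int_comp {μ : Measure α} {ν : Measure β} {T : α → β} (hT : MeasurePreserving T μ ν)
    {F : β → ℝ} (hF : Measurable F) : ∫ z, F (T z) ∂μ = ∫ z, F z ∂ν := by
  rw [← hT.map_eq, integral_map hT.measurable.aemeasurable hF.aestronglyMeasurable]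

theorem abs_int_le {μ : Measure α} {F G : α → ℝ} (hG : Integrable G μ)
    (h : ∀ᵐ z ∂μ, |F z| ≤ G z) : |∫ z, F z ∂μ| ≤ ∫ z, G z ∂μ :=
  norm_integral_le_of_norm_le (f := F) hG h

end Bd

variable {X Y : Type*} [MeasurableSpace X] [MeasurableSpace Y] {m : Measure X} {η : Measure Y}
  [IsProbabilityMeasure m] [IsProbabilityMeasure η]

theorem ext_iter {R : X → X} {T : X × Y → X × Y} (hT : MeasurePreserving T (m.prod η) (m.prod η))
    (hTR : ∀ᵐ z ∂(m.prod η), (T z).1 = R z.1) (j : ℕ) :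
    ∀ᵐ z ∂(m.prod η), (T^[j] z).1 = R^[j] z.1 := by
  induction j with
  | zero => exact Eventually.of_forall fun _ => rfl
  | succ j ih =>
    filter_upwards [ih, (hT.iterate j).quasiMeasurePreserving.ae hTR] with z h1 h2
    rw [Function.iterate_succ_apply', Function.iterate_succ_apply', h2, h1]

theorem iter_comm {α : Type*} (T : α → α) (a b : ℕ) (z : α) : T^[a] (T^[b] z) = T^[b] (T^[a] z) := by
  rw [← Function.iterate_add_apply, ← Function.iterate_add_apply, add_comm]

theorem core {R : X ≃ᵐ X} {T : X × Y → X × Y} (hT : MeasurePreserving T (m.prod η) (m.prod η))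
    (hTR : ∀ᵐ z ∂(m.prod η), (T z).1 = R z.1) {f g : X × Y → ℝ} (hf : Bd f) (hg : Bd g)
    {W V : Set X} (hV : MeasurableSet V) {J : Finset ℕ} {s : ℕ} (hs : 0 < s) (hJ : J.card = s ^ 2)
    {δ : ℝ} (hδ : 0 ≤ δ)
    (hO : ∀ j ∈ J, ∀ j' ∈ J, j ≠ j' → ∀ ψ : X → ℝ, Bd ψ →
      (∀ x, ψ x ≠ 0 → R^[j] x ∈ W ∧ R^[j'] x ∈ W) →
      |∫ z, ψ z.1 * (f (T^[j] z) * f (T^[j'] z)) ∂(m.prod η)| ≤ δ)
    (hI : ∀ j ∈ J, ∫ z, V.indicator 1 (R^[j] z.1) * |g (T^[j] z) - g z| ∂(m.prod η) ≤ δ)
    (a b : ℕ) {φ : X → ℝ} (hφ : Bd φ) (hsupp : ∀ x, φ x ≠ 0 → R^[a] x ∈ W ∧ R^[b] x ∈ V) :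
    |∫ z, φ z.1 * (f (T^[a] z) * g (T^[b] z)) ∂(m.prod η)| ≤ 1 / s + s * δ + δ := by
  set μ := m.prod η with hμ
  have mT : ∀ j, Measurable T^[j] := fun j => hT.measurable.iterate j
  have mR : ∀ j, Measurable fun z : X × Y => R^[j] z.1 := fun j =>
    (R.measurable.iterate j).comp measurable_fst
  set I := ∫ z, φ z.1 * (f (T^[a] z) * g (T^[b] z)) ∂μ with hIdef
  set u : ℕ → X × Y → ℝ := fun j z => φ (R^[j] z.1) * f (T^[j] (T^[a] z)) with hu
  have bu : ∀ j, Bd (u j) := fun j => (hφ.comp (mR j)).mul (hf.comp ((mT j).comp (mT a)))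
  have bg : Bd fun z => g (T^[b] z) := hg.comp (mT b)
  have h1 : ∀ j ∈ J, |I - ∫ z, u j z * g (T^[b] z) ∂μ| ≤ δ := by
    intro j hj
    have e1 : I = ∫ z, u j z * g (T^[j] (T^[b] z)) ∂μ := by
      rw [hIdef, ← int_comp (hT.iterate j)
        ((hφ.comp measurable_fst).mul ((hf.comp (mT a)).mul bg)).meas]
      refine integral_congr_ae ?_
      filter_upwards [ext_iter hT hTR j] with z hz
      simp only [hu, hz, iter_comm T a j, iter_comm T b j, mul_assoc]
    have bG : Measurable fun z => V.indicator (1 : X → ℝ) (R^[j] z.1) * |g (T^[j] z) - g z| :=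
      ((bd_indicator hV).comp (mR j)).meas.mul ((hg.meas.comp (mT j)).sub hg.meas).abs
    have iG : Integrable (fun z => V.indicator (1 : X → ℝ) (R^[j] z.1) * |g (T^[j] z) - g z|) μ :=
      (((hg.comp (mT j)).integrable μ).sub (hg.integrable μ)).abs.bdd_mul (c := 1)
        ((bd_indicator hV).comp (mR j)).meas.aestronglyMeasurable
        (Eventually.of_forall ((bd_indicator hV).comp (mR j)).le)
    have bg' : Bd fun z => g (T^[j] (T^[b] z)) := hg.comp ((mT j).comp (mT b))
    rw [e1, ← integral_sub (((bu j).mul bg').integrable μ) (((bu j).mul bg).integrable μ)]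
    refine le_trans ?_ (hI j hj)
    rw [← int_comp (hT.iterate b) bG]
    refine abs_int_le ((hT.iterate b).integrable_comp_of_integrable iG) ?_
    filter_upwards [ext_iter hT hTR b] with z hz
    rw [← mul_sub, abs_mul, hz]
    gcongr
    by_cases h0 : φ (R^[j] z.1) = 0
    · simp only [hu, h0, zero_mul, abs_zero]
      exact indicator_nonneg (fun _ _ => zero_le_one) _
    · rw [indicator_of_mem (by rw [iter_comm]; exact (hsupp _ h0).2)]
      exact (bu j).le z
  have h2 : ∀ j ∈ J, ∀ j' ∈ J, ∫ z, u j z * u j' z ∂μ ≤ (if j = j' then 1 else 0) + δ := by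
    intro j hj j' hj'
    by_cases hjj : j = j'
    · rw [if_pos hjj]
      linarith [le_abs_self (∫ z, u j z * u j' z ∂μ), ((bu j).mul (bu j')).abs_integral_le μ]
    · rw [if_neg hjj, zero_add]
      have mS : ∀ j, Measurable fun x : X => R^[j] (R.symm^[a] x) := fun j =>
        (R.measurable.iterate j).comp (R.symm.measurable.iterate a)
      have bψ := (hφ.comp (mS j)).mul (hφ.comp (mS j'))
      have := hO j hj j' hj' hjj _ bψ (fun x hx => by
        have a1 := (hsupp _ (left_ne_zero_of_mul hx)).1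
        have a2 := (hsupp _ (right_ne_zero_of_mul hx)).1
        rw [iter_comm, iter_symm] at a1 a2
        exact ⟨a1, a2⟩)
      refine le_trans (le_of_eq ?_) ((le_abs_self _).trans this)
      rw [← int_comp (hT.iterate a) ((bψ.comp measurable_fst).mul
        ((hf.comp (mT j)).mul (hf.comp (mT j')))).meas]
      refine integral_congr_ae ?_
      filter_upwards [ext_iter hT hTR a] with z hz
      simp only [hu, hz, symm_iter]
      ring
  set F : X × Y → ℝ := fun z => ∑ j ∈ J, u j z with hF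
  have hs' : (0 : ℝ) < s := by exact_mod_cast hs
  have iF2 : Integrable (fun z => ∑ j ∈ J, ∑ j' ∈ J, u j z * u j' z) μ :=
    integrable_finsetSum _ fun j _ => integrable_finsetSum _ fun j' _ =>
      ((bu j).mul (bu j')).integrable μ
  have h3 : ∫ z, ∑ j ∈ J, ∑ j' ∈ J, u j z * u j' z ∂μ ≤ s ^ 2 + s ^ 2 * (s ^ 2 * δ) := by
    rw [integral_finsetSum _ fun j _ => integrable_finsetSum _ fun j' _ =>
      ((bu j).mul (bu j')).integrable μ]
    calc _ ≤ ∑ j ∈ J, (1 + s ^ 2 * δ) := Finset.sum_le_sum fun j hj => by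
          rw [integral_finsetSum _ fun j' _ => ((bu j).mul (bu j')).integrable μ]
          refine (Finset.sum_le_sum (h2 j hj)).trans (le_of_eq ?_)
          rw [Finset.sum_add_distrib, Finset.sum_ite_eq, if_pos hj, Finset.sum_const, hJ]
          simp
      _ = _ := by rw [Finset.sum_const, hJ, nsmul_eq_mul]; push_cast; ring
  have h4 : |∑ j ∈ J, ∫ z, u j z * g (T^[b] z) ∂μ| ≤ s + s ^ 3 * δ / 2 := by
    rw [← integral_finsetSum _ fun j _ => ((bu j).mul bg).integrable μ]
    refine (abs_int_le (G := fun z => (∑ j ∈ J, ∑ j' ∈ J, u j z * u j' z) / (2 * s) + s / 2)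
      ((iF2.div_const _).add (integrable_const _)) (Eventually.of_forall fun z => ?_)).trans ?_
    · rw [← Finset.sum_mul, ← Finset.sum_mul_sum, abs_mul]
      set w := ∑ j ∈ J, u j z
      have : |w| ≤ w * w / (2 * s) + s / 2 := by
        clear * - w s hs
        rw [← abs_mul_abs_self, div_add_div _ _ (by positivity) (by norm_num),
          le_div_iff₀ (by positivity)]
        linarith only [sq_nonneg (|w| - s), sq_nonneg (|w| - ↑s)]
      clear * - w g X Y T b z s this bg
      linarith only [this, bg, bg.le z, abs_nonneg w, mul_nonneg_of_nonpos_of_nonpos (Mathlib.Tactic.Linarith.sub_nonpos_of_le (bg.le z)) (Mathlib.Tactic.Linarith.sub_nonpos_of_le (abs_nonneg w))]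
    · rw [integral_add (iF2.div_const _) (integrable_const _), integral_div]
      simp only [integral_const, probReal_univ, smul_eq_mul, one_mul]
      have : (∫ z, ∑ j ∈ J, ∑ j' ∈ J, u j z * u j' z ∂μ) / (2 * s) ≤ s / 2 + s ^ 3 * δ / 2 := by
        clear * - X Y μ J u s δ hs h3
        rw [div_le_iff₀ (by positivity)]
        linarith only [h3]
      linarith only [this]
  have h5 : |∑ j ∈ J, (I - ∫ z, u j z * g (T^[b] z) ∂μ)| ≤ s ^ 2 * δ := by
    refine (Finset.abs_sum_le_sum_abs _ _).trans ((Finset.sum_le_sum h1).trans (le_of_eq ?_))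
    rw [Finset.sum_const, hJ]; simp
  rw [Finset.sum_sub_distrib, Finset.sum_const, hJ, nsmul_eq_mul] at h5
  have h6 : (s : ℝ) ^ 2 * |I| ≤ s ^ 2 * δ + (s + s ^ 3 * δ / 2) := by
    clear * - s I J X Y μ u g T b δ h4 hs h5
    have := abs_add_le (((s ^ 2 : ℕ) : ℝ) * I - ∑ j ∈ J, ∫ z, u j z * g (T^[b] z) ∂μ)
      (∑ j ∈ J, ∫ z, u j z * g (T^[b] z) ∂μ)
    rw [sub_add_cancel, abs_mul, abs_of_nonneg (by positivity)] at this
    push_cast at this h5
    linarith only [h4, this, h5]
  have h7 : |I| ≤ δ + (1 / s + s * δ / 2) := by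
    clear * - s I δ h6 hs hδ hs'
    refine le_of_mul_le_mul_left (h6.trans (le_of_eq ?_)) (pow_pos hs' 2)
    field_simp
  linarith only [h7, hs', hδ, mul_nonneg hs'.le hδ]

/-- Assembly over the types. -/
theorem assemble {R : X ≃ᵐ X} {T : X × Y → X × Y}
    (hT : MeasurePreserving T (m.prod η) (m.prod η))
    (hTR : ∀ᵐ z ∂(m.prod η), (T z).1 = R z.1) {f g : X × Y → ℝ} (hf : Bd f) (hg : Bd g)
    {τ : X → ℕ} (hτ : Measurable τ) {K : ℕ} (hK : ∀ x, τ x < K) {J : ℕ → Finset ℕ} {s : ℕ}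
    (hs : 0 < s) (hJ : ∀ k, (J k).card = s ^ 2) {δ : ℝ} (hδ : 0 ≤ δ)
    (hO : ∀ h, h = f ∨ h = g → ∀ k < K, ∀ j ∈ J k, ∀ j' ∈ J k, j ≠ j' → ∀ ψ : X → ℝ, Bd ψ →
      (∀ x, ψ x ≠ 0 → τ (R^[j] x) = k ∧ τ (R^[j'] x) = k) →
      |∫ z, ψ z.1 * (h (T^[j] z) * h (T^[j'] z)) ∂(m.prod η)| ≤ δ)
    (hI : ∀ h, h = f ∨ h = g → ∀ k < K, ∀ j ∈ J k,
      ∫ z, {x | k < τ x}.indicator 1 (R^[j] z.1) * |h (T^[j] z) - h z| ∂(m.prod η) ≤ δ)
    (n : ℕ) {φ : X → ℝ} (hφ : Bd φ) :
    |∫ z, φ z.1 * (f (T^[n] z) * g z) ∂(m.prod η)| ≤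
      m.real {x | τ x = τ (R^[n] x)} + 2 * K * (1 / s + s * δ + δ) := by
  set μ := m.prod η with hμ
  have mτ : Measurable fun x => τ (R^[n] x) := hτ.comp (R.measurable.iterate n)
  have mk : ∀ k, MeasurableSet {x | k < τ x} := fun k => meas_pred hτ _
  have mD : MeasurableSet {x | τ x = τ (R^[n] x)} := measurableSet_eq_fun hτ mτ
  have mA : ∀ k, MeasurableSet {x | τ (R^[n] x) = k ∧ k < τ x} := fun k =>
    (meas_pred mτ (· = k)).inter (mk k)
  have mB : ∀ k, MeasurableSet {x | τ x = k ∧ k < τ (R^[n] x)} := fun k =>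
    (meas_pred hτ (· = k)).inter (meas_pred mτ (k < ·))
  have bw : Bd fun z => f (T^[n] z) * g z := (hf.comp (hT.measurable.iterate n)).mul hg
  have bi : ∀ {E : Set X}, MeasurableSet E → Bd fun x => φ x * E.indicator 1 x := fun hE =>
    hφ.mul (bd_indicator hE)
  have ii : ∀ {E : Set X}, MeasurableSet E →
      Integrable (fun z => φ z.1 * E.indicator 1 z.1 * (f (T^[n] z) * g z)) μ := fun hE =>
    (((bi hE).comp measurable_fst).mul bw).integrable μ
  have key : ∀ x, φ x = φ x * {x | τ x = τ (R^[n] x)}.indicator 1 x +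
      (∑ k ∈ Finset.range K, φ x * {x | τ (R^[n] x) = k ∧ k < τ x}.indicator 1 x +
        ∑ k ∈ Finset.range K, φ x * {x | τ x = k ∧ k < τ (R^[n] x)}.indicator 1 x) := by
    clear * - X φ τ R n K hK
    intro x
    rw [Finset.sum_eq_single (τ (R^[n] x)) (fun k _ hk => by simp [indicator, hk.symm])
      (fun h => absurd (Finset.mem_range.mpr (hK _)) h),
      Finset.sum_eq_single (τ x) (fun k _ hk => by simp [indicator, hk.symm])
      (fun h => absurd (Finset.mem_range.mpr (hK _)) h)]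
    rcases lt_trichotomy (τ x) (τ (R^[n] x)) with h | h | h
    · simp [indicator, h, h.ne, h.le]
    · simp [indicator, ← h]
    · simp [indicator, h, h.ne', h.le]
  have e : ∫ z, φ z.1 * (f (T^[n] z) * g z) ∂μ =
      ∫ z, φ z.1 * {x | τ x = τ (R^[n] x)}.indicator 1 z.1 * (f (T^[n] z) * g z) ∂μ +
      (∑ k ∈ Finset.range K,
        ∫ z, φ z.1 * {x | τ (R^[n] x) = k ∧ k < τ x}.indicator 1 z.1 * (f (T^[n] z) * g z) ∂μ +
      ∑ k ∈ Finset.range K,
        ∫ z, φ z.1 * {x | τ x = k ∧ k < τ (R^[n] x)}.indicator 1 z.1 * (f (T^[n] z) * g z) ∂μ) := by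
    rw [← integral_finsetSum _ fun k _ => ii (mA k), ← integral_finsetSum _ fun k _ => ii (mB k),
      ← integral_add (integrable_finsetSum _ fun k _ => ii (mA k))
        (integrable_finsetSum _ fun k _ => ii (mB k)),
      ← integral_add (ii mD) ((integrable_finsetSum _ fun k _ => ii (mA k)).fun_add
        (integrable_finsetSum _ fun k _ => ii (mB k)))]
    refine integral_congr_ae (Eventually.of_forall fun z => ?_)
    simp only [← Finset.sum_mul, ← add_mul]
    rw [← key]
  have supp : ∀ {E : Set X} {x}, φ x * E.indicator 1 x ≠ 0 → x ∈ E := fun {E x} h => by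
    by_contra hn
    simp [hn] at h
  have d1 : |∫ z, φ z.1 * {x | τ x = τ (R^[n] x)}.indicator 1 z.1 * (f (T^[n] z) * g z) ∂μ| ≤
      m.real {x | τ x = τ (R^[n] x)} := by
    refine (abs_int_le (((bd_indicator mD).comp measurable_fst).integrable μ)
      (Eventually.of_forall fun z => ?_)).trans (le_of_eq ?_)
    · by_cases hz : z.1 ∈ {x | τ x = τ (R^[n] x)}
      · rw [indicator_of_mem hz, Pi.one_apply, mul_one]
        exact ((hφ.comp measurable_fst).mul bw).le z
      · simp [indicator_of_notMem hz]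
    · rw [int_comp measurePreserving_fst (bd_indicator mD).meas, integral_indicator_one mD]
  have d2 : ∀ k ∈ Finset.range K, |∫ z, φ z.1 * {x | τ (R^[n] x) = k ∧ k < τ x}.indicator 1 z.1 *
      (f (T^[n] z) * g z) ∂μ| ≤ 1 / s + s * δ + δ := fun k hk =>
    core (W := {x | τ x = k}) hT hTR hf hg (mk k) hs (hJ k) hδ
      (hO f (Or.inl rfl) k (Finset.mem_range.mp hk)) (hI g (Or.inr rfl) k (Finset.mem_range.mp hk))
      n 0 (bi (mA k)) fun x hx => supp hx
  have d3 : ∀ k ∈ Finset.range K, |∫ z, φ z.1 * {x | τ x = k ∧ k < τ (R^[n] x)}.indicator 1 z.1 *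
      (f (T^[n] z) * g z) ∂μ| ≤ 1 / s + s * δ + δ := fun k hk => by
    have := core (W := {x | τ x = k}) hT hTR hg hf (mk k) hs (hJ k) hδ
      (hO g (Or.inr rfl) k (Finset.mem_range.mp hk)) (hI f (Or.inl rfl) k (Finset.mem_range.mp hk))
      0 n (bi (mB k)) fun x hx => supp hx
    simpa only [Function.iterate_zero, id, mul_comm (g _)] using this
  have d2' := (Finset.abs_sum_le_sum_abs _ _).trans (Finset.sum_le_sum d2)
  have d3' := (Finset.abs_sum_le_sum_abs _ _).trans (Finset.sum_le_sum d3)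
  rw [Finset.sum_const, Finset.card_range, nsmul_eq_mul] at d2' d3'
  rw [e]
  refine (abs_add_le _ _).trans (add_le_add d1 ((abs_add_le _ _).trans ?_))
  clear * - K X Y μ φ τ R n f T g s δ d2' d3'
  linarith only [d2', d3']

theorem diag_small {R : Aut m} (hR : IsMixing R) {τ : X → ℕ} (hτ : Measurable τ) {K : ℕ}
    (hK0 : 0 < K) (hK : ∀ x, τ x < K) (h : ∀ k, m.real {x | τ x = k} ≤ 2 / K) :
    ∀ᶠ n in atTop, m.real {x | τ x = τ (R.rep^[n] x)} ≤ 5 / K := by
  have hK' : (0 : ℝ) < K := by exact_mod_cast hK0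
  have h1 : ∀ k ∈ Finset.range K, ∀ᶠ n in atTop,
      m.real ({x | τ x = k} ∩ R.rep^[n] ⁻¹' {x | τ x = k}) ≤ 5 / K ^ 2 := by
    clear * - K X m τ R hR hτ h hK0
    intro k _
    refine (hR _ _ (meas_pred hτ (· = k)) (meas_pred hτ (· = k))).eventually (ge_mem_nhds ?_)
    calc _ ≤ (2 / K : ℝ) * (2 / K) := by gcongr <;> exact h k
      _ = 4 / K ^ 2 := by ring
      _ < _ := by gcongr; norm_num
  filter_upwards [(Finset.eventually_all _).mpr h1] with n hn
  have hsub : {x | τ x = τ (R.rep^[n] x)} ⊆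
      ⋃ k ∈ Finset.range K, ({x | τ x = k} ∩ R.rep^[n] ⁻¹' {x | τ x = k}) := fun x hx =>
    mem_biUnion (Finset.mem_coe.mpr (Finset.mem_range.mpr (hK x))) ⟨rfl, hx.symm⟩
  refine (measureReal_mono hsub (measure_ne_top _ _)).trans ((measureReal_biUnion_finset_le _ _).trans
    ((Finset.sum_le_sum hn).trans (le_of_eq ?_)))
  rw [Finset.sum_const, Finset.card_range, nsmul_eq_mul]
  field_simp

end Pool.Agent.Work.MP_2967d5_an
end

-- merged part: Pool.Agent.Work.MP_2967d5_an.Model
section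
open MeasureTheory Set Filter Topology
open scoped symmDiff ENNReal

namespace Pool.Agent.Work.MP_2967d5_an

variable {X Y : Type*} [MeasurableSpace X] [MeasurableSpace Y] {m : Measure X} {η : Measure Y}
  [IsProbabilityMeasure m] [IsProbabilityMeasure η]

theorem piecewise_mp {r : X → ℕ} (hr : Measurable r) {Φ : ℕ → X × Y → X × Y}
    (hΦ : ∀ i, MeasurePreserving (Φ i) (m.prod η) (m.prod η))
    (hfst : ∀ i, ∀ᵐ z ∂(m.prod η), (Φ i z).1 = z.1) :
    MeasurePreserving (fun z => Φ (r z.1) z) (m.prod η) (m.prod η) ∧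
      ∀ᵐ z ∂(m.prod η), (Φ (r z.1) z).1 = z.1 := by
  have hm : Measurable fun z => Φ (r z.1) z :=
    (measurable_from_prod_countable_left (f := fun p : (X × Y) × ℕ => Φ p.2 p.1)
      fun i => (hΦ i).measurable).comp (measurable_id.prodMk (hr.comp measurable_fst))
  refine ⟨⟨hm, Measure.ext fun E hE => ?_⟩, (ae_all_iff.mpr hfst).mono fun z hz => hz _⟩
  have hP : ∀ i, MeasurableSet {z : X × Y | r z.1 = i} := fun i =>
    meas_pred (hr.comp measurable_fst) (· = i)
  have hsum : ∀ D, MeasurableSet D →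
      (m.prod η) D = ∑' i, (m.prod η) (D ∩ {z : X × Y | r z.1 = i}) := by
    intro D hD
    rw [← measure_iUnion _ fun i => hD.inter (hP i)]
    · congr 1
      ext z
      simp
    · intro i j hij
      rw [Function.onFun, Set.disjoint_left]
      rintro z ⟨-, h1⟩ ⟨-, h2⟩
      exact hij (h1.symm.trans h2)
  rw [Measure.map_apply hm hE, hsum _ (hm hE), hsum E hE]
  congr 1
  funext i
  rw [← (hΦ i).measure_preimage (hE.inter (hP i)).nullMeasurableSet]
  refine measure_congr ?_
  filter_upwards [hfst i] with z hz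
  show (Φ (r z.1) z ∈ E ∧ r z.1 = i) = (Φ i z ∈ E ∧ r (Φ i z).1 = i)
  rw [hz]
  by_cases h : r z.1 = i <;> simp [h]

/-- the product of a map with the identity -/
def pm (R : X → X) (z : X × Y) : X × Y := (R z.1, z.2)

omit [MeasurableSpace X] [MeasurableSpace Y] in
theorem pm_iter (R : X → X) (j : ℕ) (z : X × Y) : (pm R)^[j] z = (R^[j] z.1, z.2) := by
  induction j with
  | zero => rfl
  | succ j ih => rw [Function.iterate_succ_apply', Function.iterate_succ_apply', ih]; rfl

theorem pm_mp {R : X → X} (hR : MeasurePreserving R m m) :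
    MeasurePreserving (pm R) (m.prod η) (m.prod η) := hR.prod (MeasurePreserving.id η)

theorem symm_ext {R : Aut m} {T : Aut (m.prod η)} (hT : T ∈ Extensions η R) :
    ∀ᵐ z ∂(m.prod η), (T.rep.symm z).1 = R.rep.symm z.1 := by
  filter_upwards [T.mp_symm.quasiMeasurePreserving.ae hT] with z hz
  rw [MeasurableEquiv.apply_symm_apply] at hz
  rw [hz, MeasurableEquiv.symm_apply_apply]

/-- fibre preserving transformation with its inverse -/
structure Gauge (m : Measure X) (η : Measure Y) (Φ Φ' : X × Y → X × Y) : Prop where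
  mp : MeasurePreserving Φ (m.prod η) (m.prod η)
  mp' : MeasurePreserving Φ' (m.prod η) (m.prod η)
  fst : ∀ᵐ z ∂(m.prod η), (Φ z).1 = z.1
  fst' : ∀ᵐ z ∂(m.prod η), (Φ' z).1 = z.1
  left : ∀ᵐ z ∂(m.prod η), Φ' (Φ z) = z
  right : ∀ᵐ z ∂(m.prod η), Φ (Φ' z) = z

theorem gauge_piecewise {r : X → ℕ} (hr : Measurable r) {Φ Φ' : ℕ → X × Y → X × Y}
    (h : ∀ i, Gauge m η (Φ i) (Φ' i)) :
    Gauge m η (fun z => Φ (r z.1) z) (fun z => Φ' (r z.1) z) := by
  have h1 := piecewise_mp hr (fun i => (h i).mp) (fun i => (h i).fst)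
  have h2 := piecewise_mp hr (fun i => (h i).mp') (fun i => (h i).fst')
  refine ⟨h1.1, h2.1, h1.2, h2.2, ?_, ?_⟩
  · filter_upwards [h1.2, ae_all_iff.mpr fun i => (h i).left] with z hz hz'
    rw [hz, hz']
  · filter_upwards [h2.2, ae_all_iff.mpr fun i => (h i).right] with z hz hz'
    rw [hz, hz']

theorem Gauge.comp {Φ Φ' Ψ Ψ' : X × Y → X × Y} (h : Gauge m η Φ Φ') (h' : Gauge m η Ψ Ψ') :
    Gauge m η (fun z => Φ (Ψ z)) (fun z => Ψ' (Φ' z)) := by
  refine ⟨h.mp.comp h'.mp, h'.mp'.comp h.mp', ?_, ?_, ?_, ?_⟩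
  · filter_upwards [h'.fst, h'.mp.quasiMeasurePreserving.ae h.fst] with z h1 h2
    rw [h2, h1]
  · filter_upwards [h.fst', h.mp'.quasiMeasurePreserving.ae h'.fst'] with z h1 h2
    rw [h2, h1]
  · filter_upwards [h'.left, h'.mp.quasiMeasurePreserving.ae h.left] with z h1 h2
    rw [h2, h1]
  · filter_upwards [h.right, h.mp'.quasiMeasurePreserving.ae h'.right] with z h1 h2
    rw [h2, h1]

theorem real_fst {D : Set X} (hD : MeasurableSet D) :
    (m.prod η).real {z : X × Y | z.1 ∈ D} = m.real D :=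
  (measurePreserving_fst (μ := m) (ν := η)).measureReal_preimage hD.nullMeasurableSet

theorem exists_cob {R : Aut m} (hR : IsMixing R)
    (hsmall : ∀ δ : ℝ, 0 < δ → ∃ C, MeasurableSet C ∧ 0 < m.real C ∧ m.real C ≤ δ)
    {T : Aut (m.prod η)} (hT : T ∈ Extensions η R) {c : ℝ} (hc : 0 < c) :
    ∃ Φ Φ', Gauge m η Φ Φ' ∧ (m.prod η).real {z | Φ (pm R.rep (Φ' z)) ≠ T.rep z} ≤ c := by
  obtain ⟨r, hr, hrc⟩ := exists_clock hR hsmall hc
  have hG : ∀ i, Gauge m η (fun z => T.rep^[i] ((pm R.rep.symm)^[i] z))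
      (fun z => (pm R.rep)^[i] (T.rep.symm^[i] z)) := by
    intro i
    have a1 := (pm_mp (η := η) R.mp_symm).iterate i
    refine ⟨(T.mp.iterate i).comp a1, ((pm_mp R.mp).iterate i).comp (T.mp_symm.iterate i),
      ?_, ?_, Eventually.of_forall fun z => ?_, Eventually.of_forall fun z => ?_⟩
    · filter_upwards [a1.quasiMeasurePreserving.ae (ext_iter T.mp hT i)] with z hz
      rw [hz, pm_iter, iter_symm]
    · filter_upwards [ext_iter T.mp_symm (symm_ext hT) i] with z hz
      rw [pm_iter, hz, iter_symm]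
    · simp only [symm_iter, pm_iter, iter_symm]
    · simp only [pm_iter, symm_iter, Prod.mk.eta, iter_symm]
  have hG' := gauge_piecewise hr hG
  refine ⟨_, _, hG', le_trans ?_ hrc⟩
  have hm : MeasurableSet {x | r (R.rep x) ≠ r x + 1} :=
    (measurableSet_eq_fun (hr.comp R.rep.measurable) (hr.add_const 1)).compl
  rw [← real_fst (η := η) hm]
  refine ENNReal.toReal_mono (measure_ne_top _ _) (measure_mono_ae ?_)
  filter_upwards [hG'.fst'] with z hz hne
  intro h
  apply hne
  have e1 : (pm R.rep ((pm R.rep)^[r z.1] (T.rep.symm^[r z.1] z))).1 = R.rep z.1 := by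
    rw [pm, hz]
  have e2 : ∀ w : X × Y, (pm R.rep.symm)^[r z.1 + 1] (pm R.rep ((pm R.rep)^[r z.1] w)) = w := by
    intro w
    rw [← Function.iterate_succ_apply' (pm R.rep), pm_iter, pm_iter, symm_iter]
  simp only [e1, h, e2]
  rw [Function.iterate_succ_apply', iter_symm]

/-- centred indicator -/
noncomputable def cen (η : Measure Y) (Q : Set Y) (y : Y) : ℝ := Q.indicator 1 y - η.real Q

theorem bd_cen {Q : Set Y} (hQ : MeasurableSet Q) : Bd (cen η Q) := by
  refine ⟨(bd_indicator hQ).meas.sub_const _, fun y => ?_⟩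
  have h1 : η.real Q ≤ 1 := measureReal_le_one
  have h2 : 0 ≤ η.real Q := measureReal_nonneg
  by_cases h : y ∈ Q <;> simp [cen, h, abs_le] <;> linarith only [h1, h2]

omit [IsProbabilityMeasure η] in
theorem cen_sub_le (Q : Set Y) (y y' : Y) : |cen η Q y - cen η Q y'| ≤ 1 := by
  rw [cen, cen, sub_sub_sub_cancel_right]
  by_cases h : y ∈ Q <;> by_cases h' : y' ∈ Q <;> simp [h, h']

theorem cen_corr {S : Aut η} (hS : IsMixing S) {Q : Set Y} (hQ : MeasurableSet Q) {δ : ℝ}
    (hδ : 0 < δ) : ∀ᶠ n in atTop, |∫ y, cen η Q y * cen η Q (S.rep^[n] y) ∂η| ≤ δ := by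
  have h1 := (hS Q Q hQ hQ).sub_const (η.real Q * η.real Q)
  rw [sub_self] at h1
  filter_upwards [h1.abs.eventually (ge_mem_nhds (by simpa using hδ))] with n hn
  refine le_trans (le_of_eq ?_) hn
  congr 1
  have hQ' : MeasurableSet (S.rep^[n] ⁻¹' Q) := (S.rep.measurable.iterate n) hQ
  have e : ∀ y, cen η Q y * cen η Q (S.rep^[n] y) = (Q ∩ S.rep^[n] ⁻¹' Q).indicator 1 y -
      η.real Q * Q.indicator 1 y - η.real Q * (S.rep^[n] ⁻¹' Q).indicator 1 y +
        η.real Q * η.real Q := by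
    clear * - Y η Q S n
    intro y
    by_cases h : y ∈ Q <;> by_cases h' : S.rep^[n] y ∈ Q <;> simp [cen, h, h'] <;> ring
  have i1 := (bd_indicator (hQ.inter hQ')).integrable η
  have i2 := ((bd_indicator hQ).integrable η).const_mul (η.real Q)
  have i3 := ((bd_indicator hQ').integrable η).const_mul (η.real Q)
  simp only [e]
  rw [integral_add ((i1.sub' i2).sub' i3) (integrable_const _),
    integral_sub (i1.sub' i2) i3, integral_sub i1 i2, integral_const_mul, integral_const_mul,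
    integral_indicator_one (hQ.inter hQ'), integral_indicator_one hQ, integral_indicator_one hQ',
    (S.mp.iterate n).measureReal_preimage hQ.nullMeasurableSet]
  simp

theorem meas_skew {S : Y → Y} (hS : Measurable S) {a : X → ℕ} (ha : Measurable a) :
    Measurable fun w : X × Y => S^[a w.1] w.2 :=
  (measurable_from_prod_countable_left (f := fun p : Y × ℕ => S^[p.2] p.1)
    fun i => hS.iterate i).comp (measurable_snd.prodMk (ha.comp measurable_fst))

theorem model_O {S : Y → Y} (hS : MeasurePreserving S η η) {h : Y → ℝ} (hh : Bd h) {L : ℕ}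
    {δ : ℝ} (hL : ∀ n, L ≤ n → |∫ y, h y * h (S^[n] y) ∂η| ≤ δ) (hδ : 0 ≤ δ) {a a' : X → ℕ}
    (ha : Measurable a) (ha' : Measurable a') {ψ : X → ℝ} (hψ : Bd ψ) {D : Set X}
    (hD : MeasurableSet D) (hgood : ∀ x, ψ x ≠ 0 → x ∉ D → a x + L ≤ a' x) :
    |∫ w, ψ w.1 * (h (S^[a w.1] w.2) * h (S^[a' w.1] w.2)) ∂(m.prod η)| ≤ δ + m.real D := by
  have b1 := (hψ.comp measurable_fst).mul ((hh.comp (meas_skew hS.measurable ha)).mul
    (hh.comp (meas_skew hS.measurable ha')))
  rw [integral_prod _ (b1.integrable _)]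
  refine (abs_int_le (G := fun x => δ + D.indicator 1 x)
    ((integrable_const _).add ((bd_indicator hD).integrable m))
    (Eventually.of_forall fun x => ?_)).trans (le_of_eq ?_)
  · simp only
    rw [integral_const_mul, abs_mul]
    have b2 : Bd fun y => h (S^[a x] y) * h (S^[a' x] y) :=
      (hh.comp (hS.measurable.iterate _)).mul (hh.comp (hS.measurable.iterate _))
    by_cases h0 : ψ x = 0
    · rw [h0, abs_zero, zero_mul]
      exact add_nonneg hδ (indicator_nonneg (fun _ _ => zero_le_one) _)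
    refine (mul_le_of_le_one_left (abs_nonneg _) (hψ.le x)).trans ?_
    by_cases hx : x ∈ D
    · rw [indicator_of_mem hx]
      linarith [b2.abs_integral_le η, show (1 : X → ℝ) x = 1 from rfl]
    · rw [indicator_of_notMem hx, add_zero]
      obtain ⟨n, hn⟩ := Nat.exists_eq_add_of_le ((Nat.le_add_right _ _).trans (hgood x h0 hx))
      have := hL n (by have := hgood x h0 hx; omega)
      rw [← int_comp (hS.iterate (a x)) (hh.mul (hh.comp (hS.measurable.iterate n))).meas] at this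
      simpa only [hn, add_comm (a x) n, Function.iterate_add_apply] using this
  · rw [integral_add (integrable_const _) ((bd_indicator hD).integrable m),
      integral_indicator_one hD]
    simp

theorem stable_sets {Z : Type*} [MeasurableSpace Z] {μ : Measure Z} [IsFiniteMeasure μ]
    (T₁ : Aut μ) {E : Set Z} (hE : MeasurableSet E) (j : ℕ) :
    Tendsto (fun T : Aut μ => μ ((T.rep^[j] ⁻¹' E) ∆ (T₁.rep^[j] ⁻¹' E))) (𝓝 T₁) (𝓝 0) := by
  induction j with
  | zero => simpa using tendsto_const_nhds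
  | succ j ih =>
    have hF : MeasurableSet (T₁.rep^[j] ⁻¹' E) := (T₁.rep.measurable.iterate j) hE
    have h1 := tendsto_iff_edist_tendsto_0.mp ((continuous_pre (μ := μ) hF).tendsto T₁)
    have h2 := ih.add h1
    rw [add_zero] at h2
    refine tendsto_of_tendsto_of_tendsto_of_le_of_le tendsto_const_nhds h2 (fun _ => bot_le)
      fun T => ?_
    simp only [Function.iterate_succ, preimage_comp]
    rw [← mp_symmDiff T.mp ((T.rep.measurable.iterate j) hE) hF]
    exact measure_symmDiff_le _ _ _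

theorem stable_fun {Z : Type*} [MeasurableSpace Z] {μ : Measure Z} [IsFiniteMeasure μ]
    (T₁ : Aut μ) {Φ : Z → Y} (hΦ : Measurable Φ) {Q : Set Y} (hQ : MeasurableSet Q) (j : ℕ)
    {δ : ℝ} (hδ : 0 < δ) : ∀ᶠ T in 𝓝 T₁,
      ∫ z, |cen η Q (Φ (T.rep^[j] z)) - cen η Q (Φ (T₁.rep^[j] z))| ∂μ ≤ δ := by
  have h1 := (ENNReal.tendsto_toReal ENNReal.zero_ne_top).comp (stable_sets T₁ (hΦ hQ) j)
  filter_upwards [h1.eventually (ge_mem_nhds (by simpa using hδ))] with T hT
  refine le_trans (le_of_eq ?_) hT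
  have hm := ((T.rep.measurable.iterate j) (hΦ hQ)).symmDiff ((T₁.rep.measurable.iterate j) (hΦ hQ))
  show _ = μ.real _
  rw [← integral_indicator_one hm]
  congr 1
  funext z
  rw [cen, cen, sub_sub_sub_cancel_right]
  by_cases h : Φ (T.rep^[j] z) ∈ Q <;> by_cases h' : Φ (T₁.rep^[j] z) ∈ Q <;>
    simp [h, h', indicator, mem_symmDiff]

end Pool.Agent.Work.MP_2967d5_an
end

-- merged part: Pool.Agent.Work.MP_2967d5_an.Dense
section
open MeasureTheory Set Filter Topology
open scoped symmDiff ENNReal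

namespace Pool.Agent.Work.MP_2967d5_an

variable {X Y : Type*} [MeasurableSpace X] [MeasurableSpace Y] {m : Measure X} {η : Measure Y}
  [IsProbabilityMeasure m] [IsProbabilityMeasure η]

theorem gauge_skew (S : Aut η) {A : X → ℕ} (hA : Measurable A) :
    Gauge m η (fun w => (w.1, S.rep^[A w.1] w.2)) (fun w => (w.1, S.rep.symm^[A w.1] w.2)) :=
  gauge_piecewise hA (Φ := fun i w => (w.1, S.rep^[i] w.2))
    (Φ' := fun i w => (w.1, S.rep.symm^[i] w.2)) fun i =>
    ⟨(MeasurePreserving.id m).prod (S.mp.iterate i),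
      (MeasurePreserving.id m).prod (S.mp_symm.iterate i), Eventually.of_forall fun _ => rfl,
      Eventually.of_forall fun _ => rfl, Eventually.of_forall fun z => by simp only [symm_iter],
      Eventually.of_forall fun z => by simp only [iter_symm]⟩

theorem exists_conj [StandardBorelSpace X] [StandardBorelSpace Y] (R : Aut m)
    {Θ Θ' : X × Y → X × Y} (hG : Gauge m η Θ Θ') :
    ∃ T : Aut (m.prod η), T ∈ Extensions η R ∧
      (∀ᵐ z ∂(m.prod η), T.rep z = Θ (pm R.rep (Θ' z))) ∧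
      ∀ j, ∀ᵐ w ∂(m.prod η), T.rep^[j] (Θ w) = Θ (R.rep^[j] w.1, w.2) := by
  have p1 := pm_mp (η := η) R.mp
  have p2 := pm_mp (η := η) R.mp_symm
  obtain ⟨T, hT⟩ := exists_aut (T := fun z => Θ (pm R.rep (Θ' z)))
    (S := fun z => Θ (pm R.rep.symm (Θ' z))) (hG.mp.comp (p1.comp hG.mp'))
    (hG.mp.comp (p2.comp hG.mp'))
    (by
      filter_upwards [hG.right, (p1.comp hG.mp').quasiMeasurePreserving.ae hG.left] with z h1 h2
      simp only [Function.comp] at h2
      rw [h2]
      simpa [pm] using h1)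
    (by
      filter_upwards [hG.right, (p2.comp hG.mp').quasiMeasurePreserving.ae hG.left] with z h1 h2
      simp only [Function.comp] at h2
      rw [h2]
      simpa [pm] using h1)
  refine ⟨T, ?_, hT, fun j => ?_⟩
  · show ∀ᵐ z ∂(m.prod η), (T.rep z).1 = R.rep z.1
    filter_upwards [hT, hG.fst', (p1.comp hG.mp').quasiMeasurePreserving.ae hG.fst] with z h1 h2 h3
    simp only [Function.comp] at h3
    rw [h1, h3, pm, h2]
  · have h1 : ∀ᵐ w ∂(m.prod η), T.rep (Θ w) = Θ (pm R.rep w) := by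
      filter_upwards [hG.left, hG.mp.quasiMeasurePreserving.ae hT] with w h1 h2
      rw [h2, h1]
    induction j with
    | zero => exact Eventually.of_forall fun _ => rfl
    | succ j ih =>
      filter_upwards [ih, (p1.iterate j).quasiMeasurePreserving.ae h1] with w h2 h3
      rw [Function.iterate_succ_apply', h2, ← pm_iter, h3, pm_iter, pm,
        Function.iterate_succ_apply']

theorem perturb_O {Z : Type*} [MeasurableSpace Z] {μ : Measure Z} [IsProbabilityMeasure μ]
    {ψ a b a' b' : Z → ℝ} (hψ : Bd ψ) (ha : Bd a) (hb : Bd b) (ha' : Bd a') (hb' : Bd b') :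
    |∫ z, ψ z * (a z * b z) ∂μ| ≤ |∫ z, ψ z * (a' z * b' z) ∂μ| +
      (∫ z, |a z - a' z| ∂μ + ∫ z, |b z - b' z| ∂μ) := by
  have i1 := ((ha.integrable μ).sub' (ha'.integrable μ)).abs
  have i2 := ((hb.integrable μ).sub' (hb'.integrable μ)).abs
  have : |∫ z, ψ z * (a z * b z) ∂μ - ∫ z, ψ z * (a' z * b' z) ∂μ| ≤
      ∫ z, |a z - a' z| ∂μ + ∫ z, |b z - b' z| ∂μ := by
    rw [← integral_sub ((hψ.mul (ha.mul hb)).integrable μ) ((hψ.mul (ha'.mul hb')).integrable μ),
      ← integral_add i1 i2]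
    refine abs_int_le (i1.fun_add i2) (Eventually.of_forall fun z => ?_)
    have e : ψ z * (a z * b z) - ψ z * (a' z * b' z) =
        ψ z * b z * (a z - a' z) + ψ z * a' z * (b z - b' z) := by ring
    rw [e]
    refine (abs_add_le _ _).trans (add_le_add ?_ ?_)
    · rw [abs_mul]; exact mul_le_of_le_one_left (abs_nonneg _) ((hψ.mul hb).le z)
    · rw [abs_mul]; exact mul_le_of_le_one_left (abs_nonneg _) ((hψ.mul ha').le z)
  linarith only [this, abs_sub_abs_le_abs_sub (∫ z, ψ z * (a z * b z) ∂μ) (∫ z, ψ z * (a' z * b' z) ∂μ)]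

theorem perturb_I {Z : Type*} [MeasurableSpace Z] {μ : Measure Z} [IsProbabilityMeasure μ]
    {ψ a a' b : Z → ℝ} (hψ : Bd ψ) (ha : Bd a) (ha' : Bd a') (hb : Bd b) :
    ∫ z, ψ z * |a z - b z| ∂μ ≤ ∫ z, ψ z * |a' z - b z| ∂μ + ∫ z, |a z - a' z| ∂μ := by
  have i1 := ((ha.integrable μ).sub' (ha'.integrable μ)).abs
  have i2 : ∀ {a : Z → ℝ}, Bd a → Integrable (fun z => ψ z * |a z - b z|) μ := fun ha =>
    ((ha.integrable μ).sub' (hb.integrable μ)).abs.bdd_mul (c := 1) hψ.meas.aestronglyMeasurable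
      (Eventually.of_forall hψ.le)
  rw [← integral_add (i2 ha') i1]
  refine integral_mono (i2 ha) ((i2 ha').fun_add i1) fun z => ?_
  have h1 := abs_abs_sub_abs_le_abs_sub (a z - b z) (a' z - b z)
  rw [sub_sub_sub_cancel_right] at h1
  have h2 : ψ z * (|a z - b z| - |a' z - b z|) ≤ |a z - a' z| := by
    refine (le_abs_self _).trans ?_
    rw [abs_mul]
    exact (mul_le_of_le_one_left (abs_nonneg _) (hψ.le z)).trans h1
  simp only
  linarith

theorem dense_prod [StandardBorelSpace X] [StandardBorelSpace Y] {R : Aut m} (hR : IsMixing R)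
    (hsmall : ∀ δ : ℝ, 0 < δ → ∃ C, MeasurableSet C ∧ 0 < m.real C ∧ m.real C ≤ δ)
    {S : Aut η} (hS : IsMixing S) {Φ Φ' : X × Y → X × Y} (hG : Gauge m η Φ Φ')
    {ι : Type} [Fintype ι] {Q : ι → Set Y} (hQ : ∀ i, MeasurableSet (Q i)) {ε c : ℝ} (hε : 0 < ε)
    (hc : 0 < c) :
    ∃ T₁ : Aut (m.prod η), T₁ ∈ Extensions η R ∧
      (m.prod η).real {z | T₁.rep z ≠ Φ (pm R.rep (Φ' z))} ≤ c ∧
      ∃ N, ∀ᶠ T in 𝓝 T₁, T ∈ Extensions η R → ∀ n, N ≤ n → ∀ i i' (φ : X → ℝ), Bd φ →
        |∫ z, φ z.1 * (cen η (Q i) (Φ' (T.rep^[n] z)).2 * cen η (Q i') (Φ' z).2) ∂(m.prod η)| ≤ ε := by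
  set μ := m.prod η with hμ
  obtain ⟨K, hK⟩ := exists_nat_gt (10 / ε)
  have hK' : (0 : ℝ) < K := lt_trans (by positivity) hK
  have hK0 : 0 < K := by exact_mod_cast hK'
  obtain ⟨s, hs⟩ := exists_nat_gt (8 * K / ε)
  have hs' : (0 : ℝ) < s := lt_trans (by positivity) hs
  have hs0 : 0 < s := by exact_mod_cast hs'
  obtain ⟨δ, ⟨hδ1, hδ2⟩, hδ⟩ := (((ev_small 1 hc).and
    (ev_small (2 * K * (s * 4 + 4)) (show 0 < ε / 4 by positivity))).and self_mem_nhdsWithin).exists
  have hδ : 0 < δ := hδ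
  obtain ⟨τ, B, J, hτ, hB, hτK, hJ, hclose, htype, hO, hI⟩ := exists_types hR hsmall K (s ^ 2) hK0 hδ
  obtain ⟨L, hL⟩ := eventually_atTop.mp (eventually_all.mpr fun i => cen_corr hS (hQ i) hδ)
  have hA : Measurable fun x => L * B x := hB.const_mul L
  have hΨ := gauge_skew (m := m) S hA
  have hΘ := hG.comp hΨ
  obtain ⟨T₁, hT₁, hT₁e, hT₁j⟩ := exists_conj R hΘ
  have mR : ∀ j, Measurable R.rep^[j] := fun j => R.rep.measurable.iterate j
  set h : ι → X × Y → ℝ := fun i z => cen η (Q i) (Φ' z).2 with hh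
  have bh : ∀ i, Bd (h i) := fun i => (bd_cen (hQ i)).comp (measurable_snd.comp hG.mp'.measurable)
  have hmodel : ∀ i j, ∀ᵐ w ∂μ, h i (T₁.rep^[j] (Φ (w.1, S.rep^[L * B w.1] w.2))) =
      cen η (Q i) (S.rep^[L * B (R.rep^[j] w.1)] w.2) := by
    intro i j
    filter_upwards [hT₁j j, (hΨ.mp.comp ((pm_mp R.mp).iterate j)).quasiMeasurePreserving.ae hG.left]
      with w h1 h2
    simp only [Function.comp, pm_iter] at h2
    simp only [hh, h1, h2]
  have bhT : ∀ (T : Aut μ) i j, Bd fun z => h i (T.rep^[j] z) := fun T i j =>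
    (bh i).comp (T.rep.measurable.iterate j)
  have O1 : ∀ i, ∀ k < K, ∀ j ∈ J k, ∀ j' ∈ J k, j < j' → ∀ ψ : X → ℝ, Bd ψ →
      (∀ x, ψ x ≠ 0 → τ (R.rep^[j] x) = k ∧ τ (R.rep^[j'] x) = k) →
      |∫ z, ψ z.1 * (h i (T₁.rep^[j] z) * h i (T₁.rep^[j'] z)) ∂μ| ≤ δ + δ := by
    intro i k hk j hj j' hj' hjj ψ hψ hsupp
    have mD : MeasurableSet {x | τ (R.rep^[j] x) = k ∧ τ (R.rep^[j'] x) = k ∧
        ¬ B (R.rep^[j] x) < B (R.rep^[j'] x)} :=
      (meas_pred (hτ.comp (mR j)) (· = k)).inter ((meas_pred (hτ.comp (mR j')) (· = k)).inter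
        (measurableSet_lt (hB.comp (mR j)) (hB.comp (mR j'))).compl)
    have := model_O (m := m) S.mp (bd_cen (hQ i)) (fun n hn => hL n hn i) hδ.le
      (hA.comp (mR j)) (hA.comp (mR j')) hψ mD (fun x hx hD => by
        have h1 := hsupp x hx
        have h2 : B (R.rep^[j] x) < B (R.rep^[j'] x) := by
          by_contra hn
          exact hD ⟨h1.1, h1.2, hn⟩
        exact Nat.mul_le_mul_left L (Nat.succ_le_of_lt h2))
    refine le_trans (le_of_eq ?_) (this.trans (add_le_add le_rfl (hO k hk j hj j' hj' hjj)))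
    congr 1
    rw [← int_comp hΘ.mp ((hψ.comp measurable_fst).mul ((bhT T₁ i j).mul (bhT T₁ i j'))).meas]
    refine integral_congr_ae ?_
    filter_upwards [hΘ.fst, hmodel i j, hmodel i j'] with w h1 h2 h3
    rw [h1, h2, h3]
    rfl
  have mV : ∀ k j, Bd fun z : X × Y => {x | k < τ x}.indicator (1 : X → ℝ) (R.rep^[j] z.1) :=
    fun k j => (bd_indicator (meas_pred hτ (k < ·))).comp ((mR j).comp measurable_fst)
  have I1 : ∀ i, ∀ k < K, ∀ j ∈ J k,
      ∫ z, {x | k < τ x}.indicator 1 (R.rep^[j] z.1) * |h i (T₁.rep^[j] z) - h i z| ∂μ ≤ δ := by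
    intro i k hk j hj
    have mD : MeasurableSet {x | k < τ (R.rep^[j] x) ∧ B (R.rep^[j] x) ≠ B x} :=
      (meas_pred (hτ.comp (mR j)) (k < ·)).inter (measurableSet_eq_fun (hB.comp (mR j)) hB).compl
    refine le_trans ?_ (hI k hk j hj)
    have mm : Measurable fun z : X × Y => {x | k < τ x}.indicator (1 : X → ℝ) (R.rep^[j] z.1) *
        |h i (T₁.rep^[j] z) - h i z| := (mV k j).meas.mul ((bhT T₁ i j).meas.sub (bh i).meas).abs
    rw [← int_comp hΘ.mp mm, ← integral_indicator_one mD, ← int_comp (measurePreserving_fst (μ := m) (ν := η))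
        (bd_indicator mD).meas]
    refine (le_abs_self _).trans (abs_int_le (((bd_indicator mD).comp measurable_fst).integrable μ) ?_)
    filter_upwards [hΘ.fst, hmodel i j, hmodel i 0] with w h1 h2 h3
    simp only [Function.iterate_zero, id] at h3
    rw [h1, h2, h3, abs_mul, abs_abs]
    by_cases hk' : k < τ (R.rep^[j] w.1)
    · by_cases hb : B (R.rep^[j] w.1) = B w.1
      · rw [hb, sub_self, abs_zero, mul_zero]
        exact indicator_nonneg (fun _ _ => zero_le_one) _
      · rw [indicator_of_mem (s := {x | k < τ (R.rep^[j] x) ∧ B (R.rep^[j] x) ≠ B x}) ⟨hk', hb⟩]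
        exact mul_le_one₀ ((mV k j).le w) (abs_nonneg _) (cen_sub_le _ _ _)
    · rw [indicator_of_notMem (s := {x | k < τ x}) hk', abs_zero, zero_mul]
      exact indicator_nonneg (fun _ _ => zero_le_one) _
  refine ⟨T₁, hT₁, ?_, ?_⟩
  · have mD : MeasurableSet {x | B (R.rep x) ≠ B x} :=
      (measurableSet_eq_fun (hB.comp R.rep.measurable) hB).compl
    refine le_trans ?_ (hclose.trans (by linarith only [hδ1]))
    rw [← real_fst (η := η) mD]
    refine ENNReal.toReal_mono (measure_ne_top _ _) (measure_mono_ae ?_)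
    filter_upwards [hT₁e, hG.fst'] with z h1 h2 hne hb
    apply hne
    rw [h1]
    simp only [pm, h2, hb, iter_symm]
  obtain ⟨N, hN⟩ := eventually_atTop.mp (diag_small hR hτ hK0 hτK htype)
  refine ⟨N, ?_⟩
  have hst : ∀ᶠ T in 𝓝 T₁, ∀ i, ∀ k ∈ Finset.range K, ∀ j ∈ J k,
      ∫ z, |h i (T.rep^[j] z) - h i (T₁.rep^[j] z)| ∂μ ≤ δ :=
    eventually_all.mpr fun i => (Finset.eventually_all _).mpr fun k _ =>
      (Finset.eventually_all _).mpr fun j _ =>
        stable_fun T₁ (measurable_snd.comp hG.mp'.measurable) (hQ i) j hδ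
  filter_upwards [hst] with T hT hTe n hn i i' φ hφ
  have O2 : ∀ i, ∀ k < K, ∀ j ∈ J k, ∀ j' ∈ J k, j < j' → ∀ ψ : X → ℝ, Bd ψ →
      (∀ x, ψ x ≠ 0 → τ (R.rep^[j] x) = k ∧ τ (R.rep^[j'] x) = k) →
      |∫ z, ψ z.1 * (h i (T.rep^[j] z) * h i (T.rep^[j'] z)) ∂μ| ≤ 4 * δ := by
    intro i k hk j hj j' hj' hjj ψ hψ hsupp
    have a1 := perturb_O (μ := μ) (hψ.comp measurable_fst) (bhT T i j) (bhT T i j') (bhT T₁ i j)
      (bhT T₁ i j')
    have a2 := O1 i k hk j hj j' hj' hjj ψ hψ hsupp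
    have a3 := hT i k (Finset.mem_range.mpr hk) j hj
    have a4 := hT i k (Finset.mem_range.mpr hk) j' hj'
    clear * - X Y μ ψ h i m η T j j' δ T₁ a1 a2 a3 a4
    linarith
  have O3 : ∀ i, ∀ k < K, ∀ j ∈ J k, ∀ j' ∈ J k, j ≠ j' → ∀ ψ : X → ℝ, Bd ψ →
      (∀ x, ψ x ≠ 0 → τ (R.rep^[j] x) = k ∧ τ (R.rep^[j'] x) = k) →
      |∫ z, ψ z.1 * (h i (T.rep^[j] z) * h i (T.rep^[j'] z)) ∂μ| ≤ 4 * δ := by
    intro i k hk j hj j' hj' hjj ψ hψ hsupp
    rcases lt_or_gt_of_ne hjj with hlt | hlt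
    · exact O2 i k hk j hj j' hj' hlt ψ hψ hsupp
    · simpa only [mul_comm (h i (T.rep^[j'] _))] using
        O2 i k hk j' hj' j hj hlt ψ hψ fun x hx => (hsupp x hx).symm
  have I2 : ∀ i, ∀ k < K, ∀ j ∈ J k,
      ∫ z, {x | k < τ x}.indicator 1 (R.rep^[j] z.1) * |h i (T.rep^[j] z) - h i z| ∂μ ≤ 4 * δ := by
    intro i k hk j hj
    have a1 := perturb_I (μ := μ) (mV k j) (bhT T i j) (bhT T₁ i j) (bh i)
    have a2 := I1 i k hk j hj
    have a3 := hT i k (Finset.mem_range.mpr hk) j hj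
    linarith
  have := assemble T.mp hTe (bh i) (bh i') hτ hτK hs0 hJ (δ := 4 * δ) (by positivity)
    (by rintro _ (rfl | rfl) <;> exact O3 _) (by rintro _ (rfl | rfl) <;> exact I2 _) n hφ
  refine this.trans ?_
  have a1 := hN n hn
  have a2 : (5 : ℝ) / K ≤ ε / 2 := by
    clear * - K ε hK' hε hK
    rw [div_lt_iff₀ hε] at hK
    rw [div_le_iff₀ hK']; linarith only [hK]
  have a3 : 2 * K * (1 / (s : ℝ)) ≤ ε / 4 := by
    clear * - K s ε hs' hε hs
    rw [div_lt_iff₀ hε] at hs
    rw [mul_one_div, div_le_iff₀ hs']; linarith only [hs]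
  clear * - X m τ R n K s δ ε hδ2 a1 a2 a3
  linarith only [hδ2, a1, a2, a3]

end Pool.Agent.Work.MP_2967d5_an
end

-- merged part: Pool.Agent.Work.MP_2967d5_an.Approx
section
open MeasureTheory Set Filter Topology
open scoped symmDiff ENNReal

namespace Pool.Agent.Work.MP_2967d5_an

variable {X Y : Type*} [MeasurableSpace X] [MeasurableSpace Y] {m : Measure X} {η : Measure Y}
  [IsProbabilityMeasure m] [IsProbabilityMeasure η]

theorem fiber_lintegral {R R' : X → X} (hR : MeasurePreserving R m m) (hR' : Measurable R')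
    (hinv : ∀ x, R' (R x) = x) {T : X × Y → X × Y}
    (hT : MeasurePreserving T (m.prod η) (m.prod η)) (hTR : ∀ᵐ z ∂(m.prod η), (T z).1 = R z.1)
    {G : X × Y → ℝ≥0∞} (hG : Measurable G) :
    ∀ᵐ x ∂m, ∫⁻ y, G (T (x, y)) ∂η = ∫⁻ y, G (R x, y) ∂η := by
  have m1 : Measurable fun x => ∫⁻ y, G (T (x, y)) ∂η := (hG.comp hT.measurable).lintegral_prod_right'
  have m2 : Measurable fun x => ∫⁻ y, G (x, y) ∂η := hG.lintegral_prod_right'
  refine ae_eq_of_forall_setLIntegral_eq_of_sigmaFinite m1 (m2.comp hR.measurable) fun P hP _ => ?_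
  have hP' : MeasurableSet (R' ⁻¹' P) := hR' hP
  have mG : Measurable fun z : X × Y => (R' ⁻¹' P).indicator (1 : X → ℝ≥0∞) z.1 * G z :=
    ((measurable_one.indicator hP').comp measurable_fst).mul hG
  have e : ∀ x, (R' ⁻¹' P).indicator (1 : X → ℝ≥0∞) (R x) = P.indicator 1 x := fun x => by
    by_cases h : x ∈ P <;> simp [indicator, hinv, h]
  have key : ∀ g : X → ℝ≥0∞, ∫⁻ x in P, g x ∂m = ∫⁻ x, P.indicator 1 x * g x ∂m := fun g => by
    rw [← lintegral_indicator hP]
    congr 1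
    funext x
    by_cases h : x ∈ P <;> simp [h]
  calc ∫⁻ x in P, ∫⁻ y, G (T (x, y)) ∂η ∂m
      = ∫⁻ z, P.indicator 1 z.1 * G (T z) ∂(m.prod η) := by
        have mm : Measurable fun z : X × Y => P.indicator (1 : X → ℝ≥0∞) z.1 * G (T z) :=
          ((measurable_one.indicator hP).comp measurable_fst).mul (hG.comp hT.measurable)
        rw [key, lintegral_prod _ mm.aemeasurable]
        congr 1
        funext x
        exact (lintegral_const_mul (f := fun y => G (T (x, y))) _
          ((hG.comp hT.measurable).comp measurable_prodMk_left)).symm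
    _ = ∫⁻ z, (R' ⁻¹' P).indicator 1 (T z).1 * G (T z) ∂(m.prod η) := by
        refine lintegral_congr_ae ?_
        filter_upwards [hTR] with z hz
        rw [hz, e]
    _ = ∫⁻ z, (R' ⁻¹' P).indicator 1 z.1 * G z ∂(m.prod η) := hT.lintegral_comp mG
    _ = ∫⁻ x, (R' ⁻¹' P).indicator 1 x * ∫⁻ y, G (x, y) ∂η ∂m := by
        rw [lintegral_prod _ mG.aemeasurable]
        congr 1
        funext x
        exact lintegral_const_mul (μ := η) (f := fun y => G (x, y))
          ((R' ⁻¹' P).indicator (1 : X → ℝ≥0∞) x) (hG.comp measurable_prodMk_left)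
    _ = ∫⁻ x, (R' ⁻¹' P).indicator 1 (R x) * ∫⁻ y, G (R x, y) ∂η ∂m :=
        (hR.lintegral_comp ((measurable_one.indicator hP').mul m2)).symm
    _ = ∫⁻ x in P, ∫⁻ y, G (R x, y) ∂η ∂m := by
        rw [key]
        simp only [e]

/-- measure of the fibres -/
noncomputable def fib (η : Measure Y) (A : Set (X × Y)) (x : X) : ℝ := η.real (Prod.mk x ⁻¹' A)

/-- fibrewise centred indicator -/
noncomputable def cenZ (η : Measure Y) (A : Set (X × Y)) (z : X × Y) : ℝ :=
  A.indicator 1 z - fib η A z.1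

theorem bd_fib {A : Set (X × Y)} (hA : MeasurableSet A) : Bd (fib η A) :=
  ⟨(measurable_measure_prodMk_left hA).ennreal_toReal, fun x => by
    rw [fib, abs_of_nonneg measureReal_nonneg]; exact measureReal_le_one⟩

theorem bd_cenZ {A : Set (X × Y)} (hA : MeasurableSet A) : Bd (cenZ η A) := by
  refine ⟨(bd_indicator hA).meas.sub ((bd_fib hA).meas.comp measurable_fst), fun z => ?_⟩
  have h1 : fib η A z.1 ≤ 1 := measureReal_le_one
  have h2 : 0 ≤ fib η A z.1 := measureReal_nonneg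
  rw [cenZ, abs_le]
  by_cases h : z ∈ A
  · rw [indicator_of_mem h, Pi.one_apply]
    constructor <;> linarith only [h1, h2]
  · rw [indicator_of_notMem h]
    constructor <;> linarith

theorem fib_eq {A : Set (X × Y)} (hA : MeasurableSet A) (x : X) :
    ∫ y, A.indicator (1 : X × Y → ℝ) (x, y) ∂η = fib η A x :=
  integral_indicator_one (measurable_prodMk_left hA)

theorem integral_fib {A : Set (X × Y)} (hA : MeasurableSet A) :
    ∫ x, fib η A x ∂m = (m.prod η).real A := by
  rw [← integral_indicator_one hA, integral_prod _ ((bd_indicator hA).integrable _)]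
  simp only [fib_eq hA]

theorem fib_preimage {R R' : X → X} (hR : MeasurePreserving R m m) (hR' : Measurable R')
    (hinv : ∀ x, R' (R x) = x) {T : X × Y → X × Y}
    (hT : MeasurePreserving T (m.prod η) (m.prod η)) (hTR : ∀ᵐ z ∂(m.prod η), (T z).1 = R z.1)
    {A : Set (X × Y)} (hA : MeasurableSet A) : ∀ᵐ x ∂m, fib η (T ⁻¹' A) x = fib η A (R x) := by
  filter_upwards [fiber_lintegral hR hR' hinv hT hTR (G := A.indicator 1)
    (measurable_one.indicator hA)] with x hx
  have h1 := lintegral_indicator_one (μ := η) (measurable_prodMk_left (x := x) (hT.measurable hA))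
  have h2 := lintegral_indicator_one (μ := η) (measurable_prodMk_left (x := R x) hA)
  rw [fib, fib, Measure.real, Measure.real, ← h1, ← h2]
  exact congrArg ENNReal.toReal hx

theorem cenZ_dist {A B : Set (X × Y)} (hA : MeasurableSet A) (hB : MeasurableSet B) :
    ∫ z, |cenZ η A z - cenZ η B z| ∂(m.prod η) ≤ 2 * (m.prod η).real (A ∆ B) := by
  have hD := hA.symmDiff hB
  have i1 := (bd_indicator hD).integrable (m.prod η)
  have i2 := ((bd_fib (η := η) hD).comp measurable_fst).integrable (m.prod η)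
  refine (integral_mono (((bd_cenZ hA).integrable _).sub' ((bd_cenZ hB).integrable _)).abs
    (i1.fun_add i2) fun z => ?_).trans (le_of_eq ?_)
  · have h1 : |A.indicator (1 : X × Y → ℝ) z - B.indicator 1 z| = (A ∆ B).indicator 1 z := by
      by_cases h : z ∈ A <;> by_cases h' : z ∈ B <;> simp [h, h', indicator, mem_symmDiff]
    have h2 : |fib η A z.1 - fib η B z.1| ≤ fib η (A ∆ B) z.1 := by
      rw [fib, fib, fib, preimage_symmDiff]
      exact abs_measureReal_sub_le_measureReal_symmDiff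
        (measurable_prodMk_left hA).nullMeasurableSet (measurable_prodMk_left hB).nullMeasurableSet
    have e : cenZ η A z - cenZ η B z = (A.indicator 1 z - B.indicator 1 z) -
        (fib η A z.1 - fib η B z.1) := by simp only [cenZ]; ring
    simp only
    rw [e]
    exact (abs_sub _ _).trans (add_le_add h1.le h2)
  · rw [integral_add i1 i2, integral_indicator_one hD,
      int_comp measurePreserving_fst (bd_fib hD).meas, integral_fib hD, two_mul]

/-- finite sums of product functions -/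
def Rep (η : Measure Y) (F : X × Y → ℝ) : Prop :=
  ∃ (ι : Type) (_ : Fintype ι) (a : ι → X → ℝ) (Q : ι → Set Y), (∀ i, Bd (a i)) ∧
    (∀ i, MeasurableSet (Q i)) ∧ ∀ z, F z = ∑ i, a i z.1 * cen η (Q i) z.2

theorem Rep.integrable {F : X × Y → ℝ} (h : Rep η F) : Integrable F (m.prod η) := by
  obtain ⟨ι, _, a, Q, ha, hQ, hF⟩ := h
  rw [show F = _ from funext hF]
  exact integrable_finsetSum _ fun i _ =>
    (((ha i).comp measurable_fst).mul ((bd_cen (hQ i)).comp measurable_snd)).integrable _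

theorem approx {A : Set (X × Y)} (hA : MeasurableSet A) :
    ∀ ε : ℝ, 0 < ε → ∃ F, Rep η F ∧ ∫ z, |cenZ η A z - F z| ∂(m.prod η) ≤ ε := by
  set Apx : Set (X × Y) → Prop := fun A =>
    ∀ ε : ℝ, 0 < ε → ∃ F, Rep η F ∧ ∫ z, |cenZ η A z - F z| ∂(m.prod η) ≤ ε with hApx
  have tri : ∀ {a b : X × Y → ℝ}, Integrable a (m.prod η) → Integrable b (m.prod η) →
      ∫ z, |a z + b z| ∂(m.prod η) ≤ ∫ z, |a z| ∂(m.prod η) + ∫ z, |b z| ∂(m.prod η) := by
    intro a b ha hb
    rw [← integral_add ha.abs hb.abs]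
    exact integral_mono (ha.fun_add hb).abs (ha.abs.fun_add hb.abs) fun z => abs_add_le _ _
  have hempty : Apx ∅ := fun ε hε => ⟨fun _ => 0, ⟨Empty, inferInstance, fun i => i.elim,
    fun i => i.elim, fun i => i.elim, fun i => i.elim, fun z => by simp⟩, by
      simp [cenZ, fib, hε.le]⟩
  have hunion : ∀ A B, MeasurableSet A → MeasurableSet B → Disjoint A B → Apx A → Apx B →
      Apx (A ∪ B) := by
    intro A B hA hB hd h1 h2 ε hε
    obtain ⟨F, hF, hF'⟩ := h1 (ε / 2) (half_pos hε)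
    obtain ⟨G, hG, hG'⟩ := h2 (ε / 2) (half_pos hε)
    refine ⟨fun z => F z + G z, ?_, ?_⟩
    · obtain ⟨ι, _, a, Q, ha, hQ, hF⟩ := hF
      obtain ⟨ι', _, a', Q', ha', hQ', hG⟩ := hG
      refine ⟨ι ⊕ ι', inferInstance, Sum.elim a a', Sum.elim Q Q', ?_, ?_, fun z => ?_⟩
      · rintro (i | i); exacts [ha i, ha' i]
      · rintro (i | i); exacts [hQ i, hQ' i]
      · simp [Fintype.sum_sum_type, hF, hG]
    · have e : ∀ z, cenZ η (A ∪ B) z - (F z + G z) = (cenZ η A z - F z) + (cenZ η B z - G z) := by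
        intro z
        simp only [cenZ, fib, indicator_union_of_disjoint hd, preimage_union]
        rw [measureReal_union (hd.preimage _) (measurable_prodMk_left hB)]
        ring
      simp only [e]
      have := tri (((bd_cenZ (η := η) hA).integrable (m.prod η)).sub' hF.integrable)
        (((bd_cenZ (η := η) hB).integrable (m.prod η)).sub' hG.integrable)
      linarith only [hF', hG', this]
  refine MeasurableSpace.induction_on_inter (C := fun A _ => Apx A) generateFrom_prod.symm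
    isPiSystem_prod hempty ?_ ?_ ?_ A hA
  · rintro _ ⟨P, hP, Q, hQ, rfl⟩ ε hε
    refine ⟨cenZ η (P ×ˢ Q), ⟨Unit, inferInstance, fun _ => P.indicator 1, fun _ => Q,
      fun _ => bd_indicator hP, fun _ => hQ, fun z => ?_⟩, by simp [hε.le]⟩
    by_cases h : z.1 ∈ P <;> by_cases h' : z.2 ∈ Q <;>
      simp [cenZ, cen, fib, indicator, h, h', mk_preimage_prod_right, mk_preimage_prod_right_eq_empty]
  · intro A hA h ε hε
    obtain ⟨F, hF, hF'⟩ := h ε hε
    refine ⟨fun z => -F z, ?_, le_trans (le_of_eq ?_) hF'⟩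
    · obtain ⟨ι, _, a, Q, ha, hQ, hF⟩ := hF
      exact ⟨ι, inferInstance, fun i x => -a i x, Q, fun i => (ha i).neg, hQ, fun z => by simp [hF]⟩
    · congr 1
      funext z
      rw [← abs_neg]
      congr 1
      simp only [cenZ, fib, preimage_compl]
      rw [measureReal_compl (measurable_prodMk_left hA)]
      by_cases h : z ∈ A <;> simp [h] <;> ring
  · intro f hd hm h ε hε
    have hacc : ∀ N, Apx (⋃ i ∈ Finset.range N, f i) := by
      intro N
      induction N with
      | zero => simpa using hempty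
      | succ N ih =>
        rw [Finset.range_add_one, Finset.set_biUnion_insert]
        refine hunion _ _ (hm N) (Finset.measurableSet_biUnion _ fun i _ => hm i) ?_ (h N) ih
        rw [disjoint_iUnion₂_right]
        exact fun i hi => hd (Finset.mem_range.mp hi).ne'
    have h1 := (ENNReal.tendsto_toReal ENNReal.zero_ne_top).comp
      (tendsto_measure_biUnion_Ici_zero_of_pairwise_disjoint (μ := m.prod η)
        (fun i => (hm i).nullMeasurableSet) hd)
    obtain ⟨N, hN⟩ := (h1.eventually (ge_mem_nhds (show (0 : ℝ≥0∞).toReal < ε / 4 by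
      simpa using by positivity))).exists
    obtain ⟨F, hF, hF'⟩ := hacc N (ε / 2) (half_pos hε)
    have mN : MeasurableSet (⋃ i ∈ Finset.range N, f i) :=
      Finset.measurableSet_biUnion _ fun i _ => hm i
    have mU := MeasurableSet.iUnion hm
    refine ⟨F, hF, ?_⟩
    have h2 := cenZ_dist (m := m) (η := η) mU mN
    have h3 : (m.prod η).real ((⋃ i, f i) ∆ (⋃ i ∈ Finset.range N, f i)) ≤ ε / 4 := by
      refine le_trans (measureReal_mono (fun x hx => ?_) (measure_ne_top _ _)) hN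
      simp only [Finset.mem_range, mem_symmDiff, mem_iUnion, exists_prop, not_exists, not_and,
        mem_Ici] at hx ⊢
      grind
    have h4 := tri (((bd_cenZ (η := η) mU).integrable _).sub' ((bd_cenZ (η := η) mN).integrable _))
      (((bd_cenZ (η := η) mN).integrable (m.prod η)).sub' hF.integrable)
    simp only [sub_add_sub_cancel] at h4
    clear * - X Y m η f F ε N hF' h2 h3 h4
    linarith only [hF', h2, h3, h4]

theorem approx_gauge {Φ Φ' : X × Y → X × Y} (hG : Gauge m η Φ Φ') {A : Set (X × Y)}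
    (hA : MeasurableSet A) {ε : ℝ} (hε : 0 < ε) :
    ∃ (ι : Type) (_ : Fintype ι) (a : ι → X → ℝ) (Q : ι → Set Y), (∀ i, Bd (a i)) ∧
      (∀ i, MeasurableSet (Q i)) ∧
      ∫ z, |cenZ η A z - ∑ i, a i z.1 * cen η (Q i) (Φ' z).2| ∂(m.prod η) ≤ ε := by
  obtain ⟨F, ⟨ι, _, a, Q, ha, hQ, hF⟩, hF'⟩ := approx (m := m) (η := η) (hG.mp.measurable hA) ε hε
  refine ⟨ι, inferInstance, a, Q, ha, hQ, le_trans (le_of_eq ?_) hF'⟩
  have mm : Measurable fun z => |cenZ η A z - ∑ i, a i z.1 * cen η (Q i) (Φ' z).2| :=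
    ((bd_cenZ hA).meas.sub (Finset.measurable_sum _ fun i _ => (((ha i).comp measurable_fst).mul
      ((bd_cen (hQ i)).comp (measurable_snd.comp hG.mp'.measurable))).meas)).abs
  rw [← int_comp hG.mp mm]
  refine integral_congr_ae ?_
  filter_upwards [hG.fst, hG.left, measurePreserving_fst.quasiMeasurePreserving.ae
    (fib_preimage (MeasurePreserving.id m) measurable_id (fun _ => rfl) hG.mp hG.fst hA)]
    with w h1 h2 h3
  simp only [cenZ, h1, h2, h3, hF, id]
  rfl

theorem dense_sets [StandardBorelSpace X] [StandardBorelSpace Y] {R : Aut m} (hR : IsMixing R)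
    (hsmall : ∀ δ : ℝ, 0 < δ → ∃ C, MeasurableSet C ∧ 0 < m.real C ∧ m.real C ≤ δ)
    {S : Aut η} (hS : IsMixing S) {A B : Set (X × Y)} (hA : MeasurableSet A) (hB : MeasurableSet B)
    {ε c : ℝ} (hε : 0 < ε) (hc : 0 < c) {T₀ : Aut (m.prod η)} (hT₀ : T₀ ∈ Extensions η R) :
    ∃ T₁ : Aut (m.prod η), T₁ ∈ Extensions η R ∧ (m.prod η).real {z | T₁.rep z ≠ T₀.rep z} ≤ c ∧
      ∃ N, ∀ᶠ T in 𝓝 T₁, T ∈ Extensions η R → ∀ n, N ≤ n → ∀ φ : X → ℝ, Bd φ →
        |∫ z, φ z.1 * (cenZ η A (T.rep^[n] z) * cenZ η B z) ∂(m.prod η)| ≤ ε := by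
  obtain ⟨Φ, Φ', hG, hΦ⟩ := exists_cob hR hsmall hT₀ (half_pos hc)
  obtain ⟨ι, _, a, Q, ha, hQ, hF⟩ := approx_gauge hG hA (show 0 < ε / 3 by positivity)
  set p : ℝ := (Fintype.card ι : ℝ) with hp
  have hp0 : 0 ≤ p := Nat.cast_nonneg _
  obtain ⟨ι', _, a', Q', ha', hQ', hF'⟩ := approx_gauge hG hB
    (show 0 < ε / 3 / (p + 1) by positivity)
  set p' : ℝ := (Fintype.card ι' : ℝ) with hp'
  have hp0' : 0 ≤ p' := Nat.cast_nonneg _
  obtain ⟨T₁, hT₁, hclose, N, hN⟩ := dense_prod hR hsmall hS hG (Q := Sum.elim Q Q')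
    (by rintro (i | i); exacts [hQ i, hQ' i]) (show 0 < ε / 3 / (p * p' + 1) by clear * - ε p p' hε ι ι' hQ hQ'; positivity)
    (half_pos hc)
  refine ⟨T₁, hT₁, ?_, N, ?_⟩
  · refine le_trans (measureReal_mono (s₂ := {z | T₁.rep z ≠ Φ (pm R.rep (Φ' z))} ∪
      {z | Φ (pm R.rep (Φ' z)) ≠ T₀.rep z}) (fun z hz => ?_) (measure_ne_top _ _))
      ((measureReal_union_le _ _).trans (by linarith only [hΦ, hclose]))
    by_contra hn
    simp only [mem_union, mem_setOf_eq, not_or, not_not] at hn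
    exact hz (hn.1.trans hn.2)
  filter_upwards [hN] with T hT hTe n hn φ hφ
  have mT : Measurable T.rep^[n] := T.rep.measurable.iterate n
  have mΦ : Measurable fun z => (Φ' z).2 := measurable_snd.comp hG.mp'.measurable
  have bu : ∀ i, Bd fun z : X × Y => a i z.1 * cen η (Q i) (Φ' z).2 := fun i =>
    ((ha i).comp measurable_fst).mul ((bd_cen (hQ i)).comp mΦ)
  have bu' : ∀ i, Bd fun z : X × Y => a' i z.1 * cen η (Q' i) (Φ' z).2 := fun i =>
    ((ha' i).comp measurable_fst).mul ((bd_cen (hQ' i)).comp mΦ)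
  set F : X × Y → ℝ := fun z => ∑ i, a i z.1 * cen η (Q i) (Φ' z).2 with hFd
  set G : X × Y → ℝ := fun z => ∑ i, a' i z.1 * cen η (Q' i) (Φ' z).2 with hGd
  have mF : Measurable F := Finset.measurable_sum _ fun i _ => (bu i).meas
  have iF : Integrable F (m.prod η) := integrable_finsetSum _ fun i _ => (bu i).integrable (m.prod η)
  have iG : Integrable G (m.prod η) := integrable_finsetSum _ fun i _ => (bu' i).integrable (m.prod η)
  have bF : ∀ z, |F z| ≤ p := fun z => (Finset.abs_sum_le_sum_abs _ _).trans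
    ((Finset.sum_le_sum fun i _ => (bu i).le z).trans (by simp [hp]))
  have bφ := hφ.comp (measurable_fst (α := X) (β := Y))
  have bt : ∀ i i', Bd fun z : X × Y => φ z.1 * ((a i (T.rep^[n] z).1 *
      cen η (Q i) (Φ' (T.rep^[n] z)).2) * (a' i' z.1 * cen η (Q' i') (Φ' z).2)) := fun i i' =>
    bφ.mul (((bu i).comp mT).mul (bu' i'))
  have e3 : ∀ z, φ z.1 * (F (T.rep^[n] z) * G z) = ∑ i, ∑ i', φ z.1 * ((a i (T.rep^[n] z).1 *
      cen η (Q i) (Φ' (T.rep^[n] z)).2) * (a' i' z.1 * cen η (Q' i') (Φ' z).2)) := fun z => by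
    simp only [hFd, hGd]
    rw [Finset.sum_mul_sum, Finset.mul_sum]
    simp only [Finset.mul_sum]
  have i3 : Integrable (fun z => φ z.1 * (F (T.rep^[n] z) * G z)) (m.prod η) := by
    simp only [e3]
    exact integrable_finsetSum _ fun i _ => integrable_finsetSum _ fun i' _ => (bt i i').integrable (m.prod η)
  have t3 : |∫ z, φ z.1 * (F (T.rep^[n] z) * G z) ∂(m.prod η)| ≤ ε / 3 := by
    simp only [e3]
    rw [integral_finsetSum _ fun i _ => integrable_finsetSum _ fun i' _ => (bt i i').integrable (m.prod η)]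
    refine (Finset.abs_sum_le_sum_abs _ _).trans ((Finset.sum_le_sum
      (g := fun _ => p' * (ε / 3 / (p * p' + 1))) fun i _ => ?_).trans ?_)
    · rw [integral_finsetSum _ fun i' _ => (bt i i').integrable (m.prod η)]
      refine (Finset.abs_sum_le_sum_abs _ _).trans ((Finset.sum_le_sum
        (g := fun _ => ε / 3 / (p * p' + 1)) fun i' _ => ?_).trans (by clear * - ι' ε p p' hp'; simp [hp']))
      refine le_trans (le_of_eq ?_) (hT hTe n hn (Sum.inl i) (Sum.inr i') _
        ((hφ.mul ((ha i).comp (R.rep.measurable.iterate n))).mul (ha' i')))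
      congr 1
      refine integral_congr_ae ?_
      filter_upwards [ext_iter T.mp hTe n] with z hz
      simp only [hz, Sum.elim_inl, Sum.elim_inr]
      ring
    · rw [Finset.sum_const, Finset.card_univ, nsmul_eq_mul, ← hp, ← mul_assoc, ← mul_div_assoc,
        div_le_iff₀ (by clear * - p p' ι ι'; positivity)]
      clear * - p p' ε hε
      linarith only [hε]
  have i0 := (bφ.mul (((bd_cenZ (η := η) hA).comp mT).mul (bd_cenZ (η := η) hB))).integrable (m.prod η)
  have j1 : Integrable (fun z => |cenZ η A (T.rep^[n] z) - F (T.rep^[n] z)|) (m.prod η) :=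
    (T.mp.iterate n).integrable_comp_of_integrable (((bd_cenZ hA).integrable (m.prod η)).sub' iF).abs
  have j2 : Integrable (fun z => p * |cenZ η B z - G z|) (m.prod η) :=
    (((bd_cenZ hB).integrable (m.prod η)).sub' iG).abs.const_mul p
  have t12 : |∫ z, φ z.1 * (cenZ η A (T.rep^[n] z) * cenZ η B z) ∂(m.prod η) -
      ∫ z, φ z.1 * (F (T.rep^[n] z) * G z) ∂(m.prod η)| ≤ ε / 3 + ε / 3 := by
    rw [← integral_sub i0 i3]
    refine (abs_int_le (j1.fun_add j2) (Eventually.of_forall fun z => ?_)).trans ?_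
    · have e : φ z.1 * (cenZ η A (T.rep^[n] z) * cenZ η B z) - φ z.1 * (F (T.rep^[n] z) * G z) =
          φ z.1 * cenZ η B z * (cenZ η A (T.rep^[n] z) - F (T.rep^[n] z)) +
          φ z.1 * (F (T.rep^[n] z) * (cenZ η B z - G z)) := by ring
      rw [e]
      refine (abs_add_le _ _).trans (add_le_add ?_ ?_)
      · rw [abs_mul]
        exact mul_le_of_le_one_left (abs_nonneg _) ((bφ.mul (bd_cenZ hB)).le z)
      · rw [abs_mul, abs_mul]
        refine (mul_le_of_le_one_left (by clear * - F X Y m η T n z B G hφ; positivity) (hφ.le _)).trans ?_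
        gcongr
        exact bF _
    · have mm : Measurable fun z => |cenZ η A z - F z| := ((bd_cenZ hA).meas.sub mF).abs
      rw [integral_add j1 j2, int_comp (T.mp.iterate n) mm, integral_const_mul]
      refine add_le_add hF ((mul_le_mul_of_nonneg_left hF' hp0).trans ?_)
      rw [← mul_div_assoc, div_le_iff₀ (by clear * - p ι; positivity)]
      clear * - p ε hε
      linarith only [hε]
  linarith only [t3, t12, abs_sub_abs_le_abs_sub (∫ z, φ z.1 * (cenZ η A (T.rep^[n] z) * cenZ η B z) ∂(m.prod η))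
    (∫ z, φ z.1 * (F (T.rep^[n] z) * G z) ∂(m.prod η))]

end Pool.Agent.Work.MP_2967d5_an
end

-- merged part: Pool.Agent.Work.MP_2967d5_an.Residual
section
open MeasureTheory Set Filter Topology
open scoped symmDiff ENNReal

namespace Pool.Agent.Work.MP_2967d5_an

variable {X Y : Type*} [MeasurableSpace X] [MeasurableSpace Y] {m : Measure X} {η : Measure Y}
  [IsProbabilityMeasure m] [IsProbabilityMeasure η]

/-- eventually small correlations of two sets -/
def Small (m : Measure X) (η : Measure Y) (T : X × Y → X × Y) (A B : Set (X × Y)) (ε : ℝ) : Prop :=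
  ∃ N, ∀ n, N ≤ n → ∀ φ : X → ℝ, Bd φ →
    |∫ z, φ z.1 * (cenZ η A (T^[n] z) * cenZ η B z) ∂(m.prod η)| ≤ ε

theorem Small.approx {T : X × Y → X × Y} (hT : MeasurePreserving T (m.prod η) (m.prod η))
    {A B A' B' : Set (X × Y)} (hA : MeasurableSet A) (hB : MeasurableSet B)
    (hA' : MeasurableSet A') (hB' : MeasurableSet B') {ε : ℝ} (h : Small m η T A' B' ε) :
    Small m η T A B (ε + 2 * (m.prod η).real (A ∆ A') + 2 * (m.prod η).real (B ∆ B')) := by
  obtain ⟨N, hN⟩ := h
  refine ⟨N, fun n hn φ hφ => ?_⟩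
  have mT : Measurable T^[n] := hT.measurable.iterate n
  have bφ := hφ.comp (measurable_fst (α := X) (β := Y))
  have i0 := (bφ.mul (((bd_cenZ (η := η) hA).comp mT).mul (bd_cenZ (η := η) hB))).integrable
    (m.prod η)
  have i1 := (bφ.mul (((bd_cenZ (η := η) hA').comp mT).mul (bd_cenZ (η := η) hB'))).integrable
    (m.prod η)
  have j0 := (((bd_cenZ (η := η) hA).integrable (m.prod η)).sub'
    ((bd_cenZ (η := η) hA').integrable (m.prod η))).abs
  have j1 : Integrable (fun z => |cenZ η A (T^[n] z) - cenZ η A' (T^[n] z)|) (m.prod η) :=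
    (hT.iterate n).integrable_comp_of_integrable j0
  have j2 := (((bd_cenZ (η := η) hB).integrable (m.prod η)).sub'
    ((bd_cenZ (η := η) hB').integrable (m.prod η))).abs
  have t : |∫ z, φ z.1 * (cenZ η A (T^[n] z) * cenZ η B z) ∂(m.prod η) -
      ∫ z, φ z.1 * (cenZ η A' (T^[n] z) * cenZ η B' z) ∂(m.prod η)| ≤
      2 * (m.prod η).real (A ∆ A') + 2 * (m.prod η).real (B ∆ B') := by
    rw [← integral_sub i0 i1]
    refine (abs_int_le (j1.fun_add j2) (Eventually.of_forall fun z => ?_)).trans ?_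
    · have e : φ z.1 * (cenZ η A (T^[n] z) * cenZ η B z) -
          φ z.1 * (cenZ η A' (T^[n] z) * cenZ η B' z) =
          φ z.1 * cenZ η B z * (cenZ η A (T^[n] z) - cenZ η A' (T^[n] z)) +
          φ z.1 * cenZ η A' (T^[n] z) * (cenZ η B z - cenZ η B' z) := by ring
      rw [e]
      refine (abs_add_le _ _).trans (add_le_add ?_ ?_)
      · rw [abs_mul]
        exact mul_le_of_le_one_left (abs_nonneg _) ((bφ.mul (bd_cenZ hB)).le z)
      · rw [abs_mul]
        exact mul_le_of_le_one_left (abs_nonneg _) ((bφ.mul ((bd_cenZ hA').comp mT)).le z)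
    · have mm : Measurable fun z => |cenZ η A z - cenZ η A' z| :=
        ((bd_cenZ hA).meas.sub (bd_cenZ hA').meas).abs
      rw [integral_add j1 j2, int_comp (hT.iterate n) mm]
      exact add_le_add (cenZ_dist hA hA') (cenZ_dist hB hB')
  linarith only [t, hN, hn, hφ, hN n hn φ hφ, abs_sub_abs_le_abs_sub
    (∫ z, φ z.1 * (cenZ η A (T^[n] z) * cenZ η B z) ∂(m.prod η))
    (∫ z, φ z.1 * (cenZ η A' (T^[n] z) * cenZ η B' z) ∂(m.prod η))]

theorem Small.mono {T : X × Y → X × Y} {A B : Set (X × Y)} {ε ε' : ℝ} (h : Small m η T A B ε)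
    (hε : ε ≤ ε') : Small m η T A B ε' := by
  obtain ⟨N, hN⟩ := h
  exact ⟨N, fun n hn φ hφ => (hN n hn φ hφ).trans hε⟩

theorem small_residual [StandardBorelSpace X] [StandardBorelSpace Y] {R : Aut m} (hR : IsMixing R)
    (hsmall : ∀ δ : ℝ, 0 < δ → ∃ C, MeasurableSet C ∧ 0 < m.real C ∧ m.real C ≤ δ)
    {S : Aut η} (hS : IsMixing S) {A B : Set (X × Y)} (hA : MeasurableSet A) (hB : MeasurableSet B)
    {ε : ℝ} (hε : 0 < ε) : ∀ᶠ T in residual (Extensions η R), Small m η T.1.rep A B ε := by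
  refine mem_of_superset (residual_of_dense_open isOpen_interior ?_)
    (interior_subset (s := {T : Extensions η R | Small m η T.1.rep A B ε}))
  intro T₀
  rw [mem_closure_iff_nhds]
  intro O hO
  obtain ⟨O', hO', hsub⟩ := (mem_nhds_subtype _ _ _).mp hO
  obtain ⟨δ, hδ, hδ'⟩ := exists_delta hO'
  have hc : 0 < (min δ 1).toReal := ENNReal.toReal_pos (lt_min hδ one_pos).ne' (by simp)
  obtain ⟨T₁, hT₁, hclose, N, hN⟩ := dense_sets hR hsmall hS hA hB hε hc T₀.2
  refine ⟨⟨T₁, hT₁⟩, hsub (hδ' T₁ ?_), mem_interior_iff_mem_nhds.mpr ?_⟩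
  · exact ((ENNReal.toReal_le_toReal (measure_ne_top _ _) (by simp)).mp hclose).trans
      (min_le_left _ _)
  · filter_upwards [(continuous_subtype_val.tendsto
      (⟨T₁, hT₁⟩ : Extensions η R)).eventually hN] with T hT
    exact ⟨N, hT T.2⟩

theorem good_residual [StandardBorelSpace X] [StandardBorelSpace Y] {R : Aut m} (hR : IsMixing R)
    (hsmall : ∀ δ : ℝ, 0 < δ → ∃ C, MeasurableSet C ∧ 0 < m.real C ∧ m.real C ≤ δ)
    {S : Aut η} (hS : IsMixing S) : ∀ᶠ T in residual (Extensions η R),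
      ∀ A B, MeasurableSet A → MeasurableSet B → ∀ ε, 0 < ε → Small m η T.1.rep A B ε := by
  obtain ⟨𝒜, hc, hd⟩ := exists_countable_measureDense (m.prod η)
  have h : ∀ᶠ T in residual (Extensions η R), ∀ A ∈ 𝒜, ∀ B ∈ 𝒜, ∀ k : ℕ,
      Small m η T.1.rep A B (1 / (k + 1)) :=
    (eventually_countable_ball hc).mpr fun A hA => (eventually_countable_ball hc).mpr fun B hB =>
      eventually_countable_forall.mpr fun k =>
        small_residual hR hsmall hS (hd.measurable A hA) (hd.measurable B hB) (by positivity)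
  filter_upwards [h] with T hT A B hA hB ε hε
  obtain ⟨A', hA', h1⟩ := hd.approx A hA (measure_ne_top _ _) (ε / 5) (by positivity)
  obtain ⟨B', hB', h2⟩ := hd.approx B hB (measure_ne_top _ _) (ε / 5) (by positivity)
  obtain ⟨k, hk⟩ := exists_nat_one_div_lt (show 0 < ε / 5 by positivity)
  refine ((hT A' hA' B' hB' k).approx T.1.mp hA hB (hd.measurable _ hA')
    (hd.measurable _ hB')).mono ?_
  have h3 := ENNReal.toReal_le_of_le_ofReal (by positivity) h1.le
  have h4 := ENNReal.toReal_le_of_le_ofReal (by positivity) h2.le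
  simp only [Measure.real]
  linarith only [hk, h3, h4]

end Pool.Agent.Work.MP_2967d5_an
end

-- merged part: Pool.Agent.Work.MP_2967d5_an.Reduce
section
open MeasureTheory Set Filter Topology
open scoped symmDiff ENNReal

namespace Pool.Agent.Work.MP_2967d5_an

/-- quadratic mean -/
noncomputable def n2 {α : Type*} [MeasurableSpace α] (μ : Measure α) (F : α → ℝ≥0∞) : ℝ≥0∞ :=
  (∫⁻ a, F a ^ (2 : ℝ) ∂μ) ^ (1 / (2 : ℝ))

section N2

variable {α : Type*} [MeasurableSpace α] {μ : Measure α}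

theorem cs {F G : α → ℝ≥0∞} (hF : AEMeasurable F μ) (hG : AEMeasurable G μ) :
    ∫⁻ a, F a * G a ∂μ ≤ n2 μ F * n2 μ G :=
  ENNReal.lintegral_mul_le_Lp_mul_Lq μ Real.HolderConjugate.two_two hF hG

theorem l1_le [IsProbabilityMeasure μ] {F : α → ℝ≥0∞} (hF : AEMeasurable F μ) :
    ∫⁻ a, F a ∂μ ≤ n2 μ F := by
  simpa [n2] using cs hF (G := fun _ => 1) aemeasurable_const

theorem n2_eq {f : α → ℂ} : n2 μ (fun a => ‖f a‖ₑ) = eLpNorm f 2 μ := by
  rw [eLpNorm_eq_lintegral_rpow_enorm_toReal two_ne_zero ENNReal.ofNat_ne_top]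
  simp [n2]

theorem tendsto_of_dense [IsFiniteMeasure μ] (Λ : ℕ → (α → ℂ) → ℝ≥0∞) {C : ℝ≥0∞} (hC : C ≠ ∞)
    (hadd : ∀ n f g, Measurable f → Measurable g → MemLp f 2 μ → MemLp g 2 μ →
      Λ n (f + g) ≤ Λ n f + Λ n g)
    (hle : ∀ n f, Measurable f → Λ n f ≤ C * eLpNorm f 2 μ)
    (hind : ∀ (c : ℂ) s, MeasurableSet s →
      Tendsto (fun n => Λ n (s.indicator fun _ => c)) atTop (𝓝 0))
    {f : α → ℂ} (hf : Measurable f) (hf2 : MemLp f 2 μ) :
    Tendsto (fun n => Λ n f) atTop (𝓝 0) := by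
  rw [ENNReal.tendsto_nhds_zero]
  intro ε hε
  obtain ⟨δ, hδ, hδ'⟩ := ENNReal.exists_nnreal_pos_mul_lt hC (ENNReal.half_pos hε.ne').ne'
  obtain ⟨g, hg, mg, lg, tg⟩ := MemLp.induction_dense ENNReal.ofNat_ne_top
    (fun g => Measurable g ∧ MemLp g 2 μ ∧ Tendsto (fun n => Λ n g) atTop (𝓝 0))
    (fun c s hs hs' ε _ => ⟨s.indicator fun _ => c, by simp, measurable_const.indicator hs,
      memLp_indicator_const 2 hs c (Or.inr hs'.ne), hind c s hs⟩)
    (fun f g hf hg => ⟨hf.1.add hg.1, hf.2.1.add hg.2.1,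
      tendsto_of_tendsto_of_tendsto_of_le_of_le tendsto_const_nhds
        (by simpa using hf.2.2.add hg.2.2) (fun _ => bot_le)
        fun n => hadd n f g hf.1 hg.1 hf.2.1 hg.2.1⟩)
    (fun f hf => hf.1.aestronglyMeasurable) hf2 (ε := δ) (by exact_mod_cast hδ.ne')
  filter_upwards [ENNReal.tendsto_nhds_zero.mp tg (ε / 2) (ENNReal.half_pos hε.ne')] with n hn
  have h1 := hadd n (f - g) g (hf.sub mg) mg (hf2.sub lg) lg
  rw [sub_add_cancel] at h1
  have h2 : Λ n (f - g) ≤ ε / 2 := (hle n _ (hf.sub mg)).trans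
    ((mul_le_mul_right hg C).trans (by rw [mul_comm]; exact hδ'.le))
  calc Λ n f ≤ ε / 2 + ε / 2 := h1.trans (add_le_add h2 hn)
    _ = ε := ENNReal.add_halves ε

theorem l2_of_l1 {c : ℕ → α → ℂ} {M : ℝ≥0∞} (hM : M ≠ ∞) (hb : ∀ n, ∀ᵐ x ∂μ, ‖c n x‖ₑ ≤ M)
    (h : Tendsto (fun n => ∫⁻ x, ‖c n x‖ₑ ∂μ) atTop (𝓝 0)) :
    Tendsto (fun n => eLpNorm (c n) 2 μ) atTop (𝓝 0) := by
  have h1 : Tendsto (fun n => (M * ∫⁻ x, ‖c n x‖ₑ ∂μ) ^ (1 / (2 : ℝ))) atTop (𝓝 0) := by
    have := (ENNReal.Tendsto.const_mul h (a := M) (Or.inr hM)).ennrpow_const (1 / (2 : ℝ))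
    simpa using this
  refine tendsto_of_tendsto_of_tendsto_of_le_of_le tendsto_const_nhds h1 (fun _ => bot_le)
    fun n => ?_
  simp only [← n2_eq, n2]
  gcongr
  rw [← lintegral_const_mul' _ _ hM]
  refine lintegral_mono_ae ?_
  filter_upwards [hb n] with x hx
  rw [ENNReal.rpow_two, sq]
  gcongr

end N2

variable {X Y : Type*} [MeasurableSpace X] [MeasurableSpace Y] {m : Measure X} {η : Measure Y}
  [IsProbabilityMeasure m] [IsProbabilityMeasure η]

/-- a map extending an injective map of the base -/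
structure Lift (m : Measure X) (η : Measure Y) (U : X × Y → X × Y) (R : X → X) : Prop where
  mp : MeasurePreserving U (m.prod η) (m.prod η)
  base : MeasurePreserving R m m
  inv : ∃ R' : X → X, Measurable R' ∧ ∀ x, R' (R x) = x
  fst : ∀ᵐ z ∂(m.prod η), (U z).1 = R z.1

/-- relative correlation -/
noncomputable def cor (η : Measure Y) (U : X × Y → X × Y) (R : X → X) (f g : X × Y → ℂ) (x : X) :
    ℂ := condE η (fun z => f (U z) * g z) x - condE η f (R x) * condE η g x

/-- fibre norm -/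
noncomputable def fn (η : Measure Y) (f : X × Y → ℂ) (x : X) : ℝ≥0∞ := n2 η fun y => ‖f (x, y)‖ₑ

variable {U : X × Y → X × Y} {R : X → X} {f g : X × Y → ℂ}

theorem meas_condE (hf : Measurable f) : Measurable (condE η f) :=
  hf.stronglyMeasurable.integral_prod_right'.measurable

theorem meas_cor (h : Lift m η U R) (hf : Measurable f) (hg : Measurable g) :
    Measurable (cor η U R f g) :=
  (meas_condE ((hf.comp h.mp.measurable).mul hg)).sub
    (((meas_condE hf).comp h.base.measurable).mul (meas_condE hg))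

theorem meas_fn (hf : Measurable f) : Measurable (fn η f) :=
  (hf.enorm.pow_const _).lintegral_prod_right'.pow_const _

theorem condE_le (hf : Measurable f) (x : X) : ‖condE η f x‖ₑ ≤ fn η f x :=
  (enorm_integral_le_lintegral_enorm _).trans
    (l1_le (hf.comp measurable_prodMk_left).enorm.aemeasurable)

theorem cor_le (h : Lift m η U R) (hf : Measurable f) (hg : Measurable g) :
    ∀ᵐ x ∂m, ‖cor η U R f g x‖ₑ ≤ 2 * (fn η f (R x) * fn η g x) := by
  obtain ⟨R', hR', hinv⟩ := h.inv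
  filter_upwards [fiber_lintegral h.base hR' hinv h.mp h.fst
    (G := fun z => ‖f z‖ₑ ^ (2 : ℝ)) (hf.enorm.pow_const _)] with x hx
  rw [two_mul]
  refine (enorm_sub_le).trans (add_le_add ?_ ?_)
  · refine (enorm_integral_le_lintegral_enorm _).trans ?_
    simp only [enorm_mul]
    refine (cs (F := fun y => ‖f (U (x, y))‖ₑ) (G := fun y => ‖g (x, y)‖ₑ)
      ((hf.comp h.mp.measurable).comp measurable_prodMk_left).enorm.aemeasurable
      (hg.comp measurable_prodMk_left).enorm.aemeasurable).trans (le_of_eq ?_)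
    simp only [fn, n2, hx]
  · rw [enorm_mul]
    exact mul_le_mul' (condE_le hf _) (condE_le hg _)

theorem n2_fn (hf : Measurable f) : n2 m (fn η f) = eLpNorm f 2 (m.prod η) := by
  rw [← n2_eq, n2, n2, lintegral_prod _ (hf.enorm.pow_const _).aemeasurable]
  congr 2
  funext x
  rw [fn, n2, ← ENNReal.rpow_mul]
  simp

theorem lint_cor_le (h : Lift m η U R) (hf : Measurable f) (hg : Measurable g) :
    ∫⁻ x, ‖cor η U R f g x‖ₑ ∂m ≤ 2 * (eLpNorm f 2 (m.prod η) * eLpNorm g 2 (m.prod η)) := by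
  refine (lintegral_mono_ae (cor_le h hf hg)).trans ?_
  rw [lintegral_const_mul' _ _ ENNReal.ofNat_ne_top]
  gcongr
  refine (cs (F := fun x => fn η f (R x)) ((meas_fn hf).comp h.base.measurable).aemeasurable
    (meas_fn hg).aemeasurable).trans (le_of_eq ?_)
  rw [← n2_fn hf, ← n2_fn hg]
  congr 1
  rw [n2, n2, h.base.lintegral_comp (f := fun x => fn η f x ^ (2 : ℝ)) ((meas_fn hf).pow_const _)]

theorem condE_add (hf : Integrable f (m.prod η)) (hg : Integrable g (m.prod η)) :
    ∀ᵐ x ∂m, condE η (fun z => f z + g z) x = condE η f x + condE η g x := by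
  filter_upwards [hf.prod_right_ae, hg.prod_right_ae] with x h1 h2
  exact integral_add h1 h2

theorem condE_congr (h : f =ᵐ[m.prod η] g) : ∀ᵐ x ∂m, condE η f x = condE η g x := by
  filter_upwards [Measure.ae_ae_of_ae_prod h] with x hx
  exact integral_congr_ae hx

theorem cor_congr (h : Lift m η U R) {f' g' : X × Y → ℂ} (hf : f =ᵐ[m.prod η] f')
    (hg : g =ᵐ[m.prod η] g') : cor η U R f g =ᵐ[m] cor η U R f' g' := by
  have h1 : (fun z => f (U z) * g z) =ᵐ[m.prod η] fun z => f' (U z) * g' z := by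
    filter_upwards [h.mp.quasiMeasurePreserving.ae hf, hg] with z h1 h2
    rw [h1, h2]
  filter_upwards [condE_congr h1, h.base.quasiMeasurePreserving.ae (condE_congr hf),
    condE_congr hg] with x h1 h2 h3
  simp only [cor, h1, h2, h3]

theorem cor_add_left (h : Lift m η U R) {f' : X × Y → ℂ} (hf : MemLp f 2 (m.prod η))
    (hf' : MemLp f' 2 (m.prod η)) (hg : MemLp g 2 (m.prod η)) :
    ∀ᵐ x ∂m, cor η U R (f + f') g x = cor η U R f g x + cor η U R f' g x := by
  filter_upwards [condE_add ((hf.comp_measurePreserving h.mp).integrable_mul hg)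
    ((hf'.comp_measurePreserving h.mp).integrable_mul hg),
    h.base.quasiMeasurePreserving.ae (condE_add (hf.integrable one_le_two)
      (hf'.integrable one_le_two))] with x h1 h2
  simp only [cor, Pi.add_apply, add_mul]
  simp only [Pi.mul_apply, Function.comp_apply] at h1
  rw [h1, show condE η (f + f') (R x) = _ from h2]
  simp only [Pi.mul_def, Function.comp_apply]
  ring

theorem cor_add_right (h : Lift m η U R) {g' : X × Y → ℂ} (hf : MemLp f 2 (m.prod η))
    (hg : MemLp g 2 (m.prod η)) (hg' : MemLp g' 2 (m.prod η)) :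
    ∀ᵐ x ∂m, cor η U R f (g + g') x = cor η U R f g x + cor η U R f g' x := by
  filter_upwards [condE_add ((hf.comp_measurePreserving h.mp).integrable_mul hg)
    ((hf.comp_measurePreserving h.mp).integrable_mul hg'),
    condE_add (hg.integrable one_le_two) (hg'.integrable one_le_two)] with x h1 h2
  simp only [cor, Pi.add_apply, mul_add]
  simp only [Pi.mul_apply, Function.comp_apply] at h1
  rw [h1, show condE η (g + g') x = _ from h2]
  simp only [Pi.mul_def, Function.comp_apply]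
  ring

theorem lint_add {c a b : X → ℂ} (ha : Measurable a) (h : ∀ᵐ x ∂m, c x = a x + b x) :
    ∫⁻ x, ‖c x‖ₑ ∂m ≤ ∫⁻ x, ‖a x‖ₑ ∂m + ∫⁻ x, ‖b x‖ₑ ∂m := by
  rw [← lintegral_add_left ha.enorm]
  refine lintegral_mono_ae ?_
  filter_upwards [h] with x hx
  rw [hx]
  exact enorm_add_le _ _

theorem cor_indicator (h : Lift m η U R) {A B : Set (X × Y)} (hA : MeasurableSet A)
    (hB : MeasurableSet B) (c c' : ℂ) :
    ∀ᵐ x ∂m, cor η U R (A.indicator fun _ => c) (B.indicator fun _ => c') x =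
      c * c' * ((∫ y, cenZ η A (U (x, y)) * cenZ η B (x, y) ∂η : ℝ) : ℂ) := by
  obtain ⟨R', hR', hinv⟩ := h.inv
  filter_upwards [fib_preimage h.base hR' hinv h.mp h.fst hA, Measure.ae_ae_of_ae_prod h.fst]
    with x h1 h2
  have e : ∀ (D : Set (X × Y)) (d : ℂ) z,
      D.indicator (fun _ => d) z = d * ((D.indicator (1 : X × Y → ℝ) z : ℝ) : ℂ) := fun D d z => by
    by_cases hz : z ∈ D <;> simp [hz]
  have bA : Bd fun y => A.indicator (1 : X × Y → ℝ) (U (x, y)) :=
    (bd_indicator hA).comp (h.mp.measurable.comp measurable_prodMk_left)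
  have bB : Bd fun y => B.indicator (1 : X × Y → ℝ) (x, y) :=
    (bd_indicator hB).comp measurable_prodMk_left
  have e1 : ∫ y, A.indicator (1 : X × Y → ℝ) (U (x, y)) ∂η = fib η A (R x) := by
    rw [← h1, ← fib_eq (h.mp.measurable hA)]
    rfl
  have e2 : ∫ y, cenZ η A (U (x, y)) * cenZ η B (x, y) ∂η =
      ∫ y, A.indicator (1 : X × Y → ℝ) (U (x, y)) * B.indicator 1 (x, y) ∂η -
        fib η A (R x) * fib η B x := by
    have e3 : ∀ᵐ y ∂η, cenZ η A (U (x, y)) * cenZ η B (x, y) =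
        (A.indicator (1 : X × Y → ℝ) (U (x, y)) * B.indicator 1 (x, y) -
          fib η A (R x) * B.indicator 1 (x, y)) -
        (A.indicator (1 : X × Y → ℝ) (U (x, y)) * fib η B x - fib η A (R x) * fib η B x) := by
      filter_upwards [h2] with y hy
      simp only [cenZ, hy]
      ring
    rw [integral_congr_ae e3, integral_sub (((bA.mul bB).integrable η).sub'
      ((bB.integrable η).const_mul _)) (((bA.integrable η).mul_const _).sub' (integrable_const _)),
      integral_sub ((bA.mul bB).integrable η) ((bB.integrable η).const_mul _),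
      integral_sub ((bA.integrable η).mul_const _) (integrable_const _), integral_const_mul,
      integral_mul_const, e1, fib_eq hB]
    simp
  have e4 : ∀ y, c * ((A.indicator (1 : X × Y → ℝ) (U (x, y)) : ℝ) : ℂ) *
      (c' * ((B.indicator (1 : X × Y → ℝ) (x, y) : ℝ) : ℂ)) = c * c' *
      ((A.indicator (1 : X × Y → ℝ) (U (x, y)) * B.indicator (1 : X × Y → ℝ) (x, y) : ℝ) : ℂ) :=
    fun y => by push_cast; ring
  simp only [cor, condE, e, e4, integral_const_mul, integral_complex_ofReal, fib_eq hA, fib_eq hB,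
    e2]
  push_cast
  ring

theorem lint_indicator (h : Lift m η U R) {A B : Set (X × Y)} (hA : MeasurableSet A)
    (hB : MeasurableSet B) (c c' : ℂ) {ε : ℝ} (hε : ∀ φ : X → ℝ, Bd φ →
      |∫ z, φ z.1 * (cenZ η A (U z) * cenZ η B z) ∂(m.prod η)| ≤ ε) :
    ∫⁻ x, ‖cor η U R (A.indicator fun _ => c) (B.indicator fun _ => c') x‖ₑ ∂m ≤
      ‖c * c'‖ₑ * ENNReal.ofReal ε := by
  have bH : Bd fun z => cenZ η A (U z) * cenZ η B z :=
    ((bd_cenZ hA).comp h.mp.measurable).mul (bd_cenZ hB)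
  set E : X → ℝ := fun x => ∫ y, cenZ η A (U (x, y)) * cenZ η B (x, y) ∂η with hE
  have bE : Bd E := ⟨bH.meas.stronglyMeasurable.integral_prod_right'.measurable, fun x =>
    (bH.comp measurable_prodMk_left).abs_integral_le η⟩
  set φ : X → ℝ := fun x => if 0 ≤ E x then 1 else -1 with hφ
  have bφ : Bd φ := ⟨Measurable.ite (measurableSet_le measurable_const bE.meas) measurable_const
    measurable_const, fun x => by by_cases h : 0 ≤ E x <;> simp [hφ, h]⟩
  have h1 : ∫ x, ‖E x‖ ∂m ≤ ε := by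
    refine le_trans (le_of_eq ?_) ((le_abs_self _).trans (hε φ bφ))
    rw [integral_prod _ (((bφ.comp measurable_fst).mul bH).integrable _)]
    congr 1
    funext x
    simp only [integral_const_mul]
    by_cases h : 0 ≤ E x
    · simp only [hφ, if_pos h, one_mul, Real.norm_eq_abs, abs_of_nonneg h]
      rfl
    · simp only [hφ, if_neg h, neg_one_mul, Real.norm_eq_abs, abs_of_neg (not_le.mp h)]
      rfl
  have h2 : ∀ᵐ x ∂m, ‖cor η U R (A.indicator fun _ => c) (B.indicator fun _ => c') x‖ₑ =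
      ‖c * c'‖ₑ * ‖E x‖ₑ := by
    filter_upwards [cor_indicator h hA hB c c'] with x hx
    rw [hx, enorm_mul]
    simp only [hE, enorm_eq_nnnorm, Complex.nnnorm_real]
  rw [lintegral_congr_ae h2, lintegral_const_mul' _ _ enorm_ne_top,
    ← ofReal_integral_norm_eq_lintegral_enorm (bE.integrable m)]
  gcongr

theorem fn_bound (hf : Measurable f) (h : MemL2Rel m η f) :
    ∃ M : ℝ≥0∞, M ≠ ∞ ∧ ∀ᵐ x ∂m, fn η f x ≤ M := by
  refine ⟨_, h.2.2.ne, ?_⟩
  have h1 := ((memLp_two_iff_integrable_sq_norm h.1.1).mp h.1).prod_right_ae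
  filter_upwards [h1, ae_le_eLpNormEssSup (f := fun x => √(∫ y, ‖f (x, y)‖ ^ 2 ∂η)) (μ := m)]
    with x h1 h2
  rw [eLpNorm_exponent_top]
  refine le_trans (le_of_eq ?_) h2
  rw [Real.enorm_eq_ofReal (Real.sqrt_nonneg _), Real.sqrt_eq_rpow,
    ← ENNReal.ofReal_rpow_of_nonneg (integral_nonneg fun y => by positivity) (by norm_num),
    ofReal_integral_eq_lintegral_ofReal h1 (Eventually.of_forall fun y => by positivity), fn, n2]
  congr 2
  funext y
  rw [ENNReal.ofReal_pow (norm_nonneg _), ofReal_norm, ENNReal.rpow_two]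

theorem MemL2Rel.congr {f' : X × Y → ℂ} (h : MemL2Rel m η f) (hf : f =ᵐ[m.prod η] f') :
    MemL2Rel m η f' := by
  refine ⟨h.1.ae_eq hf, h.2.ae_eq ?_⟩
  filter_upwards [Measure.ae_ae_of_ae_prod hf] with x hx
  congr 1
  refine integral_congr_ae ?_
  filter_upwards [hx] with y hy
  rw [hy]

theorem tendsto_cor {U : ℕ → X × Y → X × Y} {R : ℕ → X → X} (h : ∀ n, Lift m η (U n) (R n))
    (hS : ∀ A B, MeasurableSet A → MeasurableSet B → ∀ ε : ℝ, 0 < ε → ∃ N, ∀ n, N ≤ n →
      ∀ φ : X → ℝ, Bd φ → |∫ z, φ z.1 * (cenZ η A (U n z) * cenZ η B z) ∂(m.prod η)| ≤ ε)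
    (hf : MemL2Rel m η f) (hg : MemL2Rel m η g) :
    Tendsto (fun n => eLpNorm (cor η (U n) (R n) f g) 2 m) atTop (𝓝 0) := by
  have key : ∀ f g : X × Y → ℂ, Measurable f → Measurable g → MemLp f 2 (m.prod η) →
      MemLp g 2 (m.prod η) →
      Tendsto (fun n => ∫⁻ x, ‖cor η (U n) (R n) f g x‖ₑ ∂m) atTop (𝓝 0) := by
    intro f g mf mg lf lg
    refine tendsto_of_dense (μ := m.prod η) (fun n g => ∫⁻ x, ‖cor η (U n) (R n) f g x‖ₑ ∂m)
      (C := 2 * eLpNorm f 2 (m.prod η)) (ENNReal.mul_ne_top ENNReal.ofNat_ne_top lf.2.ne)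
      (fun n g g' mg _ lg lg' => lint_add (meas_cor (h n) mf mg) (cor_add_right (h n) lf lg lg'))
      (fun n g mg => (lint_cor_le (h n) mf mg).trans (le_of_eq (mul_assoc _ _ _).symm))
      (fun c' B hB => ?_) mg lg
    have mB : Measurable (B.indicator fun _ => c') := measurable_const.indicator hB
    have lB : MemLp (B.indicator fun _ => c') 2 (m.prod η) :=
      memLp_indicator_const 2 hB c' (Or.inr (measure_ne_top _ _))
    refine tendsto_of_dense (μ := m.prod η)
      (fun n f => ∫⁻ x, ‖cor η (U n) (R n) f (B.indicator fun _ => c') x‖ₑ ∂m)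
      (C := 2 * eLpNorm (B.indicator fun _ => c') 2 (m.prod η))
      (ENNReal.mul_ne_top ENNReal.ofNat_ne_top lB.2.ne)
      (fun n f f' mf _ lf lf' => lint_add (meas_cor (h n) mf mB) (cor_add_left (h n) lf lf' lB))
      (fun n f mf => (lint_cor_le (h n) mf mB).trans (le_of_eq (by ring)))
      (fun c A hA => ?_) mf lf
    rw [ENNReal.tendsto_nhds_zero]
    intro ε hε
    obtain ⟨δ, hδ, hδ'⟩ := ENNReal.exists_nnreal_pos_mul_lt (enorm_ne_top (x := c * c')) hε.ne'
    obtain ⟨N, hN⟩ := hS A B hA hB δ hδ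
    filter_upwards [eventually_ge_atTop N] with n hn
    refine (lint_indicator (h n) hA hB c c' (hN n hn)).trans ?_
    rw [ENNReal.ofReal_coe_nnreal, mul_comm]
    exact hδ'.le
  have ef := hf.1.1.ae_eq_mk
  have eg := hg.1.1.ae_eq_mk
  have mf := hf.1.1.stronglyMeasurable_mk.measurable
  have mg := hg.1.1.stronglyMeasurable_mk.measurable
  simp only [fun n => eLpNorm_congr_ae (p := 2) (cor_congr (h n) ef eg)]
  obtain ⟨M, hM, bM⟩ := fn_bound mf (hf.congr ef)
  obtain ⟨M', hM', bM'⟩ := fn_bound mg (hg.congr eg)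
  refine l2_of_l1 (M := 2 * (M * M')) (by finiteness) (fun n => ?_)
    (key _ _ mf mg (hf.congr ef).1 (hg.congr eg).1)
  filter_upwards [cor_le (h n) mf mg, (h n).base.quasiMeasurePreserving.ae bM, bM'] with x h1 h2 h3
  exact h1.trans (by gcongr)

theorem main [StandardBorelSpace X] [StandardBorelSpace Y] {R : Aut m} (hR : IsMixing R)
    (hsmall : ∀ δ : ℝ, 0 < δ → ∃ C, MeasurableSet C ∧ 0 < m.real C ∧ m.real C ≤ δ)
    {S : Aut η} (hS : IsMixing S) :
    MixingExtensions η R ∈ residual (Extensions η R) ∧ ¬ IsMeagre (MixingExtensions η R) := by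
  have h : MixingExtensions η R ∈ residual (Extensions η R) := by
    filter_upwards [good_residual hR hsmall hS] with T hT f g hf hg
    refine tendsto_cor (U := fun n => T.1.rep^[n]) (R := fun n => R.rep^[n])
      (g := fun z => starRingEnd ℂ (g z)) (fun n => ⟨T.1.mp.iterate n, R.mp.iterate n,
        ⟨R.rep.symm^[n], R.rep.symm.measurable.iterate n, fun x =>
          Function.LeftInverse.iterate R.rep.symm_apply_apply n x⟩, ext_iter T.1.mp T.2 n⟩)
      hT hf ⟨?_, ?_⟩
    · exact hg.1.of_le (Complex.continuous_conj.comp_aestronglyMeasurable hg.1.1)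
        (Eventually.of_forall fun z => by simp)
    · simpa using hg.2
  refine ⟨h, fun hm => ?_⟩
  have := baireSpace_extensions (η := η) R
  obtain ⟨T, hT, -⟩ := exists_conj (η := η) R (Θ := id) (Θ' := id) ⟨MeasurePreserving.id _,
    MeasurePreserving.id _, by simp, by simp, by simp, by simp⟩
  have : Nonempty (Extensions η R) := ⟨⟨T, hT⟩⟩
  obtain ⟨T', hT'⟩ := (dense_of_mem_residual (inter_mem h hm)).nonempty
  exact hT'.2 hT'.1

end Pool.Agent.Work.MP_2967d5_an
end

-- merged part: Pool.Agent.Work.MP_2967d5_an.Iso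
section
open MeasureTheory Set Filter Topology ProbabilityTheory
open scoped symmDiff ENNReal unitInterval

namespace Pool.Agent.Work.MP_2967d5_an

variable {α β γ : Type*} [MeasurableSpace α] [MeasurableSpace β] [MeasurableSpace γ]
  {μ : Measure α} {ν : Measure β} {ρ : Measure γ}

/-- isomorphism modulo null sets -/
structure Iso (μ : Measure α) (ν : Measure β) (φ : α → β) (ψ : β → α) : Prop where
  mp : MeasurePreserving φ μ ν
  mp' : MeasurePreserving ψ ν μ
  left : ∀ᵐ a ∂μ, ψ (φ a) = a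
  right : ∀ᵐ b ∂ν, φ (ψ b) = b

theorem Iso.symm {φ : α → β} {ψ : β → α} (h : Iso μ ν φ ψ) : Iso ν μ ψ φ :=
  ⟨h.mp', h.mp, h.right, h.left⟩

theorem Iso.trans {φ : α → β} {ψ : β → α} {φ' : β → γ} {ψ' : γ → β} (h : Iso μ ν φ ψ)
    (h' : Iso ν ρ φ' ψ') : Iso μ ρ (φ' ∘ φ) (ψ ∘ ψ') := by
  refine ⟨h'.mp.comp h.mp, h.mp'.comp h'.mp', ?_, ?_⟩
  · filter_upwards [h.left, h.mp.quasiMeasurePreserving.ae h'.left] with a h1 h2
    simp only [Function.comp, h1, h2]
  · filter_upwards [h'.right, h'.mp'.quasiMeasurePreserving.ae h.right] with a h1 h2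
    simp only [Function.comp, h1, h2]

theorem iso_unit (ν : Measure I) [IsProbabilityMeasure ν] [NullSingletonClass ν] :
    ∃ F G, Iso ν (volume : Measure I) F G := by
  let F : I → I := fun x => ⟨ν.real (Iic x), measureReal_nonneg, measureReal_le_one⟩
  have hFc : Continuous F := by
    refine Continuous.subtype_mk (continuous_iff_continuousAt.mpr fun x₀ => ?_) _
    simp only [← integral_indicator_one (μ := ν) measurableSet_Iic]
    refine continuousAt_of_dominated (bound := fun _ => 1)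
      (Eventually.of_forall fun x => (bd_indicator measurableSet_Iic).meas.aestronglyMeasurable)
      (Eventually.of_forall fun x => Eventually.of_forall (bd_indicator measurableSet_Iic).le)
      (integrable_const _) ?_
    filter_upwards [Measure.ae_ne ν x₀] with t ht
    rcases ht.lt_or_gt with h | h
    · refine continuousAt_const.congr (f := fun _ => (1 : ℝ)) ?_
      filter_upwards [lt_mem_nhds h] with x hx
      simp [hx.le]
    · refine continuousAt_const.congr (f := fun _ => (0 : ℝ)) ?_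
      filter_upwards [gt_mem_nhds h] with x hx
      simp [hx]
  have hFm : Monotone F := fun x y h => measureReal_mono (Iic_subset_Iic.mpr h)
  have hF0 : F 0 = 0 := Subtype.ext (by
    show ν.real (Iic ⊥) = 0
    simp [Measure.real])
  have hF1 : F 1 = 1 := Subtype.ext (by
    show ν.real (Iic ⊤) = 1
    simp)
  let G : I → I := fun u => sInf {x | u ≤ F x}
  have hmem : ∀ u, u ≤ F (G u) := fun u =>
    (isClosed_le continuous_const hFc).sInf_mem ⟨1, by rw [mem_setOf_eq, hF1]; exact le_top⟩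
  have gc : ∀ u x, G u ≤ x ↔ u ≤ F x := fun u x =>
    ⟨fun h => (hmem u).trans (hFm h), fun h => sInf_le h⟩
  have hFG : ∀ u, F (G u) = u := fun u => by
    obtain ⟨x, hx⟩ := intermediate_value_univ 0 1 hFc
      (show u ∈ Icc (F 0) (F 1) by rw [hF0, hF1]; exact ⟨bot_le, le_top⟩)
    exact le_antisymm ((hFm ((gc u x).mpr hx.ge)).trans hx.le) (hmem u)
  have hGm : Measurable G := (GaloisConnection.monotone_l gc).measurable
  have hG : MeasurePreserving G volume ν := ⟨hGm, Measure.ext_of_Iic _ _ fun x => by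
    rw [Measure.map_apply hGm measurableSet_Iic, show G ⁻¹' Iic x = Iic (F x) from
      Set.ext fun u => gc u x, unitInterval.volume_Iic]
    exact ofReal_measureReal⟩
  refine ⟨F, G, ⟨hFc.measurable, ?_⟩, hG, ?_, Eventually.of_forall hFG⟩
  · rw [← hG.map_eq, Measure.map_map hFc.measurable hGm, show F ∘ G = id from funext hFG,
      Measure.map_id]
  · rw [← hG.map_eq]
    exact (ae_map_iff hGm.aemeasurable (measurableSet_eq_fun (hGm.comp hFc.measurable)
      measurable_id)).mpr (Eventually.of_forall fun u => by simp only [Function.comp, hFG, id])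

theorem iso_std (μ : Measure α) [StandardBorelSpace α] [IsProbabilityMeasure μ]
    [NullSingletonClass μ] : ∃ F G, Iso μ (volume : Measure I) F G := by
  have : Nonempty α := nonempty_of_isProbabilityMeasure μ
  have hg := measurableEmbedding_sigmoid_comp_embeddingReal α
  set g := unitInterval.sigmoid ∘ embeddingReal α
  have : IsProbabilityMeasure (μ.map g) := Measure.isProbabilityMeasure_map hg.measurable.aemeasurable
  have : NullSingletonClass (μ.map g) := ⟨fun x => by
    rw [hg.map_apply]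
    exact (subsingleton_singleton.preimage hg.injective).measure_zero μ⟩
  obtain ⟨F, G, h⟩ := iso_unit (μ.map g)
  refine ⟨_, _, Iso.trans (φ := g) (ψ := hg.invFun) ⟨hg.measurable.measurePreserving μ,
    ⟨hg.measurable_invFun, ?_⟩, Eventually.of_forall hg.leftInverse_invFun, ?_⟩ h⟩
  · rw [Measure.map_map hg.measurable_invFun hg.measurable, hg.leftInverse_invFun.id,
      Measure.map_id]
  · rw [hg.ae_map_iff]
    exact Eventually.of_forall fun a => by rw [hg.leftInverse_invFun]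

theorem small_sets (μ : Measure α) [StandardBorelSpace α] [IsProbabilityMeasure μ]
    [NullSingletonClass μ] (δ : ℝ) (hδ : 0 < δ) :
    ∃ C, MeasurableSet C ∧ 0 < μ.real C ∧ μ.real C ≤ δ := by
  obtain ⟨F, G, h⟩ := iso_std μ
  have h0 : 0 < min δ 1 := lt_min hδ one_pos
  refine ⟨F ⁻¹' Iic ⟨min δ 1, h0.le, min_le_right _ _⟩, h.mp.measurable measurableSet_Iic, ?_⟩
  rw [h.mp.measureReal_preimage measurableSet_Iic.nullMeasurableSet, Measure.real,
    unitInterval.volume_Iic, ENNReal.toReal_ofReal h0.le]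
  exact ⟨h0, min_le_left _ _⟩

theorem Iso.mixing [StandardBorelSpace β] {φ : α → β} {ψ : β → α} (h : Iso μ ν φ ψ)
    {T T' : α → α} (hT : Iso μ μ T T') (hmix : ∀ A B, MeasurableSet A → MeasurableSet B →
      Tendsto (fun n : ℕ => μ.real (A ∩ T^[n] ⁻¹' B)) atTop (𝓝 (μ.real A * μ.real B))) :
    ∃ R : Aut ν, IsMixing R := by
  have h1 := (h.symm.trans hT).trans h
  obtain ⟨R, hR⟩ := exists_aut h1.mp h1.mp' h1.left h1.right
  have h2 : ∀ n, ∀ᵐ a ∂μ, R.rep^[n] (φ a) = φ (T^[n] a) := by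
    intro n
    induction n with
    | zero => exact Eventually.of_forall fun _ => rfl
    | succ n ih =>
      filter_upwards [ih, (h.mp.comp (hT.mp.iterate n)).quasiMeasurePreserving.ae hR,
        (hT.mp.iterate n).quasiMeasurePreserving.ae h.left] with a h1 h2 h3
      simp only [Function.comp] at h2
      rw [Function.iterate_succ_apply', Function.iterate_succ_apply', h1, h2, h3]
  refine ⟨R, fun A B hA hB => ?_⟩
  rw [← h.mp.measureReal_preimage hA.nullMeasurableSet,
    ← h.mp.measureReal_preimage hB.nullMeasurableSet]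
  refine (hmix _ _ (h.mp.measurable hA) (h.mp.measurable hB)).congr fun n => ?_
  rw [← h.mp.measureReal_preimage (hA.inter (R.rep.measurable.iterate n hB)).nullMeasurableSet]
  refine measureReal_congr ?_
  filter_upwards [h2 n] with a ha
  show (φ a ∈ A ∧ φ (T^[n] a) ∈ B) = (φ a ∈ A ∧ R.rep^[n] (φ a) ∈ B)
  rw [ha]

theorem mixing_of_dense [IsProbabilityMeasure μ] {T : α → α} (hT : MeasurePreserving T μ μ)
    {𝒜 : Set (Set α)} (hd : μ.MeasureDense 𝒜)
    (h : ∀ A ∈ 𝒜, ∀ B ∈ 𝒜, ∀ᶠ n in atTop, μ.real (A ∩ T^[n] ⁻¹' B) = μ.real A * μ.real B)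
    (A B : Set α) (hA : MeasurableSet A) (hB : MeasurableSet B) :
    Tendsto (fun n : ℕ => μ.real (A ∩ T^[n] ⁻¹' B)) atTop (𝓝 (μ.real A * μ.real B)) := by
  rw [Metric.tendsto_nhds]
  intro ε hε
  obtain ⟨A', hA', h1⟩ := hd.approx A hA (measure_ne_top _ _) (ε / 5) (by positivity)
  obtain ⟨B', hB', h2⟩ := hd.approx B hB (measure_ne_top _ _) (ε / 5) (by positivity)
  have mA := hd.measurable _ hA'
  have mB := hd.measurable _ hB'
  have h3 : μ.real (A ∆ A') ≤ ε / 5 := ENNReal.toReal_le_of_le_ofReal (by positivity) h1.le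
  have h4 : μ.real (B ∆ B') ≤ ε / 5 := ENNReal.toReal_le_of_le_ofReal (by positivity) h2.le
  have h5 := (abs_measureReal_sub_le_measureReal_symmDiff (μ := μ) hA.nullMeasurableSet
    mA.nullMeasurableSet).trans h3
  have h6 := (abs_measureReal_sub_le_measureReal_symmDiff (μ := μ) hB.nullMeasurableSet
    mB.nullMeasurableSet).trans h4
  filter_upwards [h A' hA' B' hB'] with n hn
  have mT := hT.measurable.iterate n
  have h7 := abs_measureReal_sub_le_measureReal_symmDiff (μ := μ)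
    (hA.inter (mT hB)).nullMeasurableSet (mA.inter (mT mB)).nullMeasurableSet
  have h8 : μ.real ((A ∩ T^[n] ⁻¹' B) ∆ (A' ∩ T^[n] ⁻¹' B')) ≤
      μ.real (A ∆ A') + μ.real (B ∆ B') := by
    rw [← (hT.iterate n).measureReal_preimage (hB.symmDiff mB).nullMeasurableSet]
    refine (measureReal_mono fun x hx => ?_).trans (measureReal_union_le _ _)
    simp only [mem_symmDiff, mem_inter_iff, mem_preimage, mem_union] at hx ⊢
    tauto
  have h9 : |μ.real A' * μ.real B' - μ.real A * μ.real B| ≤ ε / 5 + ε / 5 := by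
    have e : μ.real A' * μ.real B' - μ.real A * μ.real B =
        -(μ.real B' * (μ.real A - μ.real A') + μ.real A * (μ.real B - μ.real B')) := by ring
    rw [e, abs_neg]
    refine (abs_add_le _ _).trans (add_le_add ?_ ?_)
    · rw [abs_mul, abs_of_nonneg measureReal_nonneg]
      exact (mul_le_of_le_one_left (abs_nonneg _) measureReal_le_one).trans h5
    · rw [abs_mul, abs_of_nonneg measureReal_nonneg]
      exact (mul_le_of_le_one_left (abs_nonneg _) measureReal_le_one).trans h6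
  rw [hn] at h7
  rw [Real.dist_eq]
  linarith only [hε, h3, h4, h7, h8, h9, abs_sub_le (μ.real (A ∩ T^[n] ⁻¹' B)) (μ.real A' * μ.real B') (μ.real A * μ.real B)]

theorem exists_mixing (ν : Measure β) [StandardBorelSpace β] [IsProbabilityMeasure ν]
    [NullSingletonClass ν] : ∃ R : Aut ν, IsMixing R := by
  set P : Measure (ℤ → I) := Measure.infinitePi fun _ => volume with hP
  have : NullSingletonClass P := ⟨fun x => measure_mono_null
    (t := (fun ω => ω 0) ⁻¹' {x 0}) (by simp) (by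
      rw [(measurePreserving_eval_infinitePi (fun _ : ℤ => (volume : Measure I)) 0).measure_preimage
        (measurableSet_singleton _).nullMeasurableSet]
      simp)⟩
  have sh : ∀ k : ℤ, MeasurePreserving (fun (ω : ℤ → I) i => ω (i + k)) P P := fun k =>
    ⟨by fun_prop, Measure.map_infinitePi_infinitePi_of_inj (add_left_injective k)⟩
  have it : ∀ n : ℕ, (fun (ω : ℤ → I) i => ω (i + 1))^[n] = fun ω i => ω (i + n) := by
    intro n
    induction n with
    | zero => funext ω i; simp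
    | succ n ih =>
      funext ω i
      rw [Function.iterate_succ_apply', ih, Nat.cast_succ]
      show ω (i + 1 + n) = ω (i + (n + 1))
      rw [add_assoc, add_comm 1]
  obtain ⟨F, G, h⟩ := iso_std P
  obtain ⟨F', G', h'⟩ := iso_std ν
  refine (h.trans h'.symm).mixing ⟨sh 1, sh (-1), by simp, by simp⟩ (mixing_of_dense (sh 1)
    (Measure.MeasureDense.of_generateFrom_isSetAlgebra_finite P isSetAlgebra_measurableCylinders
      generateFrom_measurableCylinders.symm) fun A hA B hB => ?_)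
  obtain ⟨s, S, hS, rfl⟩ := (mem_measurableCylinders _).mp hA
  obtain ⟨t, T, hT, rfl⟩ := (mem_measurableCylinders _).mp hB
  have hev : ∀ᶠ n : ℕ in atTop, ∀ i ∈ s, ∀ j ∈ t, i ≠ j + n := by
    refine (eventually_all_finset _).mpr fun i _ => (eventually_all_finset _).mpr fun j _ => ?_
    filter_upwards [eventually_gt_atTop (i - j).toNat] with n hn
    omega
  filter_upwards [hev] with n hn
  have hind := (iIndepFun_infinitePi (P := fun _ : ℤ => (volume : Measure I))
    (X := fun _ ω => ω) (by fun_prop)).indepFun_finset s (t.image (· + (n : ℤ)))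
    (by
      rw [Finset.disjoint_left]
      intro i hi hi'
      obtain ⟨j, hj, rfl⟩ := Finset.mem_image.mp hi'
      exact hn _ hi j hj rfl) (by fun_prop)
  have hm : Measurable fun (w : t.image (· + (n : ℤ)) → I) (j : t) =>
      w ⟨j + n, Finset.mem_image_of_mem _ j.2⟩ := by fun_prop
  have h1 := hind.measure_inter_preimage_eq_mul S _ hS (hm hT)
  rw [it, ← (sh n).measureReal_preimage (MeasurableSet.cylinder t hT).nullMeasurableSet,
    Measure.real, Measure.real, Measure.real, ← ENNReal.toReal_mul]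
  exact congrArg ENNReal.toReal h1

end Pool.Agent.Work.MP_2967d5_an
end

-- merged part: Pool.Agent.Work.MP_2967d5_an.C.Clock
section
/-! Marker sets and clocks for an arbitrary transformation. -/

open MeasureTheory Set Filter Topology
open scoped symmDiff ENNReal

namespace Pool.Agent.Work.MP_2967d5_an

variable {X : Type*} [MeasurableSpace X] {m : Measure X} [IsProbabilityMeasure m]

theorem clock_of_set (R : X ≃ᵐ X) {C : Set X} (hC : MeasurableSet C) :
    ∃ r : X → ℕ, Measurable r ∧ ∀ x, (∃ n, R.symm^[n] x ∈ C) → R x ∉ C → r (R x) = r x + 1 := by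
  classical
  set U : Set X := {x | ∃ n, R.symm^[n] x ∈ C} with hU
  have hUm : MeasurableSet U := by
    have : U = ⋃ n, R.symm^[n] ⁻¹' C := by ext; simp [hU]
    rw [this]
    exact MeasurableSet.iUnion fun n => (R.symm.measurable.iterate n) hC
  have hp : ∀ x, ∃ n, R.symm^[n] x ∈ C ∨ x ∉ U := fun x => by
    by_cases hx : x ∈ U
    · exact hx.imp fun n hn => Or.inl hn
    · exact ⟨0, Or.inr hx⟩
  refine ⟨fun x => Nat.find (hp x), measurable_find hp fun k =>
    ((R.symm.measurable.iterate k) hC).union hUm.compl, fun x hx hn => ?_⟩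
  have hx' : x ∈ U := hx
  have hRx : R x ∈ U := by
    obtain ⟨n, hn'⟩ := hx
    exact ⟨n + 1, by simpa using hn'⟩
  have h2 : ∃ n, R.symm^[n + 1] (R x) ∈ C ∨ R x ∉ U := by
    obtain ⟨n, hn'⟩ := hx
    exact ⟨n, Or.inl (by simpa using hn')⟩
  simp only
  rw [Nat.find_comp_succ (hp (R x)) h2 (by simp [hn, hRx])]
  congr 1
  refine Nat.find_congr' fun {n} => ?_
  simp [hRx, hx']

theorem greedy (R : X ≃ᵐ X) (L : ℕ) {B : ℕ → Set X} (hB : ∀ j, MeasurableSet (B j))
    (hsep : ∀ j, ∀ z ∈ B j, ∀ i, 1 ≤ i → i ≤ L → R^[i] z ∉ B j) :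
    ∃ C, MeasurableSet C ∧ (∀ z ∈ C, ∀ i, 1 ≤ i → i ≤ L → R^[i] z ∉ C) ∧
      ∀ j, ∀ z ∈ B j, ∃ i ≤ L, R^[i] z ∈ C ∨ R.symm^[i] z ∈ C := by
  let C : ℕ → Set X := fun j => Nat.rec ∅
    (fun j D => D ∪ (B j ∩ ⋂ i ∈ Iic L, (R^[i] ⁻¹' D)ᶜ ∩ (R.symm^[i] ⁻¹' D)ᶜ)) j
  have hC : ∀ j z, z ∈ C (j + 1) ↔
      z ∈ C j ∨ (z ∈ B j ∧ ∀ i ≤ L, R^[i] z ∉ C j ∧ R.symm^[i] z ∉ C j) := fun j z => by
    show z ∈ C j ∪ _ ↔ _
    simp [C]
  have hm : ∀ j, MeasurableSet (C j) := fun j => by
    induction j with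
    | zero => exact MeasurableSet.empty
    | succ j ih =>
      exact ih.union ((hB j).inter (MeasurableSet.biInter (to_countable _) fun i _ =>
        ((R.measurable.iterate i) ih).compl.inter ((R.symm.measurable.iterate i) ih).compl))
  have hmono : Monotone C := monotone_nat_of_le_succ fun j z hz => (hC j z).mpr (Or.inl hz)
  have hs : ∀ j, ∀ z ∈ C j, ∀ i, 1 ≤ i → i ≤ L → R^[i] z ∉ C j := fun j => by
    induction j with
    | zero => exact fun z hz => hz.elim
    | succ j ih =>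
      intro z hz i h1 h2 hz'
      rcases (hC j _).mp hz with a | a <;> rcases (hC j _).mp hz' with b | b
      · exact ih z a i h1 h2 b
      · exact (b.2 i h2).2 (by rwa [symm_iter])
      · exact (a.2 i h2).1 b
      · exact hsep j z a.1 i h1 h2 b.1
  refine ⟨⋃ j, C j, MeasurableSet.iUnion hm, fun z hz i h1 h2 hz' => ?_, fun j z hz => ?_⟩
  · obtain ⟨j, hj⟩ := mem_iUnion.mp hz
    obtain ⟨j', hj'⟩ := mem_iUnion.mp hz'
    exact hs (max j j') z (hmono (le_max_left _ _) hj) i h1 h2 (hmono (le_max_right _ _) hj')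
  · by_contra hn
    push Not at hn
    refine (hn 0 (Nat.zero_le _)).1 (mem_iUnion.mpr ⟨j + 1, (hC j z).mpr (Or.inr ⟨hz, fun i hi => ?_⟩)⟩)
    exact ⟨fun h => (hn i hi).1 (mem_iUnion.mpr ⟨j, h⟩), fun h => (hn i hi).2 (mem_iUnion.mpr ⟨j, h⟩)⟩

theorem sep_small {R : X → X} (hR : MeasurePreserving R m m) {C : Set X} (hC : MeasurableSet C)
    {L : ℕ} (h : ∀ z ∈ C, ∀ i, 1 ≤ i → i ≤ L → R^[i] z ∉ C) : m.real C ≤ 1 / (L + 1) := by
  have h1 : ∑ i ∈ Finset.range (L + 1), m.real (R^[i] ⁻¹' C) ≤ 1 := by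
    refine (sum_measureReal_le_measureReal_univ
      (fun i _ => (hR.measurable.iterate i) hC) ?_).trans (by simp)
    have key : ∀ i j, i < j → j ≤ L → Disjoint (R^[i] ⁻¹' C) (R^[j] ⁻¹' C) := by
      intro i j hij hj
      rw [Set.disjoint_left]
      intro x hx hx'
      refine h _ hx (j - i) (by omega) (by omega) ?_
      rwa [← Function.iterate_add_apply, Nat.sub_add_cancel hij.le]
    intro i hi j hj hne
    simp only [Finset.coe_range, mem_Iio] at hi hj
    rcases lt_or_gt_of_ne hne with h2 | h2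
    · exact key i j h2 (by omega)
    · exact (key j i h2 (by omega)).symm
  simp only [fun i => (hR.iterate i).measureReal_preimage hC.nullMeasurableSet, Finset.sum_const,
    Finset.card_range, nsmul_eq_mul] at h1
  rw [le_div_iff₀ (by positivity)]
  push_cast at h1
  linarith

/-- points that do not return within time `L` -/
def NP (R : X → X) (L : ℕ) : Set X := {z | ∀ i, 1 ≤ i → i ≤ L → R^[i] z ≠ z}

theorem meas_NP [StandardBorelSpace X] {R : X → X} (hR : Measurable R) (L : ℕ) :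
    MeasurableSet (NP R L) := by
  have : NP R L = ⋂ i ∈ Icc 1 L, {z | R^[i] z = z}ᶜ := by ext; simp [NP]
  rw [this]
  exact MeasurableSet.biInter (to_countable _) fun i _ =>
    (measurableSet_eq_fun (hR.iterate i) measurable_id).compl

theorem NP_iter (R : X ≃ᵐ X) (L j : ℕ) (z : X) : R^[j] z ∈ NP R L ↔ z ∈ NP R L := by
  refine forall₃_congr fun i _ _ => not_congr ?_
  rw [iter_comm]
  exact (R.injective.iterate j).eq_iff

theorem marker_clock [StandardBorelSpace X] (R : Aut m) (L : ℕ) :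
    ∃ r : X → ℕ, Measurable r ∧
      m.real {z | z ∈ NP R.rep L ∧ r (R.rep z) ≠ r z + 1} ≤ 1 / (L + 1) := by
  classical
  obtain ⟨e, he⟩ := exists_surjective_nat (ℕ × Finset ℕ)
  set φ := MeasurableSpace.mapNatBool X
  have hφ : Measurable φ := MeasurableSpace.measurable_mapNatBool X
  set A : ℕ → Set X := fun j => {z | ∀ t < (e j).1, φ z t = decide (t ∈ (e j).2)} with hA
  have mA : ∀ j, MeasurableSet (A j) := fun j => by
    clear * - X A j e φ hA hφ
    have : A j = ⋂ t ∈ Iio (e j).1, {z | φ z t = decide (t ∈ (e j).2)} := by ext; simp [hA]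
    rw [this]
    exact MeasurableSet.biInter (to_countable _) fun t _ =>
      measurableSet_eq_fun ((measurable_pi_apply t).comp hφ) measurable_const
  obtain ⟨C, hC, hsep, hcov⟩ := greedy R.rep L
    (B := fun j => A j ∩ ⋂ i ∈ Icc 1 L, (R.rep^[i] ⁻¹' A j)ᶜ)
    (fun j => (mA j).inter (MeasurableSet.biInter (to_countable _) fun i _ =>
      ((R.rep.measurable.iterate i) (mA j)).compl))
    (fun j z hz i h1 h2 hz' => (mem_iInter₂.mp hz.2) i ⟨h1, h2⟩ hz'.1)
  obtain ⟨r, hr, hr'⟩ := clock_of_set R.rep hC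
  refine ⟨r, hr, (measureReal_mono (s₂ := R.rep ⁻¹' C) fun z hz => ?_).trans ?_⟩
  · by_contra hn
    refine hz.2 (hr' z ?_ hn)
    set y := R.rep.symm^[L] z with hy
    have hy' : y ∈ NP R.rep L := (NP_iter R.rep L L y).mp (by rw [hy, iter_symm]; exact hz.1)
    have h1 : ∀ i ∈ Icc 1 L, ∀ᶠ k in atTop, ∃ t < k, φ (R.rep^[i] y) t ≠ φ y t := by
      intro i hi
      obtain ⟨t, ht⟩ := Function.ne_iff.mp
        ((MeasurableSpace.injective_mapNatBool X).ne (hy' i hi.1 hi.2))
      filter_upwards [eventually_gt_atTop t] with k hk using ⟨t, hk, ht⟩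
    obtain ⟨k, hk⟩ := ((eventually_all_finite (finite_Icc 1 L)).mpr h1).exists
    obtain ⟨j, hj⟩ := he (k, (Finset.range k).filter fun t => φ y t = true)
    have h2 : ∀ w, w ∈ A j ↔ ∀ t < k, φ w t = φ y t := fun w => by
      simp only [hA, hj, mem_ofPred_eq]
      exact forall₂_congr fun t ht => by simp [ht]
    obtain ⟨i, hi, h3⟩ := hcov j y ⟨(h2 y).mpr fun _ _ => rfl, mem_iInter₂.mpr fun i hi h => by
      obtain ⟨t, ht, ht'⟩ := hk i hi
      exact ht' ((h2 _).mp h t ht)⟩
    rcases h3 with h3 | h3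
    · refine ⟨L - i, ?_⟩
      rwa [hy, ← Nat.add_sub_of_le hi, Function.iterate_add_apply, iter_symm] at h3
    · exact ⟨i + L, by rwa [Function.iterate_add_apply]⟩
  · rw [R.mp.measureReal_preimage hC.nullMeasurableSet]
    exact sep_small R.mp hC hsep

/-- arbitrarily good clocks exist -/
def Clock (R : Aut m) : Prop :=
  ∀ c : ℝ, 0 < c → ∃ r : X → ℕ, Measurable r ∧ m.real {x | r (R.rep x) ≠ r x + 1} ≤ c

theorem clock_of_aperiodic [StandardBorelSpace X] {R : Aut m}
    (h : ∀ p, 1 ≤ p → m {x | R.rep^[p] x = x} = 0) : Clock R := by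
  intro c hc
  obtain ⟨L, hL⟩ := exists_nat_one_div_lt hc
  obtain ⟨r, hr, hr'⟩ := marker_clock R L
  refine ⟨r, hr, le_trans (le_of_eq (measureReal_congr ?_)) (hr'.trans hL.le)⟩
  have h1 : ∀ᵐ x ∂m, ∀ p, 1 ≤ p → R.rep^[p] x ≠ x :=
    ae_all_iff.mpr fun p => by
      by_cases hp : 1 ≤ p
      · filter_upwards [measure_eq_zero_iff_ae_notMem.mp (h p hp)] with x hx _ using hx
      · simp [hp]
  filter_upwards [h1] with x hx
  exact propext ⟨fun h => ⟨fun i h1 _ => hx i h1, h⟩, fun h => h.2⟩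

end Pool.Agent.Work.MP_2967d5_an
end
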