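import Pool.Agent.Work.MP_2967d5_an.Defs

/-! Partially rigid transformations. -/

open MeasureTheory Set Filter
open scoped ENNReal

namespace Pool.Agent.Work.MP_2967d5_an

/-- `R` is partially rigid on an invariant set `D` of positive measure: along a sequence
`n k → ∞`, `liminf μ (A ∩ R^{-n k} A) ≥ α μ A` for all measurable `A ⊆ D`, with a fixed `α > 0`. -/
def PartiallyRigid {Z : Type*} [MeasurableSpace Z] {μ : Measure Z} (R : Aut μ) : Prop :=
  ∃ (D : Set Z) (α : ℝ≥0∞) (n : ℕ → ℕ), MeasurableSet D ∧ R.rep ⁻¹' D =ᵐ[μ] D ∧ 0 < μ D ∧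
    0 < α ∧ StrictMono n ∧ ∀ A : Set Z, MeasurableSet A → A ⊆ D →
      α * μ A ≤ liminf (fun k => μ (A ∩ R.rep^[n k] ⁻¹' A)) atTop

end Pool.Agent.Work.MP_2967d5_an
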