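import Mathlib
import Pool.Agent.Work.MP_2967d5_an.C.Clock
import Pool.Agent.Work.MP_2967d5_an.C.Defs

-- merged part: Pool.Agent.Work.MP_2967d5_an.C.Count
section
/-! Finite combinatorics: random colourings and codes with few coincidences. -/

open Finset

namespace Pool.Agent.Work.MP_2967d5_an

theorem card_forced {I : Type} [Fintype I] [DecidableEq I] (K : ℕ) (A : Finset I) (f : I → I)
    (ρ : I → ℕ) (h : ∀ a ∈ A, f a ∉ A ∨ ρ (f a) < ρ a) :
    #{σ : I → Fin K | ∀ a ∈ A, σ a = σ (f a)} * K ^ #A ≤ K ^ Fintype.card I := by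
  have h1 : #{σ : I → Fin K | ∀ a ∈ A, σ a = σ (f a)} ≤
      #(univ : Finset ({i // i ∉ A} → Fin K)) := by
    refine card_le_card_of_injOn (fun σ i => σ i.1) (fun _ _ => mem_coe.mpr (mem_univ _)) ?_
    intro σ hσ σ' hσ' he
    simp only [coe_filter, mem_univ, true_and, Set.mem_ofPred_eq] at hσ hσ'
    have key : ∀ n i, ρ i < n → σ i = σ' i := by
      intro n
      induction n with
      | zero => intro i hi; omega
      | succ n ih =>
        intro i hi
        by_cases hA : i ∈ A
        · rw [hσ i hA, hσ' i hA]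
          rcases h i hA with h2 | h2
          · exact congrFun he ⟨_, h2⟩
          · exact ih _ (by omega)
        · exact congrFun he ⟨_, hA⟩
    exact funext fun i => key _ i (Nat.lt_succ_self _)
  rw [card_univ, Fintype.card_fun, Fintype.card_fin, Fintype.card_subtype_compl,
    Fintype.card_coe] at h1
  calc _ ≤ K ^ (Fintype.card I - #A) * K ^ #A := Nat.mul_le_mul_right _ h1
    _ = _ := by rw [← pow_add, Nat.sub_add_cancel (card_le_univ A)]

/-- the coincidences of two code words at a shift -/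
def Coin {C : Type} [DecidableEq C] (σ : C → ℕ → ℕ) (T : ℕ) (u v : C) (e : ℕ) : Finset ℕ :=
  {t ∈ range T | t + e < T ∧ (u, t + e) ≠ (v, t) ∧ σ u (t + e) = σ v t}

theorem exists_code {C : Type} [Fintype C] [DecidableEq C] (V : Finset C) {K T s : ℕ}
    (hV : #V ≤ 2 ^ T) (hK : 2 ^ (4 * T) < K ^ s) (hK0 : 0 < K) :
    ∃ σ : C → ℕ → ℕ, (∀ u t, σ u t < K) ∧ ∀ u ∈ V, ∀ v ∈ V, ∀ e, #(Coin σ T u v e) ≤ s := by
  classical
  set ext : (C × Fin T → Fin K) → C → ℕ → ℕ :=
    fun σ u t => if h : t < T then (σ (u, ⟨t, h⟩) : ℕ) else 0 with hext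
  set N := Fintype.card (C × Fin T)
  set Bad : C → C → ℕ → Finset ℕ → Finset (C × Fin T → Fin K) :=
    fun u v e S => {σ | S ⊆ Coin (ext σ) T u v e} with hBad
  have h1 : ∀ u v e S, #S = s → #(Bad u v e S) * K ^ s ≤ K ^ N := by
    clear * - C s T K Bad N ext hBad V hext
    intro u v e S hS
    rcases (Bad u v e S).eq_empty_or_nonempty with h0 | ⟨σ₀, h0⟩
    · simp [h0]
    simp only [hBad, mem_filter, mem_univ, true_and] at h0
    have hS' : ∀ t ∈ S, t + e < T ∧ (u, t + e) ≠ (v, t) := fun t ht => by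
      have := h0 ht
      simp only [Coin, mem_filter] at this
      exact ⟨this.2.1, this.2.2.1⟩
    set A : Finset (C × Fin T) := S.attach.image fun t => (u, ⟨t.1 + e, (hS' t.1 t.2).1⟩) with hA
    have hAc : #A = s := by
      rw [hA, card_image_of_injective, card_attach, hS]
      intro t t' h
      simp only [Prod.mk.injEq, Fin.mk.injEq, true_and] at h
      exact Subtype.ext (by omega)
    rw [← hAc]
    refine le_trans (Nat.mul_le_mul_right _ (card_le_card ?_)) (card_forced K A
      (fun a => (v, ⟨a.2.1 - e, lt_of_le_of_lt (Nat.sub_le _ _) a.2.2⟩)) (fun a => a.2.1) ?_)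
    · intro σ hσ
      simp only [hBad, mem_filter, mem_univ, true_and] at hσ ⊢
      intro a ha
      obtain ⟨t, -, rfl⟩ := mem_image.mp ha
      have := hσ t.2
      simp only [Coin, mem_filter, mem_range, hext] at this
      obtain ⟨a1, a2, -, a3⟩ := this
      rw [dif_pos a1, dif_pos a2] at a3
      refine Fin.ext (a3.trans ?_)
      simp
    · intro a ha
      obtain ⟨t, -, rfl⟩ := mem_image.mp ha
      rcases Nat.eq_zero_or_pos e with rfl | he
      · left
        intro hb
        obtain ⟨t', -, h2⟩ := mem_image.mp hb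
        have h3 : u = v := congrArg Prod.fst h2
        exact (hS' t.1 t.2).2 (by rw [h3, add_zero])
      · right
        simp only
        omega
  set All := (V ×ˢ V ×ˢ range T ×ˢ powersetCard s (range T)).biUnion
    fun p => Bad p.1 p.2.1 p.2.2.1 p.2.2.2 with hAll
  have h2 : #All * K ^ s ≤ 2 ^ (4 * T) * K ^ N := by
    clear * - C T K V s Bad N h1 hV
    calc _ ≤ (∑ p ∈ V ×ˢ V ×ˢ range T ×ˢ powersetCard s (range T),
          #(Bad p.1 p.2.1 p.2.2.1 p.2.2.2)) * K ^ s := Nat.mul_le_mul_right _ card_biUnion_le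
      _ ≤ ∑ p ∈ V ×ˢ V ×ˢ range T ×ˢ powersetCard s (range T), K ^ N := by
          rw [sum_mul]
          refine sum_le_sum fun p hp => h1 _ _ _ _ ?_
          simp only [mem_product, mem_powersetCard] at hp
          exact hp.2.2.2.2
      _ ≤ _ := by
          rw [sum_const, smul_eq_mul]
          refine Nat.mul_le_mul_right _ ?_
          simp only [card_product, card_range, card_powersetCard]
          have a1 : T ≤ 2 ^ T := Nat.lt_two_pow_self.le
          have a2 : T.choose s ≤ 2 ^ T := Nat.choose_le_two_pow _ _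
          calc _ ≤ 2 ^ T * (2 ^ T * (2 ^ T * 2 ^ T)) := by gcongr
            _ = _ := by ring
  have h3 : #All < #(univ : Finset (C × Fin T → Fin K)) := by
    rw [card_univ, Fintype.card_fun, Fintype.card_fin]
    refine lt_of_mul_lt_mul_right (h2.trans_lt ?_) (Nat.zero_le (K ^ s))
    rw [mul_comm]
    exact Nat.mul_lt_mul_of_pos_left hK (pow_pos hK0 _)
  obtain ⟨σ, -, hσ⟩ := exists_mem_notMem_of_card_lt_card h3
  refine ⟨ext σ, fun u t => ?_, fun u hu v hv e => ?_⟩
  · simp only [hext]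
    split_ifs
    exacts [Fin.is_lt _, hK0]
  · by_contra hn
    obtain ⟨S, hS, hS'⟩ := exists_subset_card_eq (not_le.mp hn).le
    obtain ⟨t, ht⟩ := card_pos.mp ((Nat.zero_le _).trans_lt (not_le.mp hn))
    simp only [Coin, mem_filter] at ht
    refine hσ (mem_biUnion.mpr ⟨(u, v, e, S), ?_, ?_⟩)
    · simp only [mem_product, mem_powersetCard, mem_range]
      exact ⟨hu, hv, by omega, hS.trans (filter_subset _ _), hS'⟩
    · simpa [hBad] using hS

open Classical in
theorem coin_pos {C : Type} {σ : C → ℕ → ℕ} {T H s : ℕ} {u v : C} (hH : 0 < H)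
    (h : ∀ e, #(Coin σ T u v e) ≤ s) (d : ℕ) :
    #{p ∈ range (T * H) | p + d < T * H ∧ (u, (p + d) / H) ≠ (v, p / H) ∧
      σ u ((p + d) / H) = σ v (p / H)} ≤ 2 * (s * H) := by
  have key : ∀ e, #{p ∈ range (T * H) | p / H ∈ Coin σ T u v e} ≤ s * H := by
    intro e
    refine (card_le_mul_card_image_of_maps_to (t := Coin σ T u v e) (f := fun p => p / H)
      (fun p hp => (mem_filter.mp hp).2) H fun t _ => ?_).trans ?_
    · refine (card_le_card_of_injOn (t := range H) (fun p => p % H)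
        (fun p _ => mem_coe.mpr (mem_range.mpr (Nat.mod_lt _ hH))) ?_).trans (card_range H).le
      intro p hp p' hp' he
      have a1 := (mem_filter.mp (mem_coe.mp hp)).2
      have a2 := (mem_filter.mp (mem_coe.mp hp')).2
      rw [← Nat.div_add_mod p H, ← Nat.div_add_mod p' H, a1, a2]
      exact congrArg _ he
    · rw [mul_comm]
      exact Nat.mul_le_mul_right _ (h e)
  refine (card_le_card (t := {p ∈ range (T * H) | p / H ∈ Coin σ T u v (d / H)} ∪
    {p ∈ range (T * H) | p / H ∈ Coin σ T u v (d / H + 1)}) fun p hp => ?_).trans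
    ((card_union_le _ _).trans (by linarith only [key, key (d / H), key (d / H + 1)]))
  simp only [mem_filter, mem_range, mem_union, Coin] at hp ⊢
  obtain ⟨a1, a2, a3, a4⟩ := hp
  have b1 : p / H < T := Nat.div_lt_of_lt_mul (by rwa [mul_comm])
  have b2 : (p + d) / H < T := Nat.div_lt_of_lt_mul (by rwa [mul_comm])
  rw [Nat.add_div hH] at a3 a4 b2
  split_ifs at a3 a4 b2
  · exact Or.inr ⟨a1, b1, b2, a3, a4⟩
  · exact Or.inl ⟨a1, b1, b2, a3, a4⟩

open Classical in
/-- Coincidences along a window: both sequences run through at most two code words. -/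
theorem coin_window {C : Type} {σ : C → ℕ → ℕ} {T H s : ℕ} {V : Finset C} (hH : 0 < H)
    (h : ∀ u ∈ V, ∀ v ∈ V, ∀ e, #(Coin σ T u v e) ≤ s) (a b : ℕ) (c c' : ℤ → C) :
    #{i ∈ range (T * H) | c ((i : ℕ) - ((a + i) % (T * H) : ℕ)) ∈ V ∧
      c' (i - ((b + i) % (T * H) : ℕ)) ∈ V ∧
      (c (i - ((a + i) % (T * H) : ℕ)), (a + i) % (T * H) / H) ≠
        (c' (i - ((b + i) % (T * H) : ℕ)), (b + i) % (T * H) / H) ∧
      σ (c (i - ((a + i) % (T * H) : ℕ))) ((a + i) % (T * H) / H) =
        σ (c' (i - ((b + i) % (T * H) : ℕ))) ((b + i) % (T * H) / H)} ≤ 8 * (s * H) := by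
  set W := T * H with hW
  have piece : ∀ α β : ℤ, #{i ∈ range W | ∃ p q : ℕ, p < W ∧ q < W ∧ ((i : ℕ) : ℤ) - p = α ∧
      (i : ℤ) - q = β ∧ c α ∈ V ∧ c' β ∈ V ∧ (c α, p / H) ≠ (c' β, q / H) ∧
      σ (c α) (p / H) = σ (c' β) (q / H)} ≤ 2 * (s * H) := by
    intro α β
    by_cases hV : c α ∈ V ∧ c' β ∈ V
    swap
    · rw [filter_false_of_mem (by grind)]
      simp
    rcases le_total α β with hab | hab
    · refine (card_le_card_of_injOn (fun i : ℕ => ((i : ℤ) - β).toNat) ?_ ?_).trans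
        (coin_pos hH (h _ hV.1 _ hV.2) (β - α).toNat)
      · intro i hi
        obtain ⟨-, p, q, h1, h2, h3, h4, -, -, h5, h6⟩ := mem_filter.mp (mem_coe.mp hi)
        have e1 : ((i : ℤ) - β).toNat = q := by omega
        have e2 : q + (β - α).toNat = p := by omega
        simp only [coe_filter, mem_range, Set.mem_ofPred_eq, e1, e2]
        exact ⟨h2, h1, h5, h6⟩
      · intro i hi j hj he
        obtain ⟨-, p, q, h1, h2, h3, h4, -⟩ := mem_filter.mp (mem_coe.mp hi)
        obtain ⟨-, p', q', h1', h2', h3', h4', -⟩ := mem_filter.mp (mem_coe.mp hj)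
        simp only at he
        clear * - i j T H α β he p q h4 p' q' h4'
        omega
    · refine (card_le_card_of_injOn (fun i : ℕ => ((i : ℤ) - α).toNat) ?_ ?_).trans
        (coin_pos hH (h _ hV.2 _ hV.1) (α - β).toNat)
      · intro i hi
        obtain ⟨-, p, q, h1, h2, h3, h4, -, -, h5, h6⟩ := mem_filter.mp (mem_coe.mp hi)
        have e1 : ((i : ℤ) - α).toNat = p := by omega
        have e2 : p + (α - β).toNat = q := by omega
        simp only [coe_filter, mem_range, Set.mem_ofPred_eq, e1, e2]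
        exact ⟨h1, h2, h5.symm, h6.symm⟩
      · intro i hi j hj he
        obtain ⟨-, p, q, h1, h2, h3, h4, -⟩ := mem_filter.mp (mem_coe.mp hi)
        obtain ⟨-, p', q', h1', h2', h3', h4', -⟩ := mem_filter.mp (mem_coe.mp hj)
        simp only at he
        omega
  have base : ∀ a i : ℕ, i < W → (i : ℤ) - ((a + i) % W : ℕ) ∈
      ({-((a % W : ℕ) : ℤ), W - ((a % W : ℕ) : ℤ)} : Finset ℤ) := by
    intro a i hi
    have h1 : a % W < W := Nat.mod_lt _ (by omega)
    rw [← Nat.mod_add_mod]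
    simp only [mem_insert, mem_singleton]
    rcases lt_or_ge (a % W + i) W with h2 | h2
    · rw [Nat.mod_eq_of_lt h2]
      omega
    · rw [Nat.mod_eq_sub_mod h2, Nat.mod_eq_of_lt (by omega)]
      omega
  refine (card_le_card (t := (({-((a % W : ℕ) : ℤ), W - ((a % W : ℕ) : ℤ)} : Finset ℤ) ×ˢ
    ({-((b % W : ℕ) : ℤ), W - ((b % W : ℕ) : ℤ)} : Finset ℤ)).biUnion fun x =>
      {i ∈ range W | ∃ p q : ℕ, p < W ∧ q < W ∧ ((i : ℕ) : ℤ) - p = x.1 ∧
      (i : ℤ) - q = x.2 ∧ c x.1 ∈ V ∧ c' x.2 ∈ V ∧ (c x.1, p / H) ≠ (c' x.2, q / H) ∧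
      σ (c x.1) (p / H) = σ (c' x.2) (q / H)}) fun i hi => ?_).trans
    ((card_biUnion_le_card_mul _ _ _ fun x _ => piece x.1 x.2).trans ?_)
  · obtain ⟨h1, h2⟩ := mem_filter.mp hi
    have h3 := mem_range.mp h1
    exact mem_biUnion.mpr ⟨(_, _), mem_product.mpr ⟨base a i h3, base b i h3⟩, mem_filter.mpr
      ⟨h1, _, _, Nat.mod_lt _ (by omega), Nat.mod_lt _ (by omega), rfl, rfl, h2⟩⟩
  · rw [card_product]
    calc _ ≤ 2 * 2 * (2 * (s * H)) := by gcongr <;> exact card_le_two
      _ = _ := by ring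

open Classical in
theorem card_codes {ι Γ : Type} [Fintype ι] [Fintype Γ] [Nonempty ι] [Nonempty Γ] (J k : ℕ) :
    #{u : Fin J → ι ⊕ Γ | #{j | (u j).isRight} ≤ k} ≤
      (2 * Fintype.card ι) ^ J * Fintype.card Γ ^ k := by
  have h0 : 0 < Fintype.card Γ := Fintype.card_pos
  have h1 : 0 < Fintype.card ι := Fintype.card_pos
  set a : ι ⊕ Γ → ℕ := fun x => if x.isRight then 1 else Fintype.card Γ with ha
  have h2 : ∑ x, a x ≤ 2 * Fintype.card ι * Fintype.card Γ := by
    clear * - ι Γ a ha h1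
    simp only [ha, Fintype.sum_sum_type, Sum.isRight_inl, Sum.isRight_inr, Bool.false_eq_true,
      if_false, if_true, sum_const, card_univ, smul_eq_mul]
    nlinarith only [h1]
  have h3 : ∀ u ∈ ({u : Fin J → ι ⊕ Γ | #{j | (u j).isRight} ≤ k} : Finset _),
      Fintype.card Γ ^ J ≤ (∏ j, a (u j)) * Fintype.card Γ ^ k := by
    intro u hu
    have := (mem_filter.mp hu).2
    have h4 := card_filter_add_card_filter_not (s := (univ : Finset (Fin J)))
      (fun j => (u j).isRight = true)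
    rw [card_univ, Fintype.card_fin] at h4
    simp only [ha]
    rw [prod_ite, prod_const_one, one_mul, prod_const, ← pow_add]
    exact Nat.pow_le_pow_right h0 (by omega)
  have h5 := card_nsmul_le_sum _ _ _ h3
  rw [smul_eq_mul, ← sum_mul] at h5
  have h6 : ∑ u : Fin J → ι ⊕ Γ, ∏ j, a (u j) = (∑ x, a x) ^ J := by
    rw [← Fin.prod_const, Finset.prod_univ_sum]
    simp
  refine Nat.le_of_mul_le_mul_right (h5.trans ?_) (pow_pos h0 J)
  calc _ ≤ (∑ u : Fin J → ι ⊕ Γ, ∏ j, a (u j)) * Fintype.card Γ ^ k :=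
        Nat.mul_le_mul_right _ (sum_le_sum_of_subset (filter_subset _ _))
    _ ≤ (2 * Fintype.card ι * Fintype.card Γ) ^ J * Fintype.card Γ ^ k := by
        rw [h6]
        gcongr
    _ = _ := by rw [mul_pow]; ring

theorem sum_collision {Γ : Type} [Fintype Γ] [DecidableEq Γ] {K : ℕ} (hK : 0 < K) {q : Γ → ℝ}
    {θ : ℝ} (h0 : ∀ v, 0 ≤ q v) (h1 : ∀ v, q v ≤ θ) (h2 : ∑ v, q v ≤ 1) (hθ : 0 ≤ θ) :
    ∑ σ : Γ → Fin K, ∑ v, ∑ w, (if σ v = σ w then q v * q w else 0) ≤
      (K : ℝ) ^ Fintype.card Γ * (θ + 1 / K) := by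
  have hK' : (0 : ℝ) < K := by exact_mod_cast hK
  set N : ℝ := (K : ℝ) ^ Fintype.card Γ with hN
  have hN0 : 0 ≤ N := by positivity
  have key : ∀ v w, ∑ σ : Γ → Fin K, (if σ v = σ w then q v * q w else 0) ≤
      (if v = w then N * (q v * θ) else 0) + N / K * (q v * q w) := by
    intro v w
    have hq := mul_nonneg (h0 v) (h0 w)
    rw [← sum_filter, sum_const, nsmul_eq_mul]
    split_ifs with hvw
    · have a1 : (#{σ : Γ → Fin K | σ v = σ w} : ℝ) ≤ N := by
        have := card_le_univ ({σ : Γ → Fin K | σ v = σ w} : Finset _)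
        rw [Fintype.card_fun, Fintype.card_fin] at this
        rw [hN]
        exact_mod_cast this
      have a2 : q v * q w ≤ q v * θ := mul_le_mul_of_nonneg_left (h1 w) (h0 v)
      have a3 : 0 ≤ N / K * (q v * q w) := by positivity
      clear * - Γ K v w q N θ a3 a1 a2 hq hN0
      linarith only [a3, a1, a2, hq, hN0, mul_le_mul a1 a2 hq hN0]
    · have := card_forced K {v} (fun _ => w) (fun _ => 0) (by simp [Ne.symm hvw])
      simp only [mem_singleton, forall_eq, card_singleton, pow_one] at this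
      rw [zero_add]
      refine mul_le_mul_of_nonneg_right ?_ hq
      rw [le_div_iff₀ hK', hN]
      exact_mod_cast this
  rw [sum_comm]
  have hs0 : 0 ≤ ∑ v, q v := sum_nonneg fun v _ => h0 v
  calc _ = ∑ v, ∑ w, ∑ σ : Γ → Fin K, (if σ v = σ w then q v * q w else 0) :=
        sum_congr rfl fun v _ => sum_comm
    _ ≤ ∑ v, ∑ w, ((if v = w then N * (q v * θ) else 0) + N / K * (q v * q w)) :=
        sum_le_sum fun v _ => sum_le_sum fun w _ => key v w
    _ = N * θ * ∑ v, q v + N / K * ((∑ v, q v) * ∑ v, q v) := by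
        rw [sum_mul_sum]
        simp only [sum_add_distrib, sum_ite_eq, mem_univ, if_true, mul_sum]
        congr 1
        exact sum_congr rfl fun v _ => by ring
    _ ≤ N * θ * 1 + N / K * (1 * 1) := by clear * - N θ Γ q K h2 hK hθ hs0; gcongr
    _ = _ := by ring

end Pool.Agent.Work.MP_2967d5_an
end

-- merged part: Pool.Agent.Work.MP_2967d5_an.C.Hash
section
/-! Counting lemmas for measures; a colouring that cannot be guessed from a sub-σ-algebra. -/

open MeasureTheory Set Filter Topology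
open scoped ENNReal

set_option linter.unusedSectionVars false

namespace Pool.Agent.Work.MP_2967d5_an

variable {X : Type*} {F : MeasurableSpace X} [mX : MeasurableSpace X] {m : Measure X}
  [IsProbabilityMeasure m]

open Classical in
theorem sum_real_eq {ι : Type*} (s : Finset ι) {A : ι → Set X} (hA : ∀ j, MeasurableSet (A j)) :
    Integrable (fun x => ((s.filter (x ∈ A ·)).card : ℝ)) m ∧
      ∑ j ∈ s, m.real (A j) = ∫ x, ((s.filter (x ∈ A ·)).card : ℝ) ∂m := by
  have e : (fun x => ((s.filter (x ∈ A ·)).card : ℝ)) =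
      fun x => ∑ j ∈ s, (A j).indicator 1 x := by
    funext x
    simp [indicator]
  rw [e, integral_finsetSum _ fun j _ => (bd_indicator (hA j)).integrable m]
  exact ⟨integrable_finsetSum _ fun j _ => (bd_indicator (hA j)).integrable m,
    by simp only [integral_indicator_one (hA _)]⟩

open Classical in
theorem markov_card {ι : Type*} (s : Finset ι) {A : ι → Set X} (hA : ∀ j, MeasurableSet (A j))
    {D : Set X} (hD : MeasurableSet D) {k : ℕ} (h : ∀ x ∈ D, k ≤ (s.filter (x ∈ A ·)).card) :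
    k * m.real D ≤ ∑ j ∈ s, m.real (A j) := by
  rw [(sum_real_eq s hA).2, ← integral_indicator_one hD, ← integral_const_mul]
  refine integral_mono (((bd_indicator hD).integrable m).const_mul _) (sum_real_eq s hA).1
    fun x => ?_
  by_cases hx : x ∈ D
  · simpa [hx] using h x hx
  · simp [hx]

open Classical in
theorem sum_le_card {ι : Type*} (s : Finset ι) {A : ι → Set X} (hA : ∀ j, MeasurableSet (A j))
    {D : Set X} (hD : MeasurableSet D) {k : ℕ} (h : ∀ x ∉ D, (s.filter (x ∈ A ·)).card ≤ k) :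
    ∑ j ∈ s, m.real (A j) ≤ k + s.card * m.real D := by
  have i1 := ((bd_indicator hD).integrable m).const_mul (s.card : ℝ)
  rw [(sum_real_eq s hA).2]
  refine (integral_mono (sum_real_eq s hA).1 ((integrable_const (k : ℝ)).fun_add i1)
    fun x => ?_).trans (le_of_eq ?_)
  · by_cases hx : x ∈ D
    · have : ((s.filter (x ∈ A ·)).card : ℝ) ≤ s.card := by exact_mod_cast Finset.card_filter_le _ _
      simp only [indicator_of_mem hx, Pi.one_apply, mul_one]
      linarith [Nat.cast_nonneg (α := ℝ) k]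
    · simpa [hx] using h x hx
  · rw [integral_add (integrable_const _) i1, integral_const_mul, integral_indicator_one hD]
    simp

theorem meas_pick {r : X → ℕ} (hr : Measurable r) {D : ℕ → Set X} (hD : ∀ p, MeasurableSet (D p)) :
    MeasurableSet {z | z ∈ D (r z)} := by
  have : {z | z ∈ D (r z)} = ⋃ p, {z | r z = p} ∩ D p := by ext; simp
  rw [this]
  exact MeasurableSet.iUnion fun p => (meas_pred hr (· = p)).inter (hD p)

theorem residue {r : X → ℕ} (hr : Measurable r) {W : ℕ} {D : ℕ → Set X}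
    (hD : ∀ p, MeasurableSet (D p)) :
    ∑ s ∈ Finset.range W, m.real {z | z ∈ D ((r z + s) % W)} ≤
      ∑ p ∈ Finset.range W, m.real (D p) := by
  classical
  have h1 := sum_real_eq (m := m) (Finset.range W) fun s => meas_pick
    ((Measurable.of_discrete (f := fun ρ => (ρ + s) % W)).comp hr) hD
  have h2 := sum_real_eq (m := m) (Finset.range W) hD
  refine h1.2.trans_le ((integral_mono h1.1 h2.1 fun x => ?_).trans h2.2.ge)
  refine Nat.cast_le.mpr (Finset.card_le_card_of_injOn (fun s => (r x + s) % W) ?_ ?_)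
  · intro s hs
    simp only [Finset.coe_filter, Finset.mem_range, mem_ofPred_eq] at hs ⊢
    exact ⟨Nat.mod_lt _ (by omega), hs.2⟩
  · intro s hs s' hs' he
    simp only [Finset.coe_filter, Finset.mem_range, mem_ofPred_eq] at hs hs'
    exact Nat.ModEq.eq_of_lt_of_lt (Nat.ModEq.add_left_cancel' _ he) hs.1 hs'.1

variable {Γ : Type} [Fintype Γ] [MeasurableSpace Γ] [DiscreteMeasurableSpace Γ] {N : X → Γ}

/-- conditional probability of a value -/
noncomputable def cp (m : Measure X) (F : MeasurableSpace X) (N : X → Γ) (v : Γ) : X → ℝ :=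
  m[(N ⁻¹' {v}).indicator (1 : X → ℝ) | F]

theorem cp_nonneg : ∀ᵐ x ∂m, ∀ v, 0 ≤ cp m F N v x :=
  ae_all_iff.mpr fun _ => condExp_nonneg
    (Eventually.of_forall fun _ => indicator_nonneg (fun _ _ => zero_le_one) _)

theorem int_ind (hN : Measurable N) (v : Γ) : Integrable ((N ⁻¹' {v}).indicator (1 : X → ℝ)) m :=
  (bd_indicator (hN MeasurableSet.of_discrete)).integrable m

theorem cp_sum (hF : F ≤ mX) (hN : Measurable N) : ∀ᵐ x ∂m, ∑ v, cp m F N v x = 1 := by
  classical
  have h := condExp_finsetSum (s := Finset.univ) (fun v _ => int_ind (m := m) hN v) F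
  have e : ∑ v, (N ⁻¹' {v}).indicator (1 : X → ℝ) = fun _ => 1 := by
    funext x
    simp [indicator]
  rw [e, condExp_const hF] at h
  filter_upwards [h] with x hx
  simpa [cp] using hx.symm

theorem meas_cp (v : Γ) : Measurable[F] (cp m F N v) := stronglyMeasurable_condExp.measurable

theorem meas_cp_own (hF : F ≤ mX) (hN : Measurable N) : Measurable fun x => cp m F N (N x) x :=
  (measurable_from_prod_countable_left (f := fun p : X × Γ => cp m F N p.2 p.1)
    fun v => (meas_cp v).mono hF le_rfl).comp (measurable_id.prodMk hN)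

theorem exists_hash (hF : F ≤ mX) (hN : Measurable N) {K : ℕ} (hK : 0 < K) {θ lam : ℝ}
    (hθ : 0 ≤ θ) (hl : 0 < lam) (s : Finset ℕ) {G : ℕ → Set X} (hG : ∀ p, MeasurableSet[F] (G p))
    (hs : ∑ p ∈ s, m.real (G p) ≤ 1) :
    ∃ σ : Γ → Fin K, ∀ c : ℕ → X → Fin K, (∀ p, Measurable[F] (c p)) →
      ∑ p ∈ s, m.real {b | b ∈ G p ∧ σ (N b) = c p b ∧ cp m F N (N b) b ≤ θ} ≤
        lam / 2 + (θ + 1 / K) / (2 * lam) := by
  classical
  set q : Γ → X → ℝ := fun v b => if 0 ≤ cp m F N v b ∧ cp m F N v b ≤ min θ 1 then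
    cp m F N v b else 0 with hq
  have mqF : ∀ v, MeasurableSet[F] {b | 0 ≤ cp m F N v b ∧ cp m F N v b ≤ min θ 1} := fun v =>
    (@measurableSet_le _ _ _ _ _ F _ _ _ _ _ measurable_const (meas_cp v)).inter
      (@measurableSet_le _ _ _ _ _ F _ _ _ _ _ (meas_cp v) measurable_const)
  have q0 : ∀ v b, 0 ≤ q v b ∧ q v b ≤ min θ 1 := fun v b => by
    simp only [hq]
    split_ifs with h
    exacts [h, ⟨le_rfl, le_min hθ zero_le_one⟩]
  have bq : ∀ v, Bd (q v) := fun v => ⟨Measurable.ite (hF _ (mqF v)) ((meas_cp v).mono hF le_rfl)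
    measurable_const, fun b => by
      rw [abs_of_nonneg (q0 v b).1]; exact (q0 v b).2.trans (min_le_right _ _)⟩
  set Φ : (Γ → Fin K) → X → ℝ := fun σ b => ∑ v, ∑ w, if σ v = σ w then q v b * q w b else 0
    with hΦ
  have iΦ : ∀ σ, Integrable (Φ σ) m := fun σ => integrable_finsetSum _ fun v _ =>
    integrable_finsetSum _ fun w _ => by
      split_ifs
      exacts [((bq v).mul (bq w)).integrable m, integrable_const _]
  have h1 : ∀ᵐ b ∂m, ∑ σ, Φ σ b ≤ (K : ℝ) ^ Fintype.card Γ * (θ + 1 / K) := by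
    filter_upwards [cp_nonneg (F := F) (N := N), cp_sum hF hN] with b h0 h1
    refine sum_collision hK (fun v => (q0 v b).1) (fun v => (q0 v b).2.trans (min_le_left _ _))
      (le_trans (Finset.sum_le_sum fun v _ => ?_) h1.le) hθ
    simp only [hq]
    split_ifs
    exacts [le_rfl, h0 v]
  have hK' : (0 : ℝ) < K := by exact_mod_cast hK
  obtain ⟨σ, -, hσ⟩ := Finset.exists_le_of_sum_le (s := Finset.univ)
    (f := fun σ => ∑ p ∈ s, ∫ b in G p, Φ σ b ∂m) (g := fun _ => θ + 1 / K)
    ⟨fun _ => ⟨0, hK⟩, Finset.mem_univ _⟩ (by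
      rw [Finset.sum_comm, Finset.sum_const, Finset.card_univ, Fintype.card_fun, Fintype.card_fin,
        nsmul_eq_mul, Nat.cast_pow]
      refine le_trans (Finset.sum_le_sum (g := fun p => m.real (G p) *
        ((K : ℝ) ^ Fintype.card Γ * (θ + 1 / K))) fun p _ => ?_) ?_
      · rw [← integral_finsetSum _ fun σ _ => (iΦ σ).integrableOn]
        refine (integral_mono_ae (integrable_finsetSum _ fun σ _ => (iΦ σ).integrableOn)
          (integrable_const _) (ae_restrict_of_ae h1)).trans (le_of_eq ?_)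
        simp
      · rw [← Finset.sum_mul]
        exact mul_le_of_le_one_left (by positivity) hs)
  refine ⟨σ, fun c hc => ?_⟩
  have key : ∀ p, m.real {b | b ∈ G p ∧ σ (N b) = c p b ∧ cp m F N (N b) b ≤ θ} ≤
      lam / 2 * m.real (G p) + (∫ b in G p, Φ σ b ∂m) / (2 * lam) := by
    intro p
    set S : Γ → Set X := fun v => c p ⁻¹' {σ v} ∩
      {b | 0 ≤ cp m F N v b ∧ cp m F N v b ≤ min θ 1} with hS
    have mS : ∀ v, MeasurableSet[F] (S v) := fun v =>
      (hc p MeasurableSet.of_discrete).inter (mqF v)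
    have iS : ∀ v, Integrable ((S v).indicator (cp m F N v)) m := fun v =>
      integrable_condExp.indicator (hF _ (mS v))
    calc _ ≤ m.real (⋃ v, (G p ∩ S v) ∩ N ⁻¹' {v}) := by
          refine ENNReal.toReal_mono (measure_ne_top _ _) (measure_mono_ae ?_)
          filter_upwards [cp_nonneg (F := F) (N := N), cp_sum hF hN] with b h0 h1 hb
          exact mem_iUnion.mpr ⟨N b, ⟨hb.1, hb.2.1.symm, h0 _, le_min hb.2.2 (h1 ▸
            Finset.single_le_sum (fun v _ => h0 v) (Finset.mem_univ _))⟩, rfl⟩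
      _ ≤ ∑ v, m.real ((G p ∩ S v) ∩ N ⁻¹' {v}) := measureReal_iUnion_fintype_le _
      _ = ∫ b in G p, ∑ v, (S v).indicator (cp m F N v) b ∂m := by
          rw [integral_finsetSum _ fun v _ => (iS v).integrableOn]
          refine Finset.sum_congr rfl fun v _ => ?_
          rw [setIntegral_indicator (hF _ (mS v)), cp,
            setIntegral_condExp hF (int_ind hN v) ((hG p).inter (mS v)),
            setIntegral_indicator (hN MeasurableSet.of_discrete)]
          simp
      _ ≤ ∫ b in G p, (lam / 2 + Φ σ b / (2 * lam)) ∂m := by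
          refine integral_mono (integrable_finsetSum _ fun v _ => (iS v).integrableOn)
            ((integrable_const _).fun_add ((iΦ σ).integrableOn.div_const _)) fun b => ?_
          set a := ∑ v, if σ v = c p b then q v b else 0 with ha
          have e1 : ∑ v, (S v).indicator (cp m F N v) b = a := Finset.sum_congr rfl fun v _ => by
            clear * - X S v mX Γ m F N b K σ c p q θ hS hq
            by_cases h : σ v = c p b <;> simp [hS, hq, indicator, h, eq_comm]
          have e2 : a * a ≤ Φ σ b := by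
            clear * - a Φ σ b Γ K c p q ha θ q0
            rw [ha, Finset.sum_mul_sum]
            refine Finset.sum_le_sum fun v _ => Finset.sum_le_sum fun w _ => ?_
            have := mul_nonneg (q0 v b).1 (q0 w b).1
            by_cases h : σ v = c p b <;> by_cases h' : σ w = c p b <;> simp [h, h'] <;>
              split_ifs <;> simp [this]
          simp only
          rw [e1, ← sub_le_iff_le_add', le_div_iff₀ (by positivity)]
          clear * - a lam Φ σ b e2
          linarith only [e2, sq_nonneg (a - lam), sq_nonneg (a - lam)]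
      _ = _ := by
          rw [integral_add (integrable_const _) ((iΦ σ).integrableOn.div_const _),
            integral_div (2 * lam)]
          simp [mul_comm]
  refine (Finset.sum_le_sum fun p _ => key p).trans ?_
  rw [Finset.sum_add_distrib, ← Finset.mul_sum, ← Finset.sum_div]
  exact add_le_add (mul_le_of_le_one_right (by positivity) hs) (by gcongr)

end Pool.Agent.Work.MP_2967d5_an
end

-- merged part: Pool.Agent.Work.MP_2967d5_an.C.Guess
section
/-! Sets on which the future of a process can be guessed from its past up to a bounded list. -/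

open MeasureTheory Set Filter Topology
open scoped ENNReal

set_option linter.unusedSectionVars false
set_option warn.classDefReducibility false

namespace Pool.Agent.Work.MP_2967d5_an

variable {X : Type*} [mX : MeasurableSpace X] {m : Measure X} [IsProbabilityMeasure m]

/-- a measure preserving action of the integers -/
structure Flow (m : Measure X) (Z : ℤ → X → X) : Prop where
  mp : ∀ i, MeasurePreserving (Z i) m m
  zero : ∀ x, Z 0 x = x
  add : ∀ i j x, Z i (Z j x) = Z (i + j) x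

theorem exists_flow (R : Aut m) : ∃ Z, Flow m Z ∧ ∀ n : ℕ, Z n = R.rep^[n] := by
  have h : ∀ n : ℕ, (fun x => (R.rep.toEquiv ^ (n : ℤ)) x) = R.rep^[n] := fun n => by
    rw [zpow_natCast, Equiv.Perm.coe_pow]; rfl
  refine ⟨fun i x => (R.rep.toEquiv ^ i) x, ⟨fun i => ?_, fun x => rfl, fun i j x => ?_⟩, h⟩
  · obtain ⟨n, rfl | rfl⟩ := i.eq_nat_or_neg
    · rw [h]
      exact R.mp.iterate n
    · rw [zpow_neg, zpow_natCast, ← inv_pow, Equiv.Perm.coe_pow]
      exact R.mp_symm.iterate n
  · rw [zpow_add, Equiv.Perm.mul_apply]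

variable {Z : ℤ → X → X} {Λ : Type} [Fintype Λ] [MeasurableSpace Λ] [DiscreteMeasurableSpace Λ]
  {ξ : X → Λ}

theorem Flow.real (hZ : Flow m Z) (i : ℤ) {D : Set X} (hD : MeasurableSet D) :
    m.real (Z i ⁻¹' D) = m.real D := (hZ.mp i).measureReal_preimage hD.nullMeasurableSet

/-- the last `l` symbols -/
def past (Z : ℤ → X → X) (ξ : X → Λ) (l : ℕ) (x : X) : Fin l → Λ := fun t => ξ (Z (-(t + 1)) x)

/-- the next `W` symbols -/
def nm (Z : ℤ → X → X) (ξ : X → Λ) (W : ℕ) (x : X) : Fin W → Λ := fun t => ξ (Z t x)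

theorem meas_past (hZ : Flow m Z) (hξ : Measurable ξ) (l : ℕ) : Measurable (past Z ξ l) :=
  measurable_pi_lambda _ fun _ => hξ.comp (hZ.mp _).measurable

theorem meas_nm (hZ : Flow m Z) (hξ : Measurable ξ) (l : ℕ) : Measurable (nm Z ξ l) :=
  measurable_pi_lambda _ fun _ => hξ.comp (hZ.mp _).measurable

/-- the points whose name is missed by a list -/
def Miss (Z : ℤ → X → X) (ξ : X → Λ) {ι : Type} {l W : ℕ} (g : (Fin l → Λ) → ι → Fin W → Λ) :
    Set X := {x | ∀ i, g (past Z ξ l x) i ≠ nm Z ξ W x}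

theorem meas_miss (hZ : Flow m Z) (hξ : Measurable ξ) {ι : Type} {l W : ℕ}
    (g : (Fin l → Λ) → ι → Fin W → Λ) : MeasurableSet (Miss Z ξ g) :=
  ((meas_past hZ hξ l).prodMk (meas_nm hZ hξ W))
    (MeasurableSet.of_discrete (s := {p : (Fin l → Λ) × (Fin W → Λ) | ∀ i, g p.1 i ≠ p.2}))

/-- on `B` the names can be guessed from the past -/
def Guess (m : Measure X) (Z : ℤ → X → X) (ξ : X → Λ) (B : Set X) : Prop :=
  MeasurableSet B ∧ ∃ (ι : Type) (_ : Fintype ι) (_ : Nonempty ι), ∀ W : ℕ, ∀ η : ℝ, 0 < η →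
    ∃ (l : ℕ) (g : (Fin l → Λ) → ι → Fin W → Λ), m.real (B ∩ Miss Z ξ g) ≤ η

theorem guess_empty : Guess m Z ξ ∅ := by
  obtain ⟨x⟩ := nonempty_of_isProbabilityMeasure m
  exact ⟨MeasurableSet.empty, Unit, inferInstance, inferInstance, fun W η hη =>
    ⟨0, fun _ _ _ => ξ x, by simp [hη.le]⟩⟩

theorem Guess.union {B B' : Set X} (h : Guess m Z ξ B) (h' : Guess m Z ξ B') :
    Guess m Z ξ (B ∪ B') := by
  obtain ⟨hB, ι, _, _, h⟩ := h
  obtain ⟨hB', ι', _, _, h'⟩ := h'
  refine ⟨hB.union hB', ι ⊕ ι', inferInstance, inferInstance, fun W η hη => ?_⟩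
  obtain ⟨l, g, hg⟩ := h W _ (half_pos hη)
  obtain ⟨l', g', hg'⟩ := h' W _ (half_pos hη)
  refine ⟨max l l', fun y => Sum.elim (g fun t => y (Fin.castLE (le_max_left _ _) t))
    (g' fun t => y (Fin.castLE (le_max_right _ _) t)), ?_⟩
  refine (measureReal_mono (s₂ := B ∩ Miss Z ξ g ∪ B' ∩ Miss Z ξ g') ?_).trans
    ((measureReal_union_le _ _).trans (by linarith only [hg, hg']))
  rintro x ⟨hx | hx, hx'⟩
  · exact Or.inl ⟨hx, fun i => hx' (Sum.inl i)⟩
  · exact Or.inr ⟨hx, fun i => hx' (Sum.inr i)⟩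

/-- push a symbol in at the front -/
def pushIn {n : ℕ} (a : Λ) (y : Fin n → Λ) : Fin n → Λ :=
  fun t => if t.1 = 0 then a else y ⟨t.1 - 1, lt_of_le_of_lt (Nat.sub_le _ _) t.2⟩

theorem Guess.shift (hZ : Flow m Z) (hξ : Measurable ξ) {B : Set X} (h : Guess m Z ξ B) :
    Guess m Z ξ (Z 1 ⁻¹' B) := by
  obtain ⟨hB, ι, _, _, h⟩ := h
  obtain ⟨x⟩ := nonempty_of_isProbabilityMeasure m
  have : Nonempty Λ := ⟨ξ x⟩
  refine ⟨(hZ.mp 1).measurable hB, Λ × ι, inferInstance, inferInstance, fun W η hη => ?_⟩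
  obtain ⟨l, g, hg⟩ := h W η hη
  refine ⟨l, fun y p => pushIn p.1 (g (pushIn p.1 y) p.2), le_trans ?_ hg⟩
  rw [← hZ.real 1 (hB.inter (meas_miss hZ hξ g))]
  refine measureReal_mono fun x hx => ⟨hx.1, fun i hi => hx.2 (ξ x, i) ?_⟩
  have e : pushIn (ξ x) (past Z ξ l x) = past Z ξ l (Z 1 x) := by
    funext t
    simp only [pushIn, past, hZ.add]
    split_ifs with h0
    · simp [h0, hZ.zero]
    · congr 2
      push_cast [Nat.one_le_iff_ne_zero.mpr h0]
      ring
  simp only [e, hi]
  funext t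
  simp only [pushIn, nm, hZ.add]
  split_ifs with h0
  · simp [h0, hZ.zero]
  · congr 2
    push_cast [Nat.one_le_iff_ne_zero.mpr h0]
    ring

theorem exists_core (hZ : Flow m Z) (hξ : Measurable ξ) {η : ℝ} (hη : 0 < η) :
    ∃ B, Guess m Z ξ B ∧ (∀ B', Guess m Z ξ B' → m.real (B' \ B) ≤ η) ∧
      ∀ i, m.real (B \ Z i ⁻¹' B) ≤ η ∧ m.real (Z i ⁻¹' B \ B) ≤ η := by
  set S := m.real '' {B | Guess m Z ξ B} with hS
  have hb : BddAbove S := ⟨1, by rintro _ ⟨B, -, rfl⟩; exact measureReal_le_one⟩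
  obtain ⟨_, ⟨B, hB, rfl⟩, h⟩ := exists_lt_of_lt_csSup (s := S) ⟨_, ∅, guess_empty, rfl⟩
    (sub_lt_self _ hη)
  have h1 : ∀ B', Guess m Z ξ B' → m.real (B' \ B) ≤ η := fun B' hB' => by
    have h2 := le_csSup hb ⟨_, hB.union hB', rfl⟩
    rw [← union_sdiff_self, measureReal_union disjoint_sdiff_right (hB'.1.diff hB.1)] at h2
    linarith only [h, h2]
  have h2 : ∀ n : ℕ, Guess m Z ξ (Z n ⁻¹' B) := fun n => by
    induction n with
    | zero => rwa [show Z (0 : ℕ) ⁻¹' B = B from Set.ext fun x => by simp [hZ.zero]]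
    | succ n ih =>
      rw [show Z (n + 1 : ℕ) ⁻¹' B = Z 1 ⁻¹' (Z n ⁻¹' B) from Set.ext fun x => by simp [hZ.add]]
      exact ih.shift hZ hξ
  have h3 : ∀ i, m.real (B \ Z i ⁻¹' B) = m.real (Z i ⁻¹' B \ B) := fun i => by
    have a1 := measureReal_inter_add_sdiff (μ := m) (s := B) ((hZ.mp i).measurable hB.1)
    have a2 := measureReal_inter_add_sdiff (μ := m) (s := Z i ⁻¹' B) hB.1
    rw [hZ.real i hB.1, inter_comm] at a2
    linarith only [a1, a2]
  refine ⟨B, hB, h1, fun i => ?_⟩
  rw [h3, and_self]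
  obtain ⟨n, rfl | rfl⟩ := i.eq_nat_or_neg
  · exact h1 _ (h2 n)
  · rw [← hZ.real n (((hZ.mp _).measurable hB.1).diff hB.1), preimage_sdiff,
      show Z n ⁻¹' (Z (-n) ⁻¹' B) = B from Set.ext fun x => by simp [hZ.add, hZ.zero], h3]
    exact h1 _ (h2 n)

/-- the filtration of finite pasts -/
def pastFil (hZ : Flow m Z) (hξ : Measurable ξ) : Filtration ℕ mX where
  seq l := MeasurableSpace.comap (past Z ξ l) inferInstance
  mono' l l' h := by
    simp only
    rw [show past Z ξ l = (fun y t => y (Fin.castLE h t)) ∘ past Z ξ l' from rfl,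
      ← MeasurableSpace.comap_comp]
    exact MeasurableSpace.comap_mono (Measurable.of_discrete).comap_le
  le' l := (meas_past hZ hξ l).comap_le

/-- the whole past -/
def pastAll (hZ : Flow m Z) (hξ : Measurable ξ) : MeasurableSpace X := ⨆ l, pastFil hZ hξ l

theorem pastAll_le (hZ : Flow m Z) (hξ : Measurable ξ) : pastAll hZ hξ ≤ mX :=
  iSup_le (pastFil hZ hξ).le

theorem meas_old (hZ : Flow m Z) (hξ : Measurable ξ) {i : ℤ} (hi : i < 0) :
    Measurable[pastAll hZ hξ] fun x => ξ (Z i x) := by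
  obtain ⟨n, rfl⟩ : ∃ n : ℕ, i = -(n + 1) := ⟨(-i - 1).toNat, by omega⟩
  exact ((measurable_pi_apply (Fin.last n)).comp (comap_measurable (past Z ξ (n + 1)))).mono
    (le_iSup (pastFil hZ hξ) (n + 1)) le_rfl

/-- points whose own name has conditional probability above `θ` -/
def Heavy (hZ : Flow m Z) (hξ : Measurable ξ) (θ : ℝ) (W : ℕ) : Set X :=
  {x | θ < cp m (pastAll hZ hξ) (nm Z ξ W) (nm Z ξ W x) x}

theorem meas_heavy (hZ : Flow m Z) (hξ : Measurable ξ) (θ : ℝ) (W : ℕ) :
    MeasurableSet (Heavy hZ hξ θ W) :=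
  measurableSet_lt measurable_const (meas_cp_own (pastAll_le hZ hξ) (meas_nm hZ hξ W))

theorem heavy_anti (hZ : Flow m Z) (hξ : Measurable ξ) (θ : ℝ) {W W' : ℕ} (h : W ≤ W') :
    ∀ᵐ x ∂m, x ∈ Heavy hZ hξ θ W' → x ∈ Heavy hZ hξ θ W := by
  filter_upwards [ae_all_iff.mpr fun v : Fin W' → Λ => condExp_mono (m := pastAll hZ hξ)
    (int_ind (m := m) (meas_nm hZ hξ W') v)
    (int_ind (meas_nm hZ hξ W) fun t => v (Fin.castLE h t))
    (Eventually.of_forall fun x => indicator_le_indicator_of_subset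
      (by rintro y rfl; rfl) (fun _ => zero_le_one) x)] with x hx hx'
  exact hx'.trans_le (hx _)

theorem heavy_guess (hZ : Flow m Z) (hξ : Measurable ξ) {θ : ℝ} (hθ : 0 < θ) :
    Guess m Z ξ (⋂ W, Heavy hZ hξ θ W) := by
  classical
  obtain ⟨M, hM⟩ := exists_nat_gt (1 / θ)
  obtain ⟨x₀⟩ := nonempty_of_isProbabilityMeasure m
  refine ⟨MeasurableSet.iInter (meas_heavy hZ hξ θ), Fin (M + 1), inferInstance, inferInstance,
    fun W η hη => ?_⟩
  set A : ℕ → Set X := fun l => Heavy hZ hξ θ W ∩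
    {x | cp m (pastFil hZ hξ l) (nm Z ξ W) (nm Z ξ W x) x ≤ θ} with hA
  have h1 := tendsto_measure_of_ae_tendsto_indicator_of_isFiniteMeasure atTop (μ := m) (As := A)
    MeasurableSet.empty (fun l => (meas_heavy hZ hξ θ W).inter (measurableSet_le
      (meas_cp_own ((pastFil hZ hξ).le l) (meas_nm hZ hξ W)) measurable_const)) (by
      filter_upwards [ae_all_iff.mpr fun v : Fin W → Λ => tendsto_ae_condExp (μ := m)
        (ℱ := pastFil hZ hξ) ((nm Z ξ W ⁻¹' {v}).indicator (1 : X → ℝ))] with x hx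
      by_cases h : x ∈ Heavy hZ hξ θ W
      · filter_upwards [(hx (nm Z ξ W x)).eventually (lt_mem_nhds h)] with l hl
        exact iff_of_false (fun h' => hl.not_ge h'.2) id
      · exact Eventually.of_forall fun l => iff_of_false (fun h' => h h'.1) id)
  rw [measure_empty] at h1
  obtain ⟨l, hl⟩ := (((ENNReal.tendsto_toReal ENNReal.zero_ne_top).comp h1).eventually
    (ge_mem_nhds (show (0 : ℝ≥0∞).toReal < η from hη))).exists
  choose h _ hh using fun v : Fin W → Λ =>
    (meas_cp (m := m) (F := pastFil hZ hξ l) (N := nm Z ξ W) v).exists_eq_measurable_comp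
  refine ⟨l, fun y i => (Finset.univ.filter fun v => θ < h v y).toList.getD i fun _ => ξ x₀,
    le_trans (ENNReal.toReal_mono (measure_ne_top _ _) (measure_mono_ae ?_)) hl⟩
  filter_upwards [cp_nonneg (m := m) (F := pastFil hZ hξ l) (N := nm Z ξ W),
    cp_sum (m := m) ((pastFil hZ hξ).le l) (meas_nm hZ hξ W)] with x h0 h1 hx
  refine ⟨mem_iInter.mp hx.1 W, ?_⟩
  by_contra hlt
  rw [mem_ofPred_eq, not_le] at hlt
  simp only [hh, Function.comp] at h0 h1 hlt
  set s := Finset.univ.filter fun v => θ < h v (past Z ξ l x) with hs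
  have h2 : (s.card : ℝ) * θ ≤ 1 := by
    rw [← nsmul_eq_mul, ← h1]
    exact (Finset.card_nsmul_le_sum s _ _ fun v hv => (Finset.mem_filter.mp hv).2.le).trans
      (Finset.sum_le_univ_sum_of_nonneg h0)
  have h3 : s.card < M + 1 := by
    rw [div_lt_iff₀ hθ] at hM
    have : (s.card : ℝ) < M := lt_of_mul_lt_mul_right (h2.trans_lt hM) hθ.le
    exact Nat.lt_succ_of_lt (by exact_mod_cast this)
  obtain ⟨i, hi, he⟩ := List.mem_iff_getElem.mp (Finset.mem_toList.mpr
    (show nm Z ξ W x ∈ s from Finset.mem_filter.mpr ⟨Finset.mem_univ _, hlt⟩))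
  refine hx.2 ⟨i, lt_trans (by simpa using hi) h3⟩ ?_
  rw [← he]
  exact List.getD_eq_getElem _ _ hi

theorem heavy_small (hZ : Flow m Z) (hξ : Measurable ξ) {θ η : ℝ} (hθ : 0 < θ) (hη : 0 < η)
    {B : Set X} (h : ∀ B', Guess m Z ξ B' → m.real (B' \ B) ≤ η) :
    ∀ᶠ W in atTop, m.real (Heavy hZ hξ θ W \ B) ≤ 2 * η := by
  have h1 := tendsto_measure_of_ae_tendsto_indicator_of_isFiniteMeasure atTop (μ := m)
    (As := fun W => Heavy hZ hξ θ W \ ⋂ W, Heavy hZ hξ θ W) MeasurableSet.empty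
    (fun W => (meas_heavy hZ hξ θ W).diff (MeasurableSet.iInter (meas_heavy hZ hξ θ))) (by
      filter_upwards [ae_all_iff.mpr fun W => ae_all_iff.mpr fun W' => ae_all_iff.mpr
        fun h : W ≤ W' => heavy_anti hZ hξ θ h] with x hx
      by_cases h : x ∈ ⋂ W, Heavy hZ hξ θ W
      · exact Eventually.of_forall fun W => iff_of_false (fun h' => h'.2 h) id
      · obtain ⟨W, hW⟩ := not_forall.mp (mt mem_iInter.mpr h)
        filter_upwards [eventually_ge_atTop W] with W' hW'
        exact iff_of_false (fun h' => hW (hx W W' hW' h'.1)) id)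
  rw [measure_empty] at h1
  filter_upwards [((ENNReal.tendsto_toReal ENNReal.zero_ne_top).comp h1).eventually
    (ge_mem_nhds (show (0 : ℝ≥0∞).toReal < η from hη))] with W hW
  refine (measureReal_mono (s₂ := (Heavy hZ hξ θ W \ ⋂ W, Heavy hZ hξ θ W) ∪
    ((⋂ W, Heavy hZ hξ θ W) \ B)) fun x hx => ?_).trans ((measureReal_union_le _ _).trans ?_)
  · by_cases h' : x ∈ ⋂ W, Heavy hZ hξ θ W
    exacts [Or.inr ⟨h', hx.2⟩, Or.inl ⟨hx.1, h'⟩]
  · rw [two_mul]
    exact add_le_add hW (h _ (heavy_guess hZ hξ hθ))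

end Pool.Agent.Work.MP_2967d5_an
end

-- merged part: Pool.Agent.Work.MP_2967d5_an.C.Plus
section
/-! The colouring used where the future cannot be guessed. -/

open MeasureTheory Set Filter Topology
open scoped ENNReal

set_option linter.unusedSectionVars false

namespace Pool.Agent.Work.MP_2967d5_an

theorem meas_sel {α β : Type*} {G : MeasurableSpace α} [MeasurableSpace β] {r : α → ℕ}
    (hr : Measurable r) {f : ℕ → α → β} (hf : ∀ p, Measurable (f p)) :
    Measurable fun x => f (r x) x :=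
  (measurable_from_prod_countable_left (f := fun p : α × ℕ => f p.2 p.1) hf).comp
    (measurable_id.prodMk hr)

variable {X : Type*} [mX : MeasurableSpace X] {m : Measure X} [IsProbabilityMeasure m]
  {Z : ℤ → X → X} {Λ : Type} [Fintype Λ] [MeasurableSpace Λ] [DiscreteMeasurableSpace Λ]
  {ξ : X → Λ}

theorem tau_plus (hZ : Flow m Z) (hξ : Measurable ξ) (κ : Λ → ℕ) {c η δ lam : ℝ}
    (hc : m.real {x | κ (ξ (Z 1 x)) ≠ κ (ξ x) + 1} ≤ c) {B : Set X} (hB : MeasurableSet B)
    (hη : 0 < η) (hδ : 0 < δ) (hl : 0 < lam)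
    (h1 : ∀ B', Guess m Z ξ B' → m.real (B' \ B) ≤ η) (h2 : ∀ i, m.real (Z i ⁻¹' B \ B) ≤ η)
    {K : ℕ} (hK : 0 < K) :
    ∃ τ : X → ℕ, Measurable τ ∧ (∀ x, τ x < K) ∧ m.real {x | τ (Z 1 x) ≠ τ x} ≤ c + δ ∧
      ∀ᶠ n : ℕ in atTop, m.real {x | Z n x ∉ B ∧ τ x = τ (Z n x)} ≤
        lam / 2 + 1 / (K * lam) + 6 * η := by
  classical
  have hK' : (0 : ℝ) < K := by exact_mod_cast hK
  obtain ⟨H₀, hH₀⟩ := exists_nat_gt (2 / δ)
  obtain ⟨H, hH, hH1⟩ := ((heavy_small hZ hξ (one_div_pos.mpr hK') hη h1).and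
    (eventually_gt_atTop H₀)).exists
  have hH0 : 0 < H := by omega
  have hH' : (0 : ℝ) < H := by exact_mod_cast hH0
  have mZ : ∀ i, Measurable (Z i) := fun i => (hZ.mp i).measurable
  have mκ : Measurable κ := Measurable.of_discrete
  set ρ : X → ℕ := fun z => κ (ξ (Z (-H) z)) with hρ
  have mρ : Measurable ρ := mκ.comp (hξ.comp (mZ _))
  set D₁ : ℕ → Set X := fun p => {_z | p + 1 = H} with hD₁
  set D₂ : ℕ → Set X := fun p => Z (-p) ⁻¹' Heavy hZ hξ (1 / K) H \ B with hD₂
  have mD₂ : ∀ p, MeasurableSet (D₂ p) := fun p => (mZ _ (meas_heavy hZ hξ _ _)).diff hB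
  obtain ⟨s, -, hs⟩ := Finset.exists_le_of_sum_le (s := Finset.range H)
    (f := fun s => H * m.real {z | z ∈ D₁ ((ρ z + s) % H)} +
      m.real {z | z ∈ D₂ ((ρ z + s) % H)} / (3 * η)) (g := fun _ => 2)
    (Finset.nonempty_range_iff.mpr hH0.ne') (by
      have a1 : ∑ p ∈ Finset.range H, m.real (D₁ p) ≤ 1 := by
        rw [Finset.sum_eq_single (H - 1) (fun p _ hp => by
          simp [hD₁, show p + 1 ≠ H by omega]) (fun h => by simp [hH0] at h)]
        exact measureReal_le_one
      have a2 : ∑ p ∈ Finset.range H, m.real (D₂ p) ≤ H * (3 * η) := by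
        refine (Finset.sum_le_sum (g := fun _ => 3 * η) fun p _ => ?_).trans (by simp)
        refine (measureReal_mono (s₂ := Z (-p) ⁻¹' (Heavy hZ hξ (1 / K) H \ B) ∪
          (Z (-p) ⁻¹' B \ B)) fun x hx => ?_).trans ((measureReal_union_le _ _).trans ?_)
        · by_cases h : Z (-p) x ∈ B
          exacts [Or.inr ⟨h, hx.2⟩, Or.inl ⟨hx.1, h⟩]
        · rw [hZ.real _ ((meas_heavy hZ hξ _ _).diff hB)]
          linarith [h2 (-p)]
      have a3 := (residue (m := m) mρ (W := H) (D := D₁) fun p => MeasurableSet.const _).trans a1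
      have a4 := (residue (m := m) mρ (W := H) mD₂).trans a2
      rw [Finset.sum_add_distrib, ← Finset.mul_sum, ← Finset.sum_div, Finset.sum_const,
        Finset.card_range, nsmul_eq_mul, mul_two]
      exact add_le_add (mul_le_of_le_one_right hH'.le a3) (by rwa [div_le_iff₀ (by positivity)]))
  set P : X → ℕ := fun z => (ρ z + s) % H with hP
  have mP : Measurable P := (Measurable.of_discrete (f := fun t => (t + s) % H)).comp mρ
  have PH : ∀ z, P z < H := fun z => Nat.mod_lt _ hH0
  have s1 : m.real {z | z ∈ D₁ (P z)} ≤ δ := by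
    have a1 : 0 ≤ m.real {z | z ∈ D₂ (P z)} / (3 * η) := by positivity
    have a2 : (H₀ : ℝ) < H := by exact_mod_cast hH1
    rw [div_lt_iff₀ hδ] at hH₀
    clear * - X mX m D₁ P δ H₀ H ρ s D₂ η hH₀ hs a1 hδ a2
    (refine le_of_not_gt fun h_nl => ?_; linarith only [h_nl, hH₀, hs, a1, hδ, a2, mul_nonneg_of_nonpos_of_nonpos (Mathlib.Tactic.Linarith.sub_nonpos_of_le (Mathlib.Tactic.Linarith.natCast_nonneg ℝ H)) (le_of_lt (Mathlib.Tactic.Linarith.sub_neg_of_lt h_nl)), mul_pos_of_neg_of_neg (Mathlib.Tactic.Linarith.sub_neg_of_lt hδ) (Mathlib.Tactic.Linarith.sub_neg_of_lt a2)])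
  have s2 : m.real {z | z ∈ D₂ (P z)} ≤ 6 * η := by
    clear * - H X mX m D₁ P hH0 D₂ η ρ s hs hη
    have a1 : 0 ≤ H * m.real {z | z ∈ D₁ (P z)} := by positivity
    have a2 : m.real {z | z ∈ D₂ (P z)} / (3 * η) ≤ 2 := by linarith only [hs, a1]
    rw [div_le_iff₀ (by positivity)] at a2
    linarith only [a2]
  have fP : ∀ j : ℤ, j < H → Measurable[pastAll hZ hξ] fun b => P (Z j b) := fun j hj => by
    simp only [hP, hρ, hZ.add]
    exact (Measurable.of_discrete (f := fun a => (κ a + s) % H)).comp (meas_old hZ hξ (by omega))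
  set G : ℕ → Set X := fun p => {b | P (Z (p % H : ℕ) b) = p} with hG
  have pH : ∀ p : ℕ, ((p % H : ℕ) : ℤ) < H := fun p => by exact_mod_cast Nat.mod_lt p hH0
  obtain ⟨σ, hσ⟩ := exists_hash (m := m) (pastAll_le hZ hξ) (meas_nm hZ hξ H) hK
    (one_div_pos.mpr hK').le hl (Finset.range H) (G := G)
    (fun p => fP _ (pH p) (MeasurableSet.of_discrete (s := {p}))) (by
      have : ∀ p, m.real (G p) = m.real {z | P z = p} := fun p =>
        hZ.real _ (meas_pred mP (· = p))
      simp only [this]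
      refine (sum_measureReal_le_measureReal_univ (fun p _ => meas_pred mP (· = p)) ?_).trans
        (by simp)
      exact fun p _ q _ hpq => Set.disjoint_left.mpr fun x hx hx' => hpq (hx.symm.trans hx'))
  set τ : X → Fin K := fun z => σ (nm Z ξ H (Z (-P z) z)) with hτ
  have mσ : Measurable σ := Measurable.of_discrete
  have mτ : Measurable τ :=
    mσ.comp (meas_sel mP (f := fun p z => nm Z ξ H (Z (-p) z)) fun p => (meas_nm hZ hξ H).comp (mZ _))
  have fτ : ∀ j : ℤ, j ≤ -H → Measurable[pastAll hZ hξ] fun b => τ (Z j b) := fun j hj => by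
    refine mσ.comp (meas_sel (fP j (by omega)) (f := fun p b => nm Z ξ H (Z (-p) (Z j b)))
      fun p => ?_)
    refine @measurable_pi_lambda _ _ _ (pastAll hZ hξ) _ _ fun t => ?_
    simp only [nm, hZ.add]
    exact meas_old hZ hξ (by clear * - H t p j K H₀ hj hZ hξ; omega)
  have mv : Measurable fun x => (τ x : ℕ) := (Measurable.of_discrete (f := Fin.val)).comp mτ
  refine ⟨fun x => τ x, mv, fun x => (τ x).2, ?_, ?_⟩
  · refine (measureReal_mono (s₂ := Z (-H) ⁻¹' {x | κ (ξ (Z 1 x)) ≠ κ (ξ x) + 1} ∪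
      {z | z ∈ D₁ (P z)}) fun x hx => ?_).trans ((measureReal_union_le _ _).trans
        (add_le_add ((hZ.real _ (measurableSet_eq_fun (mκ.comp (hξ.comp (mZ 1)))
          ((mκ.comp hξ).add_const 1)).compl).trans_le hc) s1))
    by_contra hn
    simp only [hD₁, mem_union, mem_preimage, mem_ofPred_eq, not_or, not_not, hZ.add] at hn
    apply hx
    have e : P (Z 1 x) = P x + 1 := by
      have := PH x
      simp only [hP, hρ, hZ.add, add_comm (-H : ℤ) 1, hn.1] at this hn ⊢
      rw [add_right_comm, ← Nat.mod_add_mod, Nat.mod_eq_of_lt (by omega)]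
    simp [hτ, e, hZ.add]
  · filter_upwards [eventually_ge_atTop (2 * H)] with n hn
    have := hσ (fun p b => τ (Z ((p % H : ℕ) - n) b)) fun p => fτ _ (by have := pH p; omega)
    set A : ℕ → Set X := fun p => {b | b ∈ G p ∧ σ (nm Z ξ H b) = τ (Z ((p % H : ℕ) - n) b) ∧
      cp m (pastAll hZ hξ) (nm Z ξ H) (nm Z ξ H b) b ≤ 1 / K} with hA
    have mA : ∀ p, MeasurableSet (A p) := fun p =>
      (mZ _ (meas_pred mP (· = p))).inter ((measurableSet_eq_fun (mσ.comp (meas_nm hZ hξ H))
        (mτ.comp (mZ _))).inter (measurableSet_le (meas_cp_own (pastAll_le hZ hξ)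
          (meas_nm hZ hξ H)) measurable_const))
    refine (measureReal_mono (s₂ := (⋃ p ∈ Finset.range H, Z (n - p) ⁻¹' A p) ∪
      Z n ⁻¹' {z | z ∈ D₂ (P z)}) fun x hx => ?_).trans ((measureReal_union_le _ _).trans
        (add_le_add ((measureReal_biUnion_finset_le _ _).trans ?_)
          ((hZ.real _ (meas_pick mP mD₂)).trans_le s2)))
    · by_cases h : Z (-P (Z n x)) (Z n x) ∈ Heavy hZ hξ (1 / K) H
      · exact Or.inr ⟨h, hx.1⟩
      · refine Or.inl (mem_biUnion (Finset.mem_coe.mpr (Finset.mem_range.mpr (PH (Z n x)))) ?_)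
        have e : Z (n - P (Z n x)) x = Z (-P (Z n x)) (Z n x) := by rw [hZ.add, neg_add_eq_sub]
        refine ⟨?_, ?_, by rw [e]; exact not_lt.mp h⟩
        · simp only [hG, mem_ofPred_eq]
          rw [Nat.mod_eq_of_lt (PH _), hZ.add, add_sub_cancel]
        · rw [Nat.mod_eq_of_lt (PH _), hZ.add, sub_add_sub_cancel', sub_self, hZ.zero, e]
          exact (Fin.ext hx.2).symm
    · simp only [fun p => hZ.real (n - (p : ℕ)) (mA p)]
      exact this.trans (le_of_eq (by clear * - lam K hK hl this; field_simp; ring))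

end Pool.Agent.Work.MP_2967d5_an
end

-- merged part: Pool.Agent.Work.MP_2967d5_an.C.Zero
section
/-! The colouring used where the future can be guessed. -/

open MeasureTheory Set Filter Topology
open scoped ENNReal

set_option linter.unusedSectionVars false

namespace Pool.Agent.Work.MP_2967d5_an

open Classical in
/-- a word is coded by its place in the list, if it is there -/
noncomputable def enc {ι Γ : Type} (g : ι → Γ) (v : Γ) : ι ⊕ Γ :=
  if h : ∃ i, g i = v then Sum.inl h.choose else Sum.inr v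

theorem enc_inj {ι Γ : Type} {g : ι → Γ} {v v' : Γ} (h : enc g v = enc g v') : v = v' := by
  unfold enc at h
  split_ifs at h with h1 h2
  · rw [← h1.choose_spec, ← h2.choose_spec, Sum.inl.inj h]
  · exact Sum.inr.inj h

variable {X : Type*} [mX : MeasurableSpace X] {m : Measure X} [IsProbabilityMeasure m]
  {Z : ℤ → X → X} {Λ : Type} [Fintype Λ] [MeasurableSpace Λ] [DiscreteMeasurableSpace Λ]
  {ξ : X → Λ}

theorem Flow.iter (hZ : Flow m Z) (n : ℕ) : (Z 1)^[n] = Z n := by
  funext x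
  induction n with
  | zero => exact (hZ.zero x).symm
  | succ n ih => rw [Function.iterate_succ_apply', ih, hZ.add, add_comm]; rfl

/-- Long names on a guessable set are coded by few codes. -/
theorem exists_codes (hZ : Flow m Z) (hξ : Measurable ξ) {B : Set X} (hB : Guess m Z ξ B) {η : ℝ}
    (hη : 0 < η) (h2 : ∀ i, m.real (B \ Z i ⁻¹' B) ≤ η) {H lam a : ℕ} (hH : 0 < H) (hl : 0 < lam)
    (ha : 0 < a) (hΛ : Fintype.card Λ ≤ 2 ^ lam) :
    ∃ (C : Type) (_ : Fintype C) (_ : MeasurableSpace C) (_ : DiscreteMeasurableSpace C)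
      (cd : X → C) (V : Finset C) (s : ℕ), Measurable cd ∧ 0 < s ∧ V.card ≤ 2 ^ (a * s) ∧
      (∀ b b', cd b = cd b' → ∀ t : ℕ, t < a * s * H → ξ (Z t b) = ξ (Z t b')) ∧
      m.real (B ∩ {b | cd b ∉ V}) ≤ 8 * H * lam * η := by
  classical
  obtain ⟨mB, ι, _, _, hg⟩ := hB
  obtain ⟨x₀⟩ := nonempty_of_isProbabilityMeasure m
  have : Nonempty Λ := ⟨ξ x₀⟩
  set μ := 2 * Fintype.card ι with hμ
  have hμ0 : 0 < μ := Nat.mul_pos two_pos Fintype.card_pos
  set L := H * (2 * μ) with hL
  have hL0 : 0 < L := by positivity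
  obtain ⟨l, g, hg⟩ := hg L η hη
  set k := a * (l + 1) with hk
  set J := 2 * H * lam * (2 * k) with hJ
  let _ : MeasurableSpace (ι ⊕ (Fin L → Λ)) := ⊤
  set cd : X → Fin J → ι ⊕ (Fin L → Λ) := fun b j => if l ≤ j.1 then
    enc (g (past Z ξ l (Z (j.1 * L : ℕ) b))) (nm Z ξ L (Z (j.1 * L : ℕ) b))
    else Sum.inr (nm Z ξ L (Z (j.1 * L : ℕ) b)) with hcd
  have mcd : Measurable cd := measurable_pi_lambda _ fun j =>
    (Measurable.of_discrete (f := fun p : (Fin l → Λ) × (Fin L → Λ) =>
      if l ≤ j.1 then enc (g p.1) p.2 else Sum.inr p.2)).comp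
        (((meas_past hZ hξ l).prodMk (meas_nm hZ hξ L)).comp (hZ.mp _).measurable)
  set V : Finset (Fin J → ι ⊕ (Fin L → Λ)) :=
    Finset.univ.filter fun u => (Finset.univ.filter fun j => (u j).isRight).card ≤ 2 * k with hV
  refine ⟨Fin J → ι ⊕ (Fin L → Λ), inferInstance, inferInstance, inferInstance, cd, V,
    2 * H * lam * (2 * (l + 1)) * (2 * μ), mcd, by positivity, ?_, fun b b' he => ?_, ?_⟩
  · refine le_trans (by convert card_codes (ι := ι) (Γ := Fin L → Λ) J (2 * k)) ?_
    rw [Fintype.card_fun, Fintype.card_fin]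
    calc _ ≤ (2 ^ μ) ^ J * ((2 ^ lam) ^ L) ^ (2 * k) := by
          clear * - ι J μ Λ L k lam hΛ
          gcongr
          exact Nat.lt_two_pow_self.le
      _ = _ := by
          simp only [← pow_mul, ← pow_add]
          congr 1
          rw [hJ, hL, hk]
          ring
  · have key : ∀ j ≤ J, ∀ t : ℕ, t < j * L → ξ (Z t b) = ξ (Z t b') := by
      clear * - J L Λ ξ Z b b' H lam a ι l cd he X hL0 mX m hZ g hcd hl this
      intro j
      induction j with
      | zero => exact fun _ t ht => by omega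
      | succ j ih =>
        intro hj t ht
        rcases lt_or_ge t (j * L) with h | h
        · exact ih (by omega) t h
        have h1 := congrFun he ⟨j, hj⟩
        have h3 : nm Z ξ L (Z (j * L : ℕ) b) = nm Z ξ L (Z (j * L : ℕ) b') := by
          simp only [hcd] at h1
          split_ifs at h1 with hl
          · have h4 : past Z ξ l (Z (j * L : ℕ) b) = past Z ξ l (Z (j * L : ℕ) b') := by
              funext i
              have h5 : i.1 + 1 ≤ j * L := by nlinarith only [hl, hL0, i.2]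
              have := ih (by omega) (j * L - (i + 1)) (by omega)
              simp only [past, hZ.add]
              rwa [Nat.cast_sub h5, sub_eq_neg_add, Nat.cast_succ] at this
            rw [h4] at h1
            exact enc_inj h1
          · exact Sum.inr.inj h1
        have := congrFun h3 ⟨t - j * L, by rw [Nat.succ_mul] at ht; omega⟩
        simpa only [nm, hZ.add, Nat.cast_sub h, sub_add_cancel] using this
    exact fun t ht => key J le_rfl t (ht.trans_eq (by rw [hJ, hL, hk]; ring))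
  · have hk0 : (0 : ℝ) < k := by positivity
    have mA : ∀ j : Fin J, MeasurableSet (B ∩ Z (j.1 * L : ℕ) ⁻¹' Miss Z ξ g) := fun j =>
      mB.inter ((hZ.mp _).measurable (meas_miss hZ hξ g))
    have h3 := markov_card (m := m) Finset.univ mA (k := k)
      (D := B ∩ {b | cd b ∉ V})
      (mB.inter (mcd (MeasurableSet.of_discrete (s := {u | u ∉ V})))) fun x hx => by
        clear * - X J ι L Λ V cd x B hx l Z ξ g hcd k a ha H lam hV hl
        have h4 := hx.2
        simp only [hV, Finset.mem_filter, Finset.mem_univ, true_and, mem_ofPred_eq, not_le] at h4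
        have h5 := Finset.card_le_card (t := (Finset.univ.filter fun j : Fin J => j.1 < l) ∪
          Finset.univ.filter fun j : Fin J => x ∈ B ∩ Z (j.1 * L : ℕ) ⁻¹' Miss Z ξ g)
          (s := Finset.univ.filter fun j => (cd x j).isRight) fun j hj => by
            simp only [Finset.mem_filter, Finset.mem_univ, true_and, Finset.mem_union] at hj ⊢
            refine (lt_or_ge j.1 l).imp_right fun hl => ⟨hx.1, fun i hi => ?_⟩
            simp only [hcd, if_pos hl, enc, dif_pos (⟨i, hi⟩ : ∃ i, _ = _)] at hj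
            simp at hj
        have h6 : (Finset.univ.filter fun j : Fin J => j.1 < l).card ≤ l :=
          (Finset.card_le_card_of_injOn (t := Finset.range l) (fun j => j.1)
            (fun j hj => by simpa using hj) Fin.val_injective.injOn).trans (Finset.card_range l).le
        have h7 : l + 1 ≤ k := Nat.le_mul_of_pos_left _ ha
        have := h5.trans (Finset.card_union_le _ _)
        convert (by omega : k ≤ (Finset.univ.filter fun j : Fin J =>
          x ∈ B ∩ Z (j.1 * L : ℕ) ⁻¹' Miss Z ξ g).card)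
    refine le_of_mul_le_mul_left (h3.trans ((Finset.sum_le_sum (g := fun _ => 2 * η)
      fun j _ => ?_).trans (le_of_eq ?_))) hk0
    · refine (measureReal_mono (s₂ := (B \ Z (j.1 * L : ℕ) ⁻¹' B) ∪
        Z (j.1 * L : ℕ) ⁻¹' (B ∩ Miss Z ξ g)) fun x hx => ?_).trans
        ((measureReal_union_le _ _).trans ?_)
      · by_cases h : Z (j.1 * L : ℕ) x ∈ B
        exacts [Or.inr ⟨h, hx.2⟩, Or.inl ⟨hx.1, h⟩]
      · rw [hZ.real _ (mB.inter (meas_miss hZ hξ g)), two_mul]
        exact add_le_add (h2 _) hg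
    · rw [Finset.sum_const, Finset.card_univ, Fintype.card_fin, nsmul_eq_mul, hJ]
      push_cast
      ring

theorem tau_zero (hZ : Flow m Z) (hξ : Measurable ξ) {B : Set X} (hB : Guess m Z ξ B)
    {η δ ε : ℝ} (hη : 0 < η) (hδ : 0 < δ)
    (h2 : ∀ i, m.real (B \ Z i ⁻¹' B) ≤ η ∧ m.real (Z i ⁻¹' B \ B) ≤ η)
    (hclock : ∀ c : ℝ, 0 < c → ∃ r : X → ℕ, Measurable r ∧ m.real {x | r (Z 1 x) ≠ r x + 1} ≤ c)
    {H lam a : ℕ} (hH : 0 < H) (hl : 0 < lam) (ha : 0 < a) (hΛ : Fintype.card Λ ≤ 2 ^ lam)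
    (hε : ∀ᶠ n : ℕ in atTop, m.real {x | ξ x = ξ (Z n x)} ≤ ε) :
    ∃ τ : X → ℕ, Measurable τ ∧ (∀ x, τ x < 2 ^ (5 * a)) ∧
      m.real {x | τ (Z 1 x) ≠ τ x} ≤ 1 / H + δ ∧
      ∀ᶠ n : ℕ in atTop, m.real {x | Z n x ∈ B ∧ τ x = τ (Z n x)} ≤
        η + 2 * (8 * H * lam * η + η) + 2 * H * ε + (8 / a + δ) := by
  classical
  obtain ⟨C, _, _, _, cd, V, s, mcd, hs, hV, hinj, hcd⟩ :=
    exists_codes hZ hξ hB hη (fun i => (h2 i).1) hH hl ha hΛ
  have mB := hB.1
  obtain ⟨σ, hσK, hσ⟩ := exists_code V (K := 2 ^ (5 * a)) (s := s) hV (by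
    clear * - a s ha hs
    rw [← pow_mul]
    exact Nat.pow_lt_pow_right one_lt_two (by linarith only [ha, hs, Nat.mul_pos ha hs])) (by positivity)
  set W := a * s * H with hW
  have hW0 : 0 < W := by positivity
  have mZ : ∀ i, Measurable (Z i) := fun i => (hZ.mp i).measurable
  obtain ⟨c, ⟨hc1, hc2⟩, hc0⟩ := (((ev_small (1 + H) hδ).and (ev_small (2 * W * W) hδ)).and
    self_mem_nhdsWithin).exists
  have hc0 : 0 < c := hc0
  obtain ⟨r₀, hr₀, hc⟩ := hclock c hc0
  set D : ℕ → Set X := fun p => B ∩ Z (-p) ⁻¹' {b | cd b ∉ V} with hD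
  have mV : MeasurableSet {b | cd b ∉ V} := mcd (MeasurableSet.of_discrete (s := {u | u ∉ V}))
  have mD : ∀ p, MeasurableSet (D p) := fun p => mB.inter (mZ _ mV)
  obtain ⟨s₀, -, hs₀⟩ := Finset.exists_le_of_sum_le (s := Finset.range W)
    (f := fun s => m.real {z | z ∈ D ((r₀ z + s) % W)}) (g := fun _ => 8 * H * lam * η + η)
    (Finset.nonempty_range_iff.mpr hW0.ne') ((residue hr₀ mD).trans (Finset.sum_le_sum fun p _ => by
      refine (measureReal_mono (s₂ := Z (-p) ⁻¹' (B ∩ {b | cd b ∉ V}) ∪ (B \ Z (-p) ⁻¹' B))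
        fun x hx => ?_).trans ((measureReal_union_le _ _).trans ?_)
      · by_cases h : Z (-p) x ∈ B
        exacts [Or.inl ⟨h, hx.2⟩, Or.inr ⟨hx.1, h⟩]
      · rw [hZ.real _ (mB.inter mV)]
        exact add_le_add hcd (h2 _).1))
  set r : X → ℕ := fun z => r₀ z + s₀ with hr
  have mr : Measurable r := hr₀.add_const _
  have hcr : m.real {x | r (Z 1 x) ≠ r x + 1} ≤ c := by
    refine le_trans (le_of_eq ?_) hc
    simp only [hr, add_right_comm _ s₀ 1, ne_eq, add_left_inj]
  have mP : Measurable fun z => r z % W := (Measurable.of_discrete (f := (· % W))).comp mr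
  set U : X → C × ℕ := fun z => (cd (Z (-(r z % W : ℕ)) z), r z % W / H) with hU
  have mU : Measurable U := (meas_sel mP (f := fun p z => cd (Z (-p) z))
    fun p => mcd.comp (mZ _)).prodMk ((Measurable.of_discrete (f := (· / H))).comp mP)
  have mτ : Measurable fun z => σ (U z).1 (U z).2 :=
    (Measurable.of_discrete (f := fun p : C × ℕ => σ p.1 p.2)).comp mU
  refine ⟨fun z => σ (U z).1 (U z).2, mτ, fun x => hσK _ _, ?_, ?_⟩
  · have h1 := jump (hZ.mp 1) mr hc0.le hcr hH 1
    refine (measureReal_mono (s₂ := {x | r (Z 1 x) ≠ r x + 1} ∪ {x | (r x + 1) / H ≠ r x / H})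
      fun x hx => ?_).trans ((measureReal_union_le _ _).trans (by clear * - X mX m r Z H δ c hc1 hcr h1; push_cast at h1; linarith only [hc1, hcr, h1]))
    by_contra hn
    simp only [mem_union, mem_ofPred_eq, not_or, not_not] at hn
    apply hx
    have hd : H ∣ W := Dvd.intro_left _ rfl
    have a1 : ¬ H ∣ r x + 1 := fun h => by
      have := hn.2
      rw [Nat.succ_div, if_pos h] at this
      omega
    have a2 : ¬ H ∣ r x % W + 1 := fun h => a1 (by
      rw [← Nat.div_add_mod (r x) W, add_assoc]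
      exact dvd_add (dvd_mul_of_dvd_left hd _) h)
    have a3 : (r x + 1) % W = r x % W + 1 := by
      have := Nat.mod_lt (r x) hW0
      rw [← Nat.mod_add_mod, Nat.mod_eq_of_lt (lt_of_le_of_ne this fun h => a2 (hd.trans (dvd_of_eq h.symm)))]
    simp only [hU, hn.1, a3, hZ.add, Nat.succ_div, if_neg a2]
    simp
  obtain ⟨N, hN⟩ := eventually_atTop.mp hε
  filter_upwards [eventually_ge_atTop (N + H)] with n hn
  set E := {x | (U x).1 ∈ V ∧ (U (Z n x)).1 ∈ V ∧ U x ≠ U (Z n x) ∧
    σ (U x).1 (U x).2 = σ (U (Z n x)).1 (U (Z n x)).2} with hE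
  have mE : MeasurableSet E := (mU.prodMk (mU.comp (mZ n))) (MeasurableSet.of_discrete
    (s := {p : (C × ℕ) × C × ℕ | p.1.1 ∈ V ∧ p.2.1 ∈ V ∧ p.1 ≠ p.2 ∧ σ p.1.1 p.1.2 = σ p.2.1 p.2.2}))
  have sE : m.real E ≤ 8 / a + δ := by
    set Bad := ⋃ i ∈ Finset.range W, {x | r (Z i x) ≠ r x + i} with hBad
    have mBad : MeasurableSet Bad := Finset.measurableSet_biUnion _ fun i _ =>
      (measurableSet_eq_fun (mr.comp (mZ _)) (mr.add_const i)).compl
    have sBad : m.real Bad ≤ W * (W * c) := by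
      refine (measureReal_biUnion_finset_le _ _).trans ((Finset.sum_le_sum
        (g := fun _ => (W : ℝ) * c) fun i hi => ?_).trans (by simp))
      have := clock_iter (hZ.mp 1) mr hcr i
      rw [hZ.iter] at this
      exact this.trans (by gcongr; exact (Finset.mem_range.mp hi).le)
    have h3 := sum_le_card (m := m) (Finset.range W) (A := fun i => Z i ⁻¹' E)
      (fun i => mZ i mE) (mBad.union (mZ n mBad)) (k := 8 * (s * H)) fun y hy => by
        refine le_trans (Finset.card_le_card fun i hi => ?_) (coin_window hH hσ (r y) (r (Z n y))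
          (fun α => cd (Z α y)) fun β => cd (Z β (Z n y)))
        simp only [hBad, mem_union, mem_preimage, mem_iUnion, mem_ofPred_eq, not_or, not_exists,
          not_not] at hy
        obtain ⟨hi, hi'⟩ := Finset.mem_filter.mp hi
        have e : Z n (Z i y) = Z i (Z n y) := by rw [hZ.add, hZ.add, add_comm]
        simp only [hE, hU, mem_preimage, mem_ofPred_eq, e, hy.1 i hi, hy.2 i hi] at hi'
        simp only [hZ.add (-_) i, neg_add_eq_sub] at hi'
        exact Finset.mem_filter.mpr ⟨hi, hi'⟩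
    simp only [fun i => hZ.real i mE, Finset.sum_const, Finset.card_range, nsmul_eq_mul] at h3
    have h4 := measureReal_union_le (μ := m) Bad (Z n ⁻¹' Bad)
    rw [hZ.real _ mBad] at h4
    have hW' : (0 : ℝ) < W := by exact_mod_cast hW0
    refine le_of_mul_le_mul_left (h3.trans ?_) hW'
    rw [mul_add]
    refine add_le_add (le_of_eq ?_) (mul_le_mul_of_nonneg_left (by clear * - X mX m Bad Z n δ W c hc2 sBad h4 hW'; linarith only [hc2, sBad, h4]) hW'.le)
    rw [hW]
    push_cast
    field_simp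
  have sS : m.real (⋃ j ∈ Finset.range (2 * H), {x | ξ x = ξ (Z (n - H + j : ℕ) x)}) ≤ 2 * H * ε :=
    (measureReal_biUnion_finset_le _ _).trans ((Finset.sum_le_sum (g := fun _ => ε)
      fun j _ => hN _ (by omega)).trans (by simp))
  have mD' := meas_pick mP mD
  refine (measureReal_mono (s₂ := (((Z n ⁻¹' B \ B) ∪ ({z | z ∈ D (r z % W)} ∪
    Z n ⁻¹' {z | z ∈ D (r z % W)})) ∪ ⋃ j ∈ Finset.range (2 * H),
      {x | ξ x = ξ (Z (n - H + j : ℕ) x)}) ∪ E) fun x hx => ?_).trans
    ((measureReal_union_le _ _).trans (add_le_add ((measureReal_union_le _ _).trans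
      (add_le_add ((measureReal_union_le _ _).trans (add_le_add (h2 n).2
        ((measureReal_union_le _ _).trans ?_))) sS)) sE))
  · by_contra hn'
    simp only [mem_union, Set.mem_sdiff, mem_preimage, mem_ofPred_eq, not_or, not_and, not_not, hD,
      mem_inter_iff, hE, mem_iUnion, not_exists, Finset.mem_range] at hn'
    obtain ⟨⟨⟨a1, a2, a3⟩, a4⟩, a5⟩ := hn'
    have he : U x = U (Z n x) := by
      by_contra h
      exact a5 (a2 (a1 hx.1)) (a3 hx.1) h hx.2
    have b1 := hinj _ _ (congrArg Prod.fst he) (r x % W) (Nat.mod_lt _ hW0)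
    have b2 : r x % W / H = r (Z n x) % W / H := congrArg Prod.snd he
    have b3 := Nat.div_add_mod (r x % W) H
    have b4 := Nat.div_add_mod (r (Z n x) % W) H
    have b5 := Nat.mod_lt (r x % W) hH
    have b6 := Nat.mod_lt (r (Z n x) % W) hH
    rw [b2] at b3
    refine a4 (r x % W + H - r (Z n x) % W) (by omega) ?_
    simp only [hZ.add, add_neg_cancel, hZ.zero] at b1
    rw [b1]
    congr 2
    omega
  · rw [hZ.real _ mD', two_mul]
    exact add_le_add hs₀ hs₀

end Pool.Agent.Work.MP_2967d5_an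
end

-- merged part: Pool.Agent.Work.MP_2967d5_an.C.Per
section
/-! Approximation by transformations that are periodic on a prescribed set. -/

open MeasureTheory Set Filter Topology
open scoped symmDiff ENNReal

namespace Pool.Agent.Work.MP_2967d5_an

variable {Z : Type*} [MeasurableSpace Z] {μ : Measure Z} [IsProbabilityMeasure μ]

omit [IsProbabilityMeasure μ] in
open Classical in
theorem swap_mp {f g : Z → Z} (hf : MeasurePreserving f μ μ) (hg : MeasurePreserving g μ μ)
    {E E' : Set Z} (hE : MeasurableSet E) (hE' : MeasurableSet E') (hd : Disjoint E E')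
    (h1 : f ⁻¹' E' = E) (h2 : g ⁻¹' E = E') :
    MeasurePreserving (fun z => if z ∈ E then f z else if z ∈ E' then g z else z) μ μ := by
  have hm : Measurable fun z => if z ∈ E then f z else if z ∈ E' then g z else z :=
    Measurable.ite hE hf.measurable (Measurable.ite hE' hg.measurable measurable_id)
  refine ⟨hm, Measure.ext fun B hB => ?_⟩
  have key : ∀ D, MeasurableSet D → μ D = μ (D ∩ E) + μ (D ∩ E') + μ ((D \ E) \ E') := by
    intro D hD
    rw [← measure_inter_add_sdiff D hE, ← measure_inter_add_sdiff (D \ E) hE', add_assoc]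
    congr 3
    ext z
    exact ⟨fun h => ⟨h.1.1, h.2⟩, fun h => ⟨⟨h.1, fun h' => Set.disjoint_left.mp hd h' h.2⟩, h.2⟩⟩
  rw [Measure.map_apply hm hB, key _ (hm hB), key B hB, add_comm (μ (B ∩ E)),
    ← hf.measure_preimage (hB.inter hE').nullMeasurableSet,
    ← hg.measure_preimage (hB.inter hE).nullMeasurableSet, preimage_inter, preimage_inter, h1, h2]
  congr 2
  · congr 1
    ext z
    by_cases h : z ∈ E <;> simp [h]
  · congr 1
    ext z
    by_cases h : z ∈ E'
    · simp [h, Set.disjoint_right.mp hd h]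
    · simp [h]
  · ext z
    by_cases h : z ∈ E <;> by_cases h' : z ∈ E' <;> simp [h, h']

omit [IsProbabilityMeasure μ] in
theorem ae_iter {T U : Z → Z} (hU : MeasurePreserving U μ μ) (h : T =ᵐ[μ] U) (n : ℕ) :
    ∀ᵐ z ∂μ, T^[n] z = U^[n] z := by
  induction n with
  | zero => exact Eventually.of_forall fun _ => rfl
  | succ n ih =>
    filter_upwards [ih, (hU.iterate n).quasiMeasurePreserving.ae h] with z h1 h2
    rw [Function.iterate_succ_apply', Function.iterate_succ_apply', h1, h2]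

theorem periodic_approx [StandardBorelSpace Z] (T : Aut μ) {G : Set Z} (hG : MeasurableSet G)
    {h : ℕ} (hh : 0 < h) :
    ∃ T₁ : Aut μ, (∀ᵐ z ∂μ, T₁.rep z = T.rep z ∨ ∃ w ∈ G,
        (T₁.rep z = w ∧ T.rep z = T.rep^[h] w) ∨ (T.rep z = w ∧ T₁.rep z = T.rep^[h] w)) ∧
      μ.real {z | T₁.rep z ≠ T.rep z} ≤ 2 / (h + 1) ∧ ∃ q, 0 < q ∧ ∀ k,
        μ.real {z | (∀ j, T.rep.symm^[j] z ∈ G) ∧ T₁.rep^[q * k] z ≠ z} ≤ 2 / (h + 1) := by
  classical
  set L := 2 * h * (h + 1) with hL
  obtain ⟨r, hr, hrc⟩ := marker_clock T L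
  have mT : ∀ i, Measurable T.rep^[i] := fun i => T.rep.measurable.iterate i
  have mN := meas_NP T.rep.measurable L
  set E : Set Z := G ∩ (NP T.rep L ∩ ({z | r z % (h + 1) = 0} ∩
    ⋂ i ∈ Iic h, {z | r (T.rep^[i] z) = r z + i})) with hE
  have memE : ∀ z, z ∈ E ↔ z ∈ G ∧ z ∈ NP T.rep L ∧ r z % (h + 1) = 0 ∧
      ∀ i ≤ h, r (T.rep^[i] z) = r z + i := fun z => by simp [hE]
  have mE : MeasurableSet E := hG.inter (mN.inter ((meas_pred hr (· % (h + 1) = 0)).inter
    (MeasurableSet.biInter (to_countable _) fun i _ =>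
      measurableSet_eq_fun (hr.comp (mT i)) (hr.add_const i))))
  set E' : Set Z := T.rep.symm^[h] ⁻¹' E with hE'
  have mE' : MeasurableSet E' := (T.rep.symm.measurable.iterate h) mE
  have res : ∀ b ∈ E, ∀ i ≤ h, r (T.rep^[i] b) % (h + 1) = i := fun b hb i hi => by
    obtain ⟨-, -, h1, h2⟩ := (memE b).mp hb
    rw [h2 i hi, ← Nat.mod_add_mod, h1, zero_add, Nat.mod_eq_of_lt (by omega)]
  have res' : ∀ z ∈ E', r z % (h + 1) = h := fun z hz => by
    simpa only [iter_symm] using res _ hz h le_rfl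
  have res0 : ∀ z ∈ E, r z % (h + 1) = 0 := fun z hz => res z hz 0 (Nat.zero_le _)
  have hd : Disjoint E E' := Set.disjoint_left.mpr fun z h1 h2 => by
    have := res0 z h1
    have := res' z h2
    omega
  have e1 : T.rep^[h] ⁻¹' E' = E := by ext z; simp only [hE', mem_preimage, symm_iter]
  set Θ : Z → Z := fun z => if z ∈ E then T.rep^[h] z else if z ∈ E' then T.rep.symm^[h] z else z
    with hΘ
  have mpΘ : MeasurePreserving Θ μ μ := by
    convert swap_mp (T.mp.iterate h) (T.mp_symm.iterate h) mE mE' hd e1 rfl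
  have inv : ∀ z, Θ (Θ z) = z := fun z => by
    by_cases h1 : z ∈ E
    · have h2 : T.rep^[h] z ∈ E' := by rwa [← e1] at h1
      simp only [hΘ, if_pos h1, if_neg (Set.disjoint_right.mp hd h2), if_pos h2, symm_iter]
    · by_cases h2 : z ∈ E'
      · simp only [hΘ, if_neg h1, if_pos h2, if_pos (show T.rep.symm^[h] z ∈ E from h2), iter_symm]
      · simp only [hΘ, if_neg h1, if_neg h2]
  set U : Z → Z := fun z => Θ (T.rep z) with hU
  have mpU : MeasurePreserving U μ μ := mpΘ.comp T.mp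
  obtain ⟨T₁, hT₁⟩ := exists_aut (T := U) (S := fun z => T.rep.symm (Θ z)) mpU
    (T.mp_symm.comp mpΘ) (Eventually.of_forall fun z => by simp [hU, inv])
    (Eventually.of_forall fun z => by simp [hU, inv])
  have sE : μ.real E ≤ 1 / (h + 1) := sep_small T.mp mE fun z hz i h1 h2 hz' => by
    have := res z hz i h2
    have := res0 _ hz'
    omega
  have sE' : μ.real E' ≤ 1 / (h + 1) := by
    rwa [hE', (T.mp_symm.iterate h).measureReal_preimage mE.nullMeasurableSet]
  refine ⟨T₁, ?_, ?_, h * L.factorial, Nat.mul_pos hh L.factorial_pos, fun k => ?_⟩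
  · filter_upwards [hT₁] with z hz
    rw [hz]
    by_cases h1 : T.rep z ∈ E
    · exact Or.inr ⟨_, h1.1, Or.inr ⟨rfl, if_pos h1⟩⟩
    · by_cases h2 : T.rep z ∈ E'
      · exact Or.inr ⟨_, h2.1, Or.inl ⟨by simp only [hU, hΘ, if_neg h1, if_pos h2],
          (iter_symm _ _ _).symm⟩⟩
      · exact Or.inl (by simp only [hU, hΘ, if_neg h1, if_neg h2])
  · refine le_trans (ENNReal.toReal_mono (measure_ne_top _ (T.rep ⁻¹' (E ∪ E')))
      (measure_mono_ae ?_)) ?_
    · filter_upwards [hT₁] with z hz hne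
      by_contra hn
      have hn' : ¬ (T.rep z ∈ E ∨ T.rep z ∈ E') := hn
      rw [not_or] at hn'
      exact hne (by rw [hz]; simp only [hU, hΘ, if_neg hn'.1, if_neg hn'.2])
    · rw [← Measure.real, T.mp.measureReal_preimage (mE.union mE').nullMeasurableSet]
      refine (measureReal_union_le _ _).trans ?_
      rw [← add_halves (2 / (h + 1 : ℝ))]
      exact add_le_add (sE.trans (le_of_eq (by ring))) (sE'.trans (le_of_eq (by ring)))
  · set B := {z | z ∈ NP T.rep L ∧ r (T.rep z) ≠ r z + 1} with hB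
    have mB : MeasurableSet B :=
      mN.inter (measurableSet_eq_fun (hr.comp T.rep.measurable) (hr.add_const 1)).compl
    have tower : ∀ b ∈ E, ∀ j < h, U^[j] b = T.rep^[j] b := fun b hb j => by
      induction j with
      | zero => exact fun _ => rfl
      | succ j ih =>
        intro hj
        have h1 := res b hb (j + 1) hj.le
        rw [Function.iterate_succ_apply', ih (by omega), hU]
        simp only [← Function.iterate_succ_apply' T.rep, hΘ, Nat.succ_eq_add_one]
        rw [if_neg fun h2 => by have := res0 _ h2; omega,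
          if_neg fun h2 => by have := res' _ h2; omega]
    have top : ∀ b ∈ E, U^[h] b = b := fun b hb => by
      have h2 : T.rep^[h] b ∈ E' := by rwa [← e1] at hb
      have h3 : U^[h] b = Θ (T.rep^[h] b) := by
        obtain ⟨j, rfl⟩ := Nat.exists_eq_succ_of_ne_zero hh.ne'
        rw [Function.iterate_succ_apply', tower b hb j (Nat.lt_succ_self _),
          Function.iterate_succ_apply']
      rw [h3]
      simp only [hΘ, if_neg (Set.disjoint_right.mp hd h2), if_pos h2, symm_iter]
    have per : ∀ z ∉ NP T.rep L, ∀ n, U^[n] z = T.rep^[n] z := fun z hz n => by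
      induction n with
      | zero => rfl
      | succ n ih =>
        have h1 : T.rep^[n + 1] z ∉ NP T.rep L := by rwa [NP_iter]
        rw [Function.iterate_succ_apply', ih, hU]
        simp only [← Function.iterate_succ_apply' T.rep, hΘ, Nat.succ_eq_add_one]
        rw [if_neg fun h2 => h1 h2.2.1, if_neg fun h2 => h1 ?_]
        have := (NP_iter T.rep L h _).mpr h2.2.1
        rwa [iter_symm] at this
    refine le_trans (ENNReal.toReal_mono (measure_ne_top _ (E' ∪ ⋃ i ∈ Finset.range (2 * h),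
      T.rep.symm^[h] ⁻¹' (T.rep^[i] ⁻¹' B))) (measure_mono_ae ?_)) ?_
    · filter_upwards [ae_iter mpU hT₁ (h * L.factorial * k)] with z hz ⟨hzG, hne⟩
      by_contra hn
      apply hne
      rw [hz]
      by_cases hN : z ∈ NP T.rep L
      · have hn' : ¬ (z ∈ E' ∨ z ∈ ⋃ i ∈ Finset.range (2 * h),
          T.rep.symm^[h] ⁻¹' (T.rep^[i] ⁻¹' B)) := hn
        simp only [hB, mem_iUnion, Finset.mem_range, mem_preimage, mem_ofPred_eq, not_or,
          not_exists, not_and, not_not] at hn'
        set y := T.rep.symm^[h] z with hy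
        have hzy : T.rep^[h] y = z := iter_symm _ _ _
        have hyN : y ∈ NP T.rep L := (NP_iter T.rep L h y).mp (by rwa [hzy])
        have good : ∀ i ≤ 2 * h, r (T.rep^[i] y) = r y + i := fun i => by
          induction i with
          | zero => exact fun _ => rfl
          | succ i ih =>
            intro hi
            rw [Function.iterate_succ_apply', hn'.2 i hi ((NP_iter _ _ _ _).mpr hyN),
              ih (by omega), add_assoc]
        set j := r z % (h + 1) with hj
        have hjh : j ≤ h := Nat.lt_succ_iff.mp (Nat.mod_lt _ h.succ_pos)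
        have hb : T.rep^[j] (T.rep^[h - j] y) = z := by
          rw [← Function.iterate_add_apply, Nat.add_sub_of_le hjh, hzy]
        have hrz : r z = r y + h := by rw [← good h (by omega), hzy]
        have hbE : T.rep^[h - j] y ∈ E := by
          clear * - Z E μ T h j y G L r memE z hzG hb hyN good hjh hrz hj
          refine (memE _).mpr ⟨?_, (NP_iter _ _ _ _).mpr hyN, ?_, fun i hi => ?_⟩
          · have := hzG j
            rwa [← hb, symm_iter] at this
          · rw [good _ (by omega), show r y + (h - j) = r z - j by omega, hj]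
            exact Nat.sub_mod_eq_zero_of_mod_eq (Nat.mod_mod _ _).symm
          · rw [← Function.iterate_add_apply, good _ (by omega), good _ (by omega)]
            omega
        rcases hjh.lt_or_eq with hjh | hjh
        · have h1 : U^[h] z = z := by
            rw [← hb, ← tower _ hbE j hjh, iter_comm, top _ hbE]
          rw [mul_assoc, Function.iterate_mul]
          exact Function.IsFixedPt.iterate h1 _
        · rw [hjh, Nat.sub_self] at hbE
          exact (hn'.1 hbE).elim
      · rw [per z hN]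
        simp only [NP, mem_ofPred_eq, not_forall, not_not] at hN
        obtain ⟨i, h1, h2, h3⟩ := hN
        obtain ⟨c, hc⟩ := Nat.dvd_factorial h1 h2
        rw [hc, show h * (i * c) * k = i * (h * c * k) by ring, Function.iterate_mul]
        exact Function.IsFixedPt.iterate h3 _
    · rw [← Measure.real]
      refine (measureReal_union_le _ _).trans ?_
      rw [← add_halves (2 / (h + 1 : ℝ))]
      refine add_le_add (sE'.trans (le_of_eq (by ring))) ((measureReal_biUnion_finset_le _ _).trans ?_)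
      simp only [fun i => (T.mp_symm.iterate h).measureReal_preimage (mT i mB).nullMeasurableSet,
        fun i => (T.mp.iterate i).measureReal_preimage mB.nullMeasurableSet, Finset.sum_const,
        Finset.card_range, nsmul_eq_mul]
      refine (mul_le_mul_of_nonneg_left hrc (Nat.cast_nonneg _)).trans ?_
      rw [hL, mul_one_div, div_le_iff₀ (by positivity)]
      push_cast
      field_simp
      clear * - h
      linarith only []

end Pool.Agent.Work.MP_2967d5_an
end

-- merged part: Pool.Agent.Work.MP_2967d5_an.C.NR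
section
/-! Rigidity in terms of finite partitions. -/

open MeasureTheory Set Filter Topology MeasurableSpace
open scoped symmDiff ENNReal InnerProductSpace

namespace Pool.Agent.Work.MP_2967d5_an

variable {X : Type*} [MeasurableSpace X] {m : Measure X} [IsProbabilityMeasure m]

/-- some finite partitions are eventually moved almost off themselves -/
def NR (R : Aut m) : Prop :=
  ∀ ε : ℝ, 0 < ε → ∃ (Λ : Type) (_ : Fintype Λ) (_ : MeasurableSpace Λ)
    (_ : DiscreteMeasurableSpace Λ) (ξ : X → Λ), Measurable ξ ∧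
      ∀ᶠ n in atTop, m.real {x | ξ x = ξ (R.rep^[n] x)} ≤ ε

theorem NR.not_rigid {R : Aut m} (h : NR R) : ¬ PartiallyRigid R := by
  rintro ⟨D, α, n, hD, -, hD0, hα, hn, hA⟩
  have h0 : 0 < min α 1 * m D := ENNReal.mul_pos (lt_min hα one_pos).ne' hD0.ne'
  obtain ⟨ε, hε, hε'⟩ := ENNReal.lt_iff_exists_nnreal_btwn.mp h0
  obtain ⟨Λ, _, _, _, ξ, hξ, hev⟩ := h ε (by exact_mod_cast hε)
  set A : Λ → Set X := fun a => D ∩ ξ ⁻¹' {a} with hAd
  have mA : ∀ a, MeasurableSet (A a) := fun a => hD.inter (hξ (MeasurableSet.of_discrete))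
  have hd : Pairwise (Function.onFun Disjoint A) := fun a b hab =>
    Set.disjoint_left.mpr fun x hx hx' => hab (hx.2.symm.trans hx'.2)
  have h1 : m D = ∑ a, m (A a) := by
    clear * - X m D Λ A hd mA ξ hAd
    rw [← tsum_fintype (L := SummationFilter.unconditional Λ), ← measure_iUnion hd mA]
    congr 1
    ext x
    simp [hAd]
  have h2 : ∀ k, ∑ a, m (A a ∩ R.rep^[n k] ⁻¹' A a) ≤ m {x | ξ x = ξ (R.rep^[n k] x)} := fun k => by
    rw [← tsum_fintype (L := SummationFilter.unconditional Λ), ← measure_iUnion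
      (fun a b hab => (hd hab).mono inter_subset_left inter_subset_left)
      fun a => (mA a).inter ((R.rep.measurable.iterate _) (mA a))]
    exact measure_mono (iUnion_subset fun a x hx => hx.1.2.trans hx.2.2.symm)
  obtain ⟨U, hU⟩ := Ultrafilter.exists_le (atTop : Filter ℕ)
  have h3 : ∀ a, ∃ l, α * m (A a) ≤ l ∧
      Tendsto (fun k => m (A a ∩ R.rep^[n k] ⁻¹' A a)) U (𝓝 l) := fun a => by
    obtain ⟨l, -, hl⟩ := isCompact_univ.ultrafilter_le_nhds'
      (U.map fun k => m (A a ∩ R.rep^[n k] ⁻¹' A a)) univ_mem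
    exact ⟨l, (hA _ (mA a) inter_subset_left).trans
      ((liminf_le_liminf_of_le hU).trans (Tendsto.liminf_eq hl).le), hl⟩
  choose l hl hl' using h3
  have h4 : ∑ a, l a ≤ ε := by
    refine le_of_tendsto (tendsto_finsetSum _ fun a _ => hl' a) (hU ?_)
    filter_upwards [hn.tendsto_atTop.eventually hev] with k hk
    refine (h2 k).trans ?_
    rw [← ofReal_measureReal, ← ENNReal.ofReal_coe_nnreal]
    exact ENNReal.ofReal_le_ofReal hk
  refine hε'.not_ge (le_trans ?_ h4)
  rw [h1, Finset.mul_sum]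
  exact Finset.sum_le_sum fun a _ => (mul_le_mul_left (min_le_left _ _) _).trans (hl a)

theorem weak_limit [CountablyGenerated X] {E : ℕ → Set X} (hE : ∀ j, MeasurableSet (E j)) :
    ∃ (ψ : ℕ → ℕ) (g : X → ℝ), StrictMono ψ ∧ Measurable g ∧ Integrable g m ∧
      ∀ A, MeasurableSet A → Tendsto (fun j => m.real (E (ψ j) ∩ A)) atTop (𝓝 (∫ x in A, g x ∂m)) := by
  have : Fact ((2 : ℝ≥0∞) ≠ ∞) := ⟨by simp⟩
  set u : ℕ → Lp ℝ 2 m := fun j => indicatorConstLp 2 (hE j) (measure_ne_top _ _) 1 with hu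
  have hn : ∀ j, ‖u j‖ ≤ 1 := fun j => by
    rw [hu, norm_indicatorConstLp (by simp) (by simp), norm_one, one_mul]
    exact Real.rpow_le_one measureReal_nonneg measureReal_le_one (by simp)
  obtain ⟨φ, -, ψ, hψ, hlim⟩ := WeakDual.isSeqCompact_closedBall ℝ (Lp ℝ 2 m) 0 1
    (x := fun j => StrongDual.toWeakDual (InnerProductSpace.toDual ℝ _ (u j)))
    (fun j => by clear * - X m u j hn; simpa using hn j)
  set g := (InnerProductSpace.toDual ℝ (Lp ℝ 2 m)).symm (WeakDual.toStrongDual φ) with hg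
  refine ⟨ψ, g, hψ, (Lp.stronglyMeasurable g).measurable, (Lp.memLp g).integrable (by simp),
    fun A hA => ?_⟩
  have h1 := ((WeakDual.eval_continuous
    (indicatorConstLp 2 hA (measure_ne_top m _) (1 : ℝ))).tendsto φ).comp hlim
  rw [← L2.inner_indicatorConstLp_one hA (measure_ne_top m _), real_inner_comm, hg,
    InnerProductSpace.toDual_symm_apply]
  refine h1.congr fun j => ?_
  exact L2.real_inner_indicatorConstLp_one_indicatorConstLp_one _ _ _ _

theorem small_move [CountablyGenerated X] {a : ℕ → X → X} (ha : ∀ j, MeasurePreserving (a j) m m)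
    {E : ℕ → Set X} (h : ∀ j, ∀ x ∈ E j, ∀ i < j, mapNatBool X x i = mapNatBool X (a j x) i)
    {A : Set X} (hA : MeasurableSet A) :
    Tendsto (fun j => m (E j ∩ A ∆ (a j ⁻¹' A))) atTop (𝓝 0) := by
  set C : Set (Set X) := {D | MeasurableSet D ∧ ∀ᶠ j in atTop, E j ∩ D ∆ (a j ⁻¹' D) = ∅} with hC
  have hring : IsSetRing C :=
    { empty_mem := ⟨MeasurableSet.empty, by simp⟩
      union_mem := fun D D' h1 h2 => ⟨h1.1.union h2.1, by
        filter_upwards [h1.2, h2.2] with j a1 a2
        simp only [Set.ext_iff, mem_inter_iff, mem_symmDiff, mem_preimage, mem_union,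
          mem_empty_iff_false] at a1 a2 ⊢
        grind⟩
      sdiff_mem := fun D D' h1 h2 => ⟨h1.1.diff h2.1, by
        filter_upwards [h1.2, h2.2] with j a1 a2
        simp only [Set.ext_iff, mem_inter_iff, mem_symmDiff, mem_preimage, Set.mem_sdiff,
          mem_empty_iff_false] at a1 a2 ⊢
        grind⟩ }
  have hgen : (inferInstance : MeasurableSpace X) = generateFrom C := by
    refine le_antisymm ?_ (generateFrom_le fun D hD => hD.1)
    refine (generateFrom_natGeneratingSequence X).ge.trans (generateFrom_mono ?_)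
    rintro _ ⟨i, rfl⟩
    refine ⟨measurableSet_natGeneratingSequence i, ?_⟩
    filter_upwards [eventually_gt_atTop i] with j hj
    refine eq_empty_of_forall_notMem fun x hx => ?_
    have := h j x hx.1 i hj
    have h2 := hx.2
    simp only [← mapNatBool_coord, mem_symmDiff, mem_preimage, mem_ofPred_eq, this] at h2
    tauto
  rw [ENNReal.tendsto_nhds_zero]
  intro ε hε
  obtain ⟨D, hD, hlt⟩ := exists_measure_symmDiff_lt_of_generateFrom_isSetRing (μ := m) hring
    ⟨{univ}, countable_singleton _, by simp [hC], by simp⟩ hgen hA (ENNReal.half_pos hε.ne')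
  filter_upwards [hD.2] with j hj
  calc _ ≤ m (D ∆ A ∪ (a j ⁻¹' D) ∆ (a j ⁻¹' A)) := measure_mono fun x hx => by
        clear * - X D A a j x E hj hx
        simp only [Set.ext_iff, mem_inter_iff, mem_symmDiff, mem_preimage, mem_union,
          mem_empty_iff_false] at hj hx ⊢
        grind
    _ ≤ ε / 2 + ε / 2 := (measure_union_le _ _).trans
        (add_le_add hlt.le (by rw [mp_symmDiff (ha j) hD.1 hA]; exact hlt.le))
    _ = ε := ENNReal.add_halves ε

theorem rigid_of_set {R : Aut m} {D : Set X} {α : ℝ≥0∞} {n : ℕ → ℕ} (hD : MeasurableSet D)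
    (hD0 : 0 < m D) (hα : 0 < α) (hn : StrictMono n) (h : ∀ A : Set X, MeasurableSet A → A ⊆ D →
      α * m A ≤ liminf (fun k => m (A ∩ R.rep^[n k] ⁻¹' A)) atTop) : PartiallyRigid R := by
  obtain ⟨Z, hZ, hZR⟩ := exists_flow R
  obtain ⟨e, he⟩ := exists_surjective_nat ℤ
  have mD : ∀ j, MeasurableSet (Z (e j) ⁻¹' D) := fun j => (hZ.mp _).measurable hD
  have mem : ∀ x, x ∈ ⋃ j, Z (e j) ⁻¹' D ↔ ∃ i, Z i x ∈ D := fun x => by
    rw [he.exists]; simp
  refine ⟨⋃ j, Z (e j) ⁻¹' D, α, n, MeasurableSet.iUnion mD, EventuallyEq.of_eq (Set.ext fun x => ?_),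
    hD0.trans_le (measure_mono fun x hx => (mem x).mpr ⟨0, by rwa [hZ.zero]⟩), hα, hn,
    fun A hA hAD => ?_⟩
  · rw [mem_preimage, mem, mem, show R.rep x = Z 1 x from (congrFun (hZR 1) x).symm]
    simp only [hZ.add]
    exact ⟨fun ⟨i, hi⟩ => ⟨_, hi⟩, fun ⟨i, hi⟩ => ⟨i - 1, by rwa [sub_add_cancel]⟩⟩
  set P : ℕ → Set X := fun j => A ∩ disjointed (fun j => Z (e j) ⁻¹' D) j with hP
  have mP : ∀ j, MeasurableSet (P j) := fun j => hA.inter (MeasurableSet.disjointed mD j)
  have hd : Pairwise (Function.onFun Disjoint P) := fun i j hij =>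
    (disjoint_disjointed _ hij).mono inter_subset_right inter_subset_right
  have h1 : ∀ j, α * m (P j) ≤ liminf (fun k => m (P j ∩ R.rep^[n k] ⁻¹' P j)) atTop := fun j => by
    have := h (Z (-e j) ⁻¹' P j) ((hZ.mp _).measurable (mP j)) fun x hx => by
      simpa [hZ.add, hZ.zero] using disjointed_subset _ j hx.2
    rw [(hZ.mp _).measure_preimage (mP j).nullMeasurableSet] at this
    refine this.trans (le_of_eq (congrArg (liminf · atTop) (funext fun k => ?_)))
    rw [← (hZ.mp (-e j)).measure_preimage ((mP j).inter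
      (R.rep.measurable.iterate _ (mP j))).nullMeasurableSet, ← hZR]
    congr 1
    ext x
    simp only [mem_inter_iff, mem_preimage, hZ.add, add_comm]
  calc α * m A = ∑' j, α * m (P j) := by
        rw [ENNReal.tsum_mul_left, ← measure_iUnion hd mP, ← inter_iUnion, iUnion_disjointed,
          inter_eq_left.mpr hAD]
    _ ≤ ∫⁻ j, liminf (fun k => m (P j ∩ R.rep^[n k] ⁻¹' P j)) atTop ∂Measure.count := by
        rw [lintegral_count]
        exact ENNReal.tsum_le_tsum h1
    _ ≤ _ := (lintegral_liminf_le fun _ => Measurable.of_discrete).trans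
        (liminf_le_liminf (Eventually.of_forall fun k => by
          rw [lintegral_count, ← measure_iUnion (fun a b hab => (hd hab).mono inter_subset_left
            inter_subset_left) fun a => (mP a).inter ((R.rep.measurable.iterate _) (mP a))]
          exact measure_mono (iUnion_subset fun a x hx => ⟨hx.1.1, hx.2.1⟩)))

theorem rigid_of_not_NR [CountablyGenerated X] {R : Aut m} (h : ¬ NR R) : PartiallyRigid R := by
  simp only [NR, not_forall, not_exists, not_and, not_eventually, not_le] at h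
  obtain ⟨ε, hε, h⟩ := h
  have mφ : ∀ j, Measurable fun x (i : Fin j) => mapNatBool X x i := fun j =>
    measurable_pi_lambda _ fun i => (measurable_pi_apply _).comp (measurable_mapNatBool X)
  obtain ⟨n, hn, hn'⟩ := extraction_forall_of_frequently fun j =>
    h (Fin j → Bool) inferInstance inferInstance inferInstance _ (mφ j)
  set E : ℕ → Set X := fun j => {x | (fun i : Fin j => mapNatBool X x i) =
    fun i : Fin j => mapNatBool X (R.rep^[n j] x) i} with hE
  have mE : ∀ j, MeasurableSet (E j) := fun j =>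
    measurableSet_eq_fun (mφ j) ((mφ j).comp (R.rep.measurable.iterate _))
  obtain ⟨ψ, g, hψ, mg, ig, hg⟩ := weak_limit (m := m) mE
  have mD : MeasurableSet {x | ε / 2 ≤ g x} := measurableSet_le measurable_const mg
  refine rigid_of_set (α := ENNReal.ofReal (ε / 2)) mD (pos_iff_ne_zero.mpr fun h0 => ?_)
    (by simpa using hε) (hn.comp hψ) fun A hA hAD => ?_
  · have h1 := ge_of_tendsto' (hg univ MeasurableSet.univ) fun j => by
      simpa only [inter_univ] using (hn' (ψ j)).le
    have h2 : ∫ x, g x ∂m ≤ ∫ _, ε / 2 ∂m := integral_mono_ae ig (integrable_const _) (by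
      filter_upwards [measure_eq_zero_iff_ae_notMem.mp h0] with x hx using (not_le.mp hx).le)
    simp only [Measure.restrict_univ, integral_const, probReal_univ, smul_eq_mul] at h1 h2
    linarith only [hε, h1, h2]
  · have h1 := (ENNReal.tendsto_toReal ENNReal.zero_ne_top).comp
      ((small_move (fun j => R.mp.iterate (n j)) (E := E)
        (fun j x hx i hi => congrFun hx ⟨i, hi⟩) hA).comp hψ.tendsto_atTop)
    have h2 := ENNReal.tendsto_ofReal ((hg A hA).sub h1)
    refine le_trans ?_ (h2.liminf_eq.ge.trans (liminf_le_liminf (Eventually.of_forall fun j => ?_)))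
    · rw [← ofReal_measureReal (μ := m) (s := A), ← ENNReal.ofReal_mul (half_pos hε).le]
      refine ENNReal.ofReal_le_ofReal ?_
      simpa using setIntegral_ge_of_const_le_real hA (measure_ne_top _ _) hAD ig.integrableOn
    · refine ENNReal.ofReal_le_of_le_toReal (sub_le_iff_le_add.mpr ?_)
      refine le_trans (measureReal_mono fun x hx => ?_) (measureReal_union_le (μ := m) _ _)
      by_cases hx' : R.rep^[n (ψ j)] x ∈ A
      · exact Or.inl ⟨hx.2, hx'⟩
      · exact Or.inr ⟨hx.1, Or.inl ⟨hx.2, hx'⟩⟩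

theorem NR.aperiodic [StandardBorelSpace X] {R : Aut m} (h : NR R) (p : ℕ) (hp : 1 ≤ p) :
    m {x | R.rep^[p] x = x} = 0 := by
  rw [← measureReal_eq_zero_iff]
  refine le_antisymm (le_of_forall_pos_le_add fun ε hε => ?_) measureReal_nonneg
  obtain ⟨Λ, _, _, _, ξ, hξ, hev⟩ := h ε hε
  obtain ⟨k, hk⟩ := ((tendsto_id.const_mul_atTop' (show 0 < p from hp)).eventually hev).exists
  rw [zero_add]
  refine le_trans (measureReal_mono fun x hx => ?_) hk
  have := Function.IsFixedPt.iterate (f := R.rep^[p]) hx k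
  rw [← Function.iterate_mul] at this
  exact congrArg ξ this.symm

theorem nr_of_mixing [StandardBorelSpace X] [NullSingletonClass m] {R : Aut m} (hR : IsMixing R) :
    NR R := by
  intro ε hε
  obtain ⟨K, hK⟩ := exists_nat_gt (5 / ε)
  have hK' : (0 : ℝ) < K := lt_trans (by positivity) hK
  have hK0 : 0 < K := by exact_mod_cast hK'
  obtain ⟨τ, -, -, hτ, -, hτK, -, -, h, -⟩ := exists_types hR (small_sets m) K 0 hK0 one_pos
  refine ⟨Fin K, inferInstance, inferInstance, inferInstance, fun x => ⟨τ x, hτK x⟩,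
    measurable_to_countable' fun k => ?_, ?_⟩
  · convert meas_pred hτ (· = k.1) using 1
    ext x
    simp [Fin.ext_iff]
  · filter_upwards [diag_small hR hτ hK0 hτK h] with n hn
    simp only [Fin.mk.injEq]
    rw [div_lt_iff₀ hε] at hK
    exact hn.trans (by rw [div_le_iff₀ hK']; linarith only [hK])

end Pool.Agent.Work.MP_2967d5_an
end

-- merged part: Pool.Agent.Work.MP_2967d5_an.C.Res
section
/-! Strongly mixing extensions are residual as soon as slowly varying colourings exist. -/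

open MeasureTheory Set Filter Topology
open scoped symmDiff ENNReal

namespace Pool.Agent.Work.MP_2967d5_an

variable {X Y : Type*} [MeasurableSpace X] [MeasurableSpace Y] {m : Measure X} {η : Measure Y}
  [IsProbabilityMeasure m] [IsProbabilityMeasure η]

/-- slowly varying colourings with few coincidences at all large times -/
def Col (R : Aut m) : Prop :=
  ∀ ε : ℝ, 0 < ε → ∃ K : ℕ, 0 < K ∧ ∀ δ : ℝ, 0 < δ → ∃ τ : X → ℕ, Measurable τ ∧ (∀ x, τ x < K) ∧
    m.real {x | τ (R.rep x) ≠ τ x} ≤ δ ∧ ∀ᶠ n in atTop, m.real {x | τ x = τ (R.rep^[n] x)} ≤ ε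

theorem slow_iter {R : X → X} {τ : X → ℕ} {c : ℝ} (hR : MeasurePreserving R m m)
    (hτ : Measurable τ) (hc : m.real {x | τ (R x) ≠ τ x} ≤ c) (u : ℕ) :
    m.real {x | τ (R^[u] x) ≠ τ x} ≤ u * c := by
  induction u with
  | zero => simp
  | succ u ih =>
    have hm : MeasurableSet {x | τ (R x) ≠ τ x} :=
      (measurableSet_eq_fun (hτ.comp hR.measurable) hτ).compl
    have hsub : {x | τ (R^[u + 1] x) ≠ τ x} ⊆
        {x | τ (R^[u] x) ≠ τ x} ∪ R^[u] ⁻¹' {x | τ (R x) ≠ τ x} := by
      intro x hx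
      by_contra hn
      simp only [mem_union, mem_preimage, mem_ofPred_eq, not_or, not_not] at hn
      apply hx
      rw [Function.iterate_succ_apply', hn.2, hn.1]
    refine (measureReal_mono hsub).trans ((measureReal_union_le _ _).trans ?_)
    rw [(hR.iterate u).measureReal_preimage hm.nullMeasurableSet]
    push_cast
    linarith only [hc, ih]

theorem exists_types' {R : Aut m} (hR : Clock R) {K : ℕ} {P : (X → ℕ) → Prop}
    (hC : ∀ δ : ℝ, 0 < δ → ∃ τ : X → ℕ, Measurable τ ∧ (∀ x, τ x < K) ∧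
      m.real {x | τ (R.rep x) ≠ τ x} ≤ δ ∧ P τ) (M : ℕ) {δ : ℝ} (hδ : 0 < δ) :
    ∃ (τ B : X → ℕ) (J : ℕ → Finset ℕ), Measurable τ ∧ Measurable B ∧ (∀ x, τ x < K) ∧
      (∀ k, (J k).card = M) ∧ m.real {x | B (R.rep x) ≠ B x} ≤ δ ∧ P τ ∧
      (∀ k < K, ∀ j ∈ J k, ∀ j' ∈ J k, j < j' → m.real {x | τ (R.rep^[j] x) = k ∧
        τ (R.rep^[j'] x) = k ∧ ¬ B (R.rep^[j] x) < B (R.rep^[j'] x)} ≤ δ) ∧
      (∀ k < K, ∀ j ∈ J k, m.real {x | k < τ (R.rep^[j] x) ∧ B (R.rep^[j] x) ≠ B x} ≤ δ) := by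
  obtain ⟨D, hD⟩ := exists_nat_gt (2 * (M + 1) / δ)
  have hD0 : (0 : ℝ) < D := lt_trans (by positivity) hD
  have hD1 : 0 < D := by exact_mod_cast hD0
  have hD2 : (M + 1 : ℝ) / D ≤ δ / 2 := by
    rw [div_lt_iff₀ hδ] at hD
    rw [div_le_iff₀ hD0]
    linarith only [hD]
  have hM0 : (0 : ℝ) ≤ M := Nat.cast_nonneg M
  have hD3 : (1 : ℝ) / D ≤ δ / 2 := le_trans (by gcongr; linarith only []) hD2
  have hD4 : (M : ℝ) / D ≤ δ / 2 := le_trans (by clear * - M D hD1 hD2 δ; gcongr; linarith only []) hD2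
  set H : ℕ := D ^ (K + 1) with hH
  obtain ⟨c, ⟨⟨hc2, hc3⟩, hc4⟩, hc0⟩ := ((((ev_small (2 + D) (half_pos hδ)).and
    (ev_small (2 * M * H) hδ)).and
    (ev_small (2 * M * H + M * H * H) (half_pos hδ))).and self_mem_nhdsWithin).exists
  have hc0 : 0 < c := hc0
  obtain ⟨r, hr, hc⟩ := hR c hc0
  obtain ⟨τ, hτ, hτK, hτc, hP⟩ := hC c hc0
  have hJ : ∀ k < K, ∀ j ∈ (Finset.range M).image (· * D ^ (k + 1)),
      (j : ℝ) ≤ M * D ^ (k + 1) ∧ (j : ℝ) ≤ M * H := by
    intro k hk j hj
    obtain ⟨i, hi, rfl⟩ := Finset.mem_image.mp hj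
    have hi' : i ≤ M := (Finset.mem_range.mp hi).le
    have h1 : D ^ (k + 1) ≤ H := Nat.pow_le_pow_right hD1 (by omega)
    exact ⟨by exact_mod_cast Nat.mul_le_mul_right _ hi', by exact_mod_cast Nat.mul_le_mul hi' h1⟩
  refine ⟨τ, fun x => r x / D ^ (τ x + 1), fun k => (Finset.range M).image (· * D ^ (k + 1)), hτ,
    (Measurable.of_discrete (f := fun p : ℕ × ℕ => p.1 / D ^ (p.2 + 1))).comp (hr.prodMk hτ),
    hτK, fun k => ?_, ?_, hP, fun k hk j hj j' hj' hjj => ?_, fun k hk j hj => ?_⟩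
  · rw [Finset.card_image_of_injective _ (mul_left_injective₀ (pow_ne_zero _ hD1.ne')),
      Finset.card_range]
  · have h1 := jump R.mp hr hc0.le hc hD1 1
    have hsub : {x | r (R.rep x) / D ^ (τ (R.rep x) + 1) ≠ r x / D ^ (τ x + 1)} ⊆
        {x | τ (R.rep x) ≠ τ x} ∪
          ({x | r (R.rep x) ≠ r x + 1} ∪ {x | (r x + 1) / D ≠ r x / D}) := by
      intro x hx
      by_contra hn
      simp only [mem_union, mem_ofPred_eq, not_or, not_not] at hn
      apply hx
      have h2 : (r x + 1) / D ^ 1 = r x / D ^ 1 := by simpa using hn.2.2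
      rw [hn.1, hn.2.1, div_pow_eq (by omega) h2]
    refine (measureReal_mono hsub).trans ((measureReal_union_le _ _).trans
      ((add_le_add le_rfl (measureReal_union_le _ _)).trans ?_))
    push_cast at h1
    clear * - X m τ R r D δ c hD3 hc2 hc hτc h1
    linarith only [hD3, hc2, hc, hτc, h1]
  · have h1 := clock_iter R.mp hr hc j
    have h2 := clock_iter R.mp hr hc j'
    refine (measureReal_mono (s₂ := {x | r (R.rep^[j] x) ≠ r x + j} ∪
      {x | r (R.rep^[j'] x) ≠ r x + j'}) ?_).trans ((measureReal_union_le _ _).trans ?_)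
    · rintro x ⟨a1, a2, a3⟩
      by_contra hn
      simp only [mem_union, mem_ofPred_eq, not_or, not_not] at hn
      apply a3
      simp only at a1 a2 ⊢
      rw [a1, a2, hn.1, hn.2]
      obtain ⟨i, -, rfl⟩ := Finset.mem_image.mp hj
      obtain ⟨i', -, rfl⟩ := Finset.mem_image.mp hj'
      have h3 : 0 < D ^ (k + 1) := pow_pos hD1 _
      rw [Nat.add_mul_div_right _ _ h3, Nat.add_mul_div_right _ _ h3]
      exact Nat.add_lt_add_left (lt_of_mul_lt_mul_right hjj (Nat.zero_le _)) _
    · have := (hJ k hk j hj).2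
      have := (hJ k hk j' hj').2
      nlinarith
  · have h1 := clock_iter R.mp hr hc j
    have h2 := jump R.mp hr hc0.le hc (pow_pos hD1 (k + 2)) j
    have h0 := slow_iter R.mp hτ hτc j
    refine (measureReal_mono (s₂ := {x | τ (R.rep^[j] x) ≠ τ x} ∪ ({x | r (R.rep^[j] x) ≠ r x + j} ∪
      {x | (r x + j) / D ^ (k + 2) ≠ r x / D ^ (k + 2)})) ?_).trans
      ((measureReal_union_le _ _).trans ((add_le_add le_rfl (measureReal_union_le _ _)).trans ?_))
    · rintro x ⟨a1, a2⟩
      by_contra hn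
      simp only [mem_union, mem_ofPred_eq, not_or, not_not] at hn
      apply a2
      simp only at a1 ⊢
      rw [hn.1] at a1 ⊢
      rw [hn.2.1]
      exact div_pow_eq (by omega) hn.2.2
    · obtain ⟨a1, a2⟩ := hJ k hk j hj
      have a3 : ((D ^ (k + 2) : ℕ) : ℝ) ≤ H := by
        exact_mod_cast Nat.pow_le_pow_right hD1 (by omega)
      have a4 : (j : ℝ) * (1 / ((D ^ (k + 2) : ℕ) : ℝ)) ≤ M / D := by
        clear * - j D k M hD1 hD0 a1
        push_cast
        rw [mul_one_div, div_le_div_iff₀ (by positivity) hD0]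
        calc _ ≤ M * (D:ℝ) ^ (k + 1) * D := by gcongr
          _ = _ := by ring
      have a5 : (j : ℝ) * (((D ^ (k + 2) : ℕ) : ℝ) * c) ≤ M * H * (H * c) := by gcongr
      have a6 : (j : ℝ) * c ≤ M * H * c := by gcongr
      clear * - X m τ R j r D k δ M H c hD4 hc4 h1 h2 h0 a4 a5 a6
      linarith only [hD4, hc4, h1, h2, h0, a4, a5, a6]

theorem exists_cob' {R : Aut m} (hR : Clock R)
    {T : Aut (m.prod η)} (hT : T ∈ Extensions η R) {c : ℝ} (hc : 0 < c) :
    ∃ Φ Φ', Gauge m η Φ Φ' ∧ (m.prod η).real {z | Φ (pm R.rep (Φ' z)) ≠ T.rep z} ≤ c := by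
  obtain ⟨r, hr, hrc⟩ := hR c hc
  have hG : ∀ i, Gauge m η (fun z => T.rep^[i] ((pm R.rep.symm)^[i] z))
      (fun z => (pm R.rep)^[i] (T.rep.symm^[i] z)) := by
    intro i
    have a1 := (pm_mp (η := η) R.mp_symm).iterate i
    refine ⟨(T.mp.iterate i).comp a1, ((pm_mp R.mp).iterate i).comp (T.mp_symm.iterate i),
      ?_, ?_, Eventually.of_forall fun z => ?_, Eventually.of_forall fun z => ?_⟩
    · filter_upwards [a1.quasiMeasurePreserving.ae (ext_iter T.mp hT i)] with z hz
      rw [hz, pm_iter, iter_symm]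
    · filter_upwards [ext_iter T.mp_symm (symm_ext hT) i] with z hz
      rw [pm_iter, hz, iter_symm]
    · simp only [symm_iter, pm_iter, iter_symm]
    · simp only [pm_iter, symm_iter, Prod.mk.eta, iter_symm]
  have hG' := gauge_piecewise hr hG
  refine ⟨_, _, hG', le_trans ?_ hrc⟩
  have hm : MeasurableSet {x | r (R.rep x) ≠ r x + 1} :=
    (measurableSet_eq_fun (hr.comp R.rep.measurable) (hr.add_const 1)).compl
  rw [← real_fst (η := η) hm]
  refine ENNReal.toReal_mono (measure_ne_top _ _) (measure_mono_ae ?_)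
  filter_upwards [hG'.fst'] with z hz hne
  intro h
  apply hne
  have e1 : (pm R.rep ((pm R.rep)^[r z.1] (T.rep.symm^[r z.1] z))).1 = R.rep z.1 := by
    rw [pm, hz]
  have e2 : ∀ w : X × Y, (pm R.rep.symm)^[r z.1 + 1] (pm R.rep ((pm R.rep)^[r z.1] w)) = w := by
    intro w
    rw [← Function.iterate_succ_apply' (pm R.rep), pm_iter, pm_iter, symm_iter]
  simp only [e1, h, e2]
  rw [Function.iterate_succ_apply', iter_symm]

theorem dense_prod' [StandardBorelSpace X] [StandardBorelSpace Y] {R : Aut m} (hR : Clock R)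
    (hC : Col R)
    {S : Aut η} (hS : IsMixing S) {Φ Φ' : X × Y → X × Y} (hG : Gauge m η Φ Φ')
    {ι : Type} [Fintype ι] {Q : ι → Set Y} (hQ : ∀ i, MeasurableSet (Q i)) {ε c : ℝ} (hε : 0 < ε)
    (hc : 0 < c) :
    ∃ T₁ : Aut (m.prod η), T₁ ∈ Extensions η R ∧
      (m.prod η).real {z | T₁.rep z ≠ Φ (pm R.rep (Φ' z))} ≤ c ∧
      ∃ N, ∀ᶠ T in 𝓝 T₁, T ∈ Extensions η R → ∀ n, N ≤ n → ∀ i i' (φ : X → ℝ), Bd φ →
        |∫ z, φ z.1 * (cen η (Q i) (Φ' (T.rep^[n] z)).2 * cen η (Q i') (Φ' z).2) ∂(m.prod η)| ≤ ε := by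
  set μ := m.prod η with hμ
  obtain ⟨K, hK0, hK⟩ := hC (ε / 2) (half_pos hε)
  have hK' : (0 : ℝ) < K := by exact_mod_cast hK0
  obtain ⟨s, hs⟩ := exists_nat_gt (8 * K / ε)
  have hs' : (0 : ℝ) < s := lt_trans (by positivity) hs
  have hs0 : 0 < s := by exact_mod_cast hs'
  obtain ⟨δ, ⟨hδ1, hδ2⟩, hδ⟩ := (((ev_small 1 hc).and
    (ev_small (2 * K * (s * 4 + 4)) (show 0 < ε / 4 by positivity))).and self_mem_nhdsWithin).exists
  have hδ : 0 < δ := hδ
  obtain ⟨τ, B, J, hτ, hB, hτK, hJ, hclose, htype, hO, hI⟩ := exists_types' hR hK (s ^ 2) hδ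
  obtain ⟨L, hL⟩ := eventually_atTop.mp (eventually_all.mpr fun i => cen_corr hS (hQ i) hδ)
  have hA : Measurable fun x => L * B x := hB.const_mul L
  have hΨ := gauge_skew (m := m) S hA
  have hΘ := hG.comp hΨ
  obtain ⟨T₁, hT₁, hT₁e, hT₁j⟩ := exists_conj R hΘ
  have mR : ∀ j, Measurable R.rep^[j] := fun j => R.rep.measurable.iterate j
  set h : ι → X × Y → ℝ := fun i z => cen η (Q i) (Φ' z).2 with hh
  have bh : ∀ i, Bd (h i) := fun i => (bd_cen (hQ i)).comp (measurable_snd.comp hG.mp'.measurable)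
  have hmodel : ∀ i j, ∀ᵐ w ∂μ, h i (T₁.rep^[j] (Φ (w.1, S.rep^[L * B w.1] w.2))) =
      cen η (Q i) (S.rep^[L * B (R.rep^[j] w.1)] w.2) := by
    intro i j
    filter_upwards [hT₁j j, (hΨ.mp.comp ((pm_mp R.mp).iterate j)).quasiMeasurePreserving.ae hG.left]
      with w h1 h2
    simp only [Function.comp, pm_iter] at h2
    simp only [hh, h1, h2]
  have bhT : ∀ (T : Aut μ) i j, Bd fun z => h i (T.rep^[j] z) := fun T i j =>
    (bh i).comp (T.rep.measurable.iterate j)
  have O1 : ∀ i, ∀ k < K, ∀ j ∈ J k, ∀ j' ∈ J k, j < j' → ∀ ψ : X → ℝ, Bd ψ →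
      (∀ x, ψ x ≠ 0 → τ (R.rep^[j] x) = k ∧ τ (R.rep^[j'] x) = k) →
      |∫ z, ψ z.1 * (h i (T₁.rep^[j] z) * h i (T₁.rep^[j'] z)) ∂μ| ≤ δ + δ := by
    intro i k hk j hj j' hj' hjj ψ hψ hsupp
    have mD : MeasurableSet {x | τ (R.rep^[j] x) = k ∧ τ (R.rep^[j'] x) = k ∧
        ¬ B (R.rep^[j] x) < B (R.rep^[j'] x)} :=
      (meas_pred (hτ.comp (mR j)) (· = k)).inter ((meas_pred (hτ.comp (mR j')) (· = k)).inter
        (measurableSet_lt (hB.comp (mR j)) (hB.comp (mR j'))).compl)
    have := model_O (m := m) S.mp (bd_cen (hQ i)) (fun n hn => hL n hn i) hδ.le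
      (hA.comp (mR j)) (hA.comp (mR j')) hψ mD (fun x hx hD => by
        have h1 := hsupp x hx
        have h2 : B (R.rep^[j] x) < B (R.rep^[j'] x) := by
          by_contra hn
          exact hD ⟨h1.1, h1.2, hn⟩
        exact Nat.mul_le_mul_left L (Nat.succ_le_of_lt h2))
    refine le_trans (le_of_eq ?_) (this.trans (add_le_add le_rfl (hO k hk j hj j' hj' hjj)))
    congr 1
    rw [← int_comp hΘ.mp ((hψ.comp measurable_fst).mul ((bhT T₁ i j).mul (bhT T₁ i j'))).meas]
    refine integral_congr_ae ?_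
    filter_upwards [hΘ.fst, hmodel i j, hmodel i j'] with w h1 h2 h3
    rw [h1, h2, h3]
    rfl
  have mV : ∀ k j, Bd fun z : X × Y => {x | k < τ x}.indicator (1 : X → ℝ) (R.rep^[j] z.1) :=
    fun k j => (bd_indicator (meas_pred hτ (k < ·))).comp ((mR j).comp measurable_fst)
  have I1 : ∀ i, ∀ k < K, ∀ j ∈ J k,
      ∫ z, {x | k < τ x}.indicator 1 (R.rep^[j] z.1) * |h i (T₁.rep^[j] z) - h i z| ∂μ ≤ δ := by
    intro i k hk j hj
    have mD : MeasurableSet {x | k < τ (R.rep^[j] x) ∧ B (R.rep^[j] x) ≠ B x} :=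
      (meas_pred (hτ.comp (mR j)) (k < ·)).inter (measurableSet_eq_fun (hB.comp (mR j)) hB).compl
    refine le_trans ?_ (hI k hk j hj)
    have mm : Measurable fun z : X × Y => {x | k < τ x}.indicator (1 : X → ℝ) (R.rep^[j] z.1) *
        |h i (T₁.rep^[j] z) - h i z| := (mV k j).meas.mul ((bhT T₁ i j).meas.sub (bh i).meas).abs
    rw [← int_comp hΘ.mp mm, ← integral_indicator_one mD, ← int_comp (measurePreserving_fst (μ := m) (ν := η))
        (bd_indicator mD).meas]
    refine (le_abs_self _).trans (abs_int_le (((bd_indicator mD).comp measurable_fst).integrable μ) ?_)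
    filter_upwards [hΘ.fst, hmodel i j, hmodel i 0] with w h1 h2 h3
    simp only [Function.iterate_zero, id] at h3
    rw [h1, h2, h3, abs_mul, abs_abs]
    by_cases hk' : k < τ (R.rep^[j] w.1)
    · by_cases hb : B (R.rep^[j] w.1) = B w.1
      · rw [hb, sub_self, abs_zero, mul_zero]
        exact indicator_nonneg (fun _ _ => zero_le_one) _
      · rw [indicator_of_mem (s := {x | k < τ (R.rep^[j] x) ∧ B (R.rep^[j] x) ≠ B x}) ⟨hk', hb⟩]
        exact mul_le_one₀ ((mV k j).le w) (abs_nonneg _) (cen_sub_le _ _ _)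
    · rw [indicator_of_notMem (s := {x | k < τ x}) hk', abs_zero, zero_mul]
      exact indicator_nonneg (fun _ _ => zero_le_one) _
  refine ⟨T₁, hT₁, ?_, ?_⟩
  · have mD : MeasurableSet {x | B (R.rep x) ≠ B x} :=
      (measurableSet_eq_fun (hB.comp R.rep.measurable) hB).compl
    refine le_trans ?_ (hclose.trans (by linarith only [hδ1]))
    rw [← real_fst (η := η) mD]
    refine ENNReal.toReal_mono (measure_ne_top _ _) (measure_mono_ae ?_)
    filter_upwards [hT₁e, hG.fst'] with z h1 h2 hne hb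
    apply hne
    rw [h1]
    simp only [pm, h2, hb, iter_symm]
  obtain ⟨N, hN⟩ := eventually_atTop.mp htype
  refine ⟨N, ?_⟩
  have hst : ∀ᶠ T in 𝓝 T₁, ∀ i, ∀ k ∈ Finset.range K, ∀ j ∈ J k,
      ∫ z, |h i (T.rep^[j] z) - h i (T₁.rep^[j] z)| ∂μ ≤ δ :=
    eventually_all.mpr fun i => (Finset.eventually_all _).mpr fun k _ =>
      (Finset.eventually_all _).mpr fun j _ =>
        stable_fun T₁ (measurable_snd.comp hG.mp'.measurable) (hQ i) j hδ
  filter_upwards [hst] with T hT hTe n hn i i' φ hφ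
  have O2 : ∀ i, ∀ k < K, ∀ j ∈ J k, ∀ j' ∈ J k, j < j' → ∀ ψ : X → ℝ, Bd ψ →
      (∀ x, ψ x ≠ 0 → τ (R.rep^[j] x) = k ∧ τ (R.rep^[j'] x) = k) →
      |∫ z, ψ z.1 * (h i (T.rep^[j] z) * h i (T.rep^[j'] z)) ∂μ| ≤ 4 * δ := by
    intro i k hk j hj j' hj' hjj ψ hψ hsupp
    have a1 := perturb_O (μ := μ) (hψ.comp measurable_fst) (bhT T i j) (bhT T i j') (bhT T₁ i j)
      (bhT T₁ i j')
    have a2 := O1 i k hk j hj j' hj' hjj ψ hψ hsupp
    have a3 := hT i k (Finset.mem_range.mpr hk) j hj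
    have a4 := hT i k (Finset.mem_range.mpr hk) j' hj'
    linarith only [a1, a2, a3, a4]
  have O3 : ∀ i, ∀ k < K, ∀ j ∈ J k, ∀ j' ∈ J k, j ≠ j' → ∀ ψ : X → ℝ, Bd ψ →
      (∀ x, ψ x ≠ 0 → τ (R.rep^[j] x) = k ∧ τ (R.rep^[j'] x) = k) →
      |∫ z, ψ z.1 * (h i (T.rep^[j] z) * h i (T.rep^[j'] z)) ∂μ| ≤ 4 * δ := by
    intro i k hk j hj j' hj' hjj ψ hψ hsupp
    rcases lt_or_gt_of_ne hjj with hlt | hlt
    · exact O2 i k hk j hj j' hj' hlt ψ hψ hsupp
    · simpa only [mul_comm (h i (T.rep^[j'] _))] using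
        O2 i k hk j' hj' j hj hlt ψ hψ fun x hx => (hsupp x hx).symm
  have I2 : ∀ i, ∀ k < K, ∀ j ∈ J k,
      ∫ z, {x | k < τ x}.indicator 1 (R.rep^[j] z.1) * |h i (T.rep^[j] z) - h i z| ∂μ ≤ 4 * δ := by
    intro i k hk j hj
    have a1 := perturb_I (μ := μ) (mV k j) (bhT T i j) (bhT T₁ i j) (bh i)
    have a2 := I1 i k hk j hj
    have a3 := hT i k (Finset.mem_range.mpr hk) j hj
    linarith
  have := assemble T.mp hTe (bh i) (bh i') hτ hτK hs0 hJ (δ := 4 * δ) (by positivity)
    (by rintro _ (rfl | rfl) <;> exact O3 _) (by rintro _ (rfl | rfl) <;> exact I2 _) n hφ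
  refine this.trans ?_
  have a1 := hN n hn
  have a3 : 2 * K * (1 / (s : ℝ)) ≤ ε / 4 := by
    clear * - K s ε hs' hε hs
    rw [div_lt_iff₀ hε] at hs
    rw [mul_one_div, div_le_iff₀ hs']; linarith only [hs]
  clear * - X m τ R n K s δ ε hδ2 a1 a3
  linarith only [hδ2, a1, a3]

theorem dense_sets' [StandardBorelSpace X] [StandardBorelSpace Y] {R : Aut m} (hR : Clock R)
    (hC : Col R)
    {S : Aut η} (hS : IsMixing S) {A B : Set (X × Y)} (hA : MeasurableSet A) (hB : MeasurableSet B)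
    {ε c : ℝ} (hε : 0 < ε) (hc : 0 < c) {T₀ : Aut (m.prod η)} (hT₀ : T₀ ∈ Extensions η R) :
    ∃ T₁ : Aut (m.prod η), T₁ ∈ Extensions η R ∧ (m.prod η).real {z | T₁.rep z ≠ T₀.rep z} ≤ c ∧
      ∃ N, ∀ᶠ T in 𝓝 T₁, T ∈ Extensions η R → ∀ n, N ≤ n → ∀ φ : X → ℝ, Bd φ →
        |∫ z, φ z.1 * (cenZ η A (T.rep^[n] z) * cenZ η B z) ∂(m.prod η)| ≤ ε := by
  obtain ⟨Φ, Φ', hG, hΦ⟩ := exists_cob' hR hT₀ (half_pos hc)
  obtain ⟨ι, _, a, Q, ha, hQ, hF⟩ := approx_gauge hG hA (show 0 < ε / 3 by positivity)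
  set p : ℝ := (Fintype.card ι : ℝ) with hp
  have hp0 : 0 ≤ p := Nat.cast_nonneg _
  obtain ⟨ι', _, a', Q', ha', hQ', hF'⟩ := approx_gauge hG hB
    (show 0 < ε / 3 / (p + 1) by positivity)
  set p' : ℝ := (Fintype.card ι' : ℝ) with hp'
  have hp0' : 0 ≤ p' := Nat.cast_nonneg _
  obtain ⟨T₁, hT₁, hclose, N, hN⟩ := dense_prod' hR hC hS hG (Q := Sum.elim Q Q')
    (by rintro (i | i); exacts [hQ i, hQ' i]) (show 0 < ε / 3 / (p * p' + 1) by clear * - ε p p' hε ι ι' hQ hQ'; positivity)
    (half_pos hc)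
  refine ⟨T₁, hT₁, ?_, N, ?_⟩
  · refine le_trans (measureReal_mono (s₂ := {z | T₁.rep z ≠ Φ (pm R.rep (Φ' z))} ∪
      {z | Φ (pm R.rep (Φ' z)) ≠ T₀.rep z}) (fun z hz => ?_) (measure_ne_top _ _))
      ((measureReal_union_le _ _).trans (by linarith only [hΦ, hclose]))
    by_contra hn
    simp only [mem_union, mem_ofPred_eq, not_or, not_not] at hn
    exact hz (hn.1.trans hn.2)
  filter_upwards [hN] with T hT hTe n hn φ hφ
  have mT : Measurable T.rep^[n] := T.rep.measurable.iterate n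
  have mΦ : Measurable fun z => (Φ' z).2 := measurable_snd.comp hG.mp'.measurable
  have bu : ∀ i, Bd fun z : X × Y => a i z.1 * cen η (Q i) (Φ' z).2 := fun i =>
    ((ha i).comp measurable_fst).mul ((bd_cen (hQ i)).comp mΦ)
  have bu' : ∀ i, Bd fun z : X × Y => a' i z.1 * cen η (Q' i) (Φ' z).2 := fun i =>
    ((ha' i).comp measurable_fst).mul ((bd_cen (hQ' i)).comp mΦ)
  set F : X × Y → ℝ := fun z => ∑ i, a i z.1 * cen η (Q i) (Φ' z).2 with hFd
  set G : X × Y → ℝ := fun z => ∑ i, a' i z.1 * cen η (Q' i) (Φ' z).2 with hGd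
  have mF : Measurable F := Finset.measurable_sum _ fun i _ => (bu i).meas
  have iF : Integrable F (m.prod η) := integrable_finsetSum _ fun i _ => (bu i).integrable (m.prod η)
  have iG : Integrable G (m.prod η) := integrable_finsetSum _ fun i _ => (bu' i).integrable (m.prod η)
  have bF : ∀ z, |F z| ≤ p := fun z => (Finset.abs_sum_le_sum_abs _ _).trans
    ((Finset.sum_le_sum fun i _ => (bu i).le z).trans (by simp [hp]))
  have bφ := hφ.comp (measurable_fst (α := X) (β := Y))
  have bt : ∀ i i', Bd fun z : X × Y => φ z.1 * ((a i (T.rep^[n] z).1 *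
      cen η (Q i) (Φ' (T.rep^[n] z)).2) * (a' i' z.1 * cen η (Q' i') (Φ' z).2)) := fun i i' =>
    bφ.mul (((bu i).comp mT).mul (bu' i'))
  have e3 : ∀ z, φ z.1 * (F (T.rep^[n] z) * G z) = ∑ i, ∑ i', φ z.1 * ((a i (T.rep^[n] z).1 *
      cen η (Q i) (Φ' (T.rep^[n] z)).2) * (a' i' z.1 * cen η (Q' i') (Φ' z).2)) := fun z => by
    simp only [hFd, hGd]
    rw [Finset.sum_mul_sum, Finset.mul_sum]
    simp only [Finset.mul_sum]
  have i3 : Integrable (fun z => φ z.1 * (F (T.rep^[n] z) * G z)) (m.prod η) := by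
    simp only [e3]
    exact integrable_finsetSum _ fun i _ => integrable_finsetSum _ fun i' _ => (bt i i').integrable (m.prod η)
  have t3 : |∫ z, φ z.1 * (F (T.rep^[n] z) * G z) ∂(m.prod η)| ≤ ε / 3 := by
    simp only [e3]
    rw [integral_finsetSum _ fun i _ => integrable_finsetSum _ fun i' _ => (bt i i').integrable (m.prod η)]
    refine (Finset.abs_sum_le_sum_abs _ _).trans ((Finset.sum_le_sum
      (g := fun _ => p' * (ε / 3 / (p * p' + 1))) fun i _ => ?_).trans ?_)
    · rw [integral_finsetSum _ fun i' _ => (bt i i').integrable (m.prod η)]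
      refine (Finset.abs_sum_le_sum_abs _ _).trans ((Finset.sum_le_sum
        (g := fun _ => ε / 3 / (p * p' + 1)) fun i' _ => ?_).trans (by simp [hp']))
      refine le_trans (le_of_eq ?_) (hT hTe n hn (Sum.inl i) (Sum.inr i') _
        ((hφ.mul ((ha i).comp (R.rep.measurable.iterate n))).mul (ha' i')))
      congr 1
      refine integral_congr_ae ?_
      filter_upwards [ext_iter T.mp hTe n] with z hz
      simp only [hz, Sum.elim_inl, Sum.elim_inr]
      ring
    · rw [Finset.sum_const, Finset.card_univ, nsmul_eq_mul, ← hp, ← mul_assoc, ← mul_div_assoc,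
        div_le_iff₀ (by clear * - p p' ι ι'; positivity)]
      clear * - p p' ε hε
      linarith only [hε]
  have i0 := (bφ.mul (((bd_cenZ (η := η) hA).comp mT).mul (bd_cenZ (η := η) hB))).integrable (m.prod η)
  have j1 : Integrable (fun z => |cenZ η A (T.rep^[n] z) - F (T.rep^[n] z)|) (m.prod η) :=
    (T.mp.iterate n).integrable_comp_of_integrable (((bd_cenZ hA).integrable (m.prod η)).sub' iF).abs
  have j2 : Integrable (fun z => p * |cenZ η B z - G z|) (m.prod η) :=
    (((bd_cenZ hB).integrable (m.prod η)).sub' iG).abs.const_mul p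
  have t12 : |∫ z, φ z.1 * (cenZ η A (T.rep^[n] z) * cenZ η B z) ∂(m.prod η) -
      ∫ z, φ z.1 * (F (T.rep^[n] z) * G z) ∂(m.prod η)| ≤ ε / 3 + ε / 3 := by
    rw [← integral_sub i0 i3]
    refine (abs_int_le (j1.fun_add j2) (Eventually.of_forall fun z => ?_)).trans ?_
    · have e : φ z.1 * (cenZ η A (T.rep^[n] z) * cenZ η B z) - φ z.1 * (F (T.rep^[n] z) * G z) =
          φ z.1 * cenZ η B z * (cenZ η A (T.rep^[n] z) - F (T.rep^[n] z)) +
          φ z.1 * (F (T.rep^[n] z) * (cenZ η B z - G z)) := by ring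
      rw [e]
      refine (abs_add_le _ _).trans (add_le_add ?_ ?_)
      · rw [abs_mul]
        exact mul_le_of_le_one_left (abs_nonneg _) ((bφ.mul (bd_cenZ hB)).le z)
      · rw [abs_mul, abs_mul]
        refine (mul_le_of_le_one_left (by clear * - F X Y m η T n z B G hφ; positivity) (hφ.le _)).trans ?_
        gcongr
        exact bF _
    · have mm : Measurable fun z => |cenZ η A z - F z| := ((bd_cenZ hA).meas.sub mF).abs
      rw [integral_add j1 j2, int_comp (T.mp.iterate n) mm, integral_const_mul]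
      refine add_le_add hF ((mul_le_mul_of_nonneg_left hF' hp0).trans ?_)
      rw [← mul_div_assoc, div_le_iff₀ (by positivity)]
      clear * - p ε hε
      linarith only [hε]
  linarith only [t3, t12, abs_sub_abs_le_abs_sub (∫ z, φ z.1 * (cenZ η A (T.rep^[n] z) * cenZ η B z) ∂(m.prod η))
    (∫ z, φ z.1 * (F (T.rep^[n] z) * G z) ∂(m.prod η))]

theorem small_residual' [StandardBorelSpace X] [StandardBorelSpace Y] {R : Aut m} (hR : Clock R)
    (hC : Col R)
    {S : Aut η} (hS : IsMixing S) {A B : Set (X × Y)} (hA : MeasurableSet A) (hB : MeasurableSet B)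
    {ε : ℝ} (hε : 0 < ε) : ∀ᶠ T in residual (Extensions η R), Small m η T.1.rep A B ε := by
  refine mem_of_superset (residual_of_dense_open isOpen_interior ?_)
    (interior_subset (s := {T : Extensions η R | Small m η T.1.rep A B ε}))
  intro T₀
  rw [mem_closure_iff_nhds]
  intro O hO
  obtain ⟨O', hO', hsub⟩ := (mem_nhds_subtype _ _ _).mp hO
  obtain ⟨δ, hδ, hδ'⟩ := exists_delta hO'
  have hc : 0 < (min δ 1).toReal := ENNReal.toReal_pos (lt_min hδ one_pos).ne' (by simp)
  obtain ⟨T₁, hT₁, hclose, N, hN⟩ := dense_sets' hR hC hS hA hB hε hc T₀.2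
  refine ⟨⟨T₁, hT₁⟩, hsub (hδ' T₁ ?_), mem_interior_iff_mem_nhds.mpr ?_⟩
  · exact ((ENNReal.toReal_le_toReal (measure_ne_top _ _) (by simp)).mp hclose).trans
      (min_le_left _ _)
  · filter_upwards [(continuous_subtype_val.tendsto
      (⟨T₁, hT₁⟩ : Extensions η R)).eventually hN] with T hT
    exact ⟨N, hT T.2⟩

theorem good_residual' [StandardBorelSpace X] [StandardBorelSpace Y] {R : Aut m} (hR : Clock R)
    (hC : Col R)
    {S : Aut η} (hS : IsMixing S) : ∀ᶠ T in residual (Extensions η R),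
      ∀ A B, MeasurableSet A → MeasurableSet B → ∀ ε, 0 < ε → Small m η T.1.rep A B ε := by
  obtain ⟨𝒜, hc, hd⟩ := exists_countable_measureDense (m.prod η)
  have h : ∀ᶠ T in residual (Extensions η R), ∀ A ∈ 𝒜, ∀ B ∈ 𝒜, ∀ k : ℕ,
      Small m η T.1.rep A B (1 / (k + 1)) :=
    (eventually_countable_ball hc).mpr fun A hA => (eventually_countable_ball hc).mpr fun B hB =>
      eventually_countable_forall.mpr fun k =>
        small_residual' hR hC hS (hd.measurable A hA) (hd.measurable B hB) (by positivity)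
  filter_upwards [h] with T hT A B hA hB ε hε
  obtain ⟨A', hA', h1⟩ := hd.approx A hA (measure_ne_top _ _) (ε / 5) (by positivity)
  obtain ⟨B', hB', h2⟩ := hd.approx B hB (measure_ne_top _ _) (ε / 5) (by positivity)
  obtain ⟨k, hk⟩ := exists_nat_one_div_lt (show 0 < ε / 5 by positivity)
  refine ((hT A' hA' B' hB' k).approx T.1.mp hA hB (hd.measurable _ hA')
    (hd.measurable _ hB')).mono ?_
  have h3 := ENNReal.toReal_le_of_le_ofReal (by positivity) h1.le
  have h4 := ENNReal.toReal_le_of_le_ofReal (by positivity) h2.le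
  simp only [Measure.real]
  linarith only [hk, h3, h4]

theorem residual_of_col [StandardBorelSpace X] [StandardBorelSpace Y] {R : Aut m} (hR : Clock R)
    (hC : Col R)
    {S : Aut η} (hS : IsMixing S) :
    MixingExtensions η R ∈ residual (Extensions η R) := by
  have h : MixingExtensions η R ∈ residual (Extensions η R) := by
    filter_upwards [good_residual' hR hC hS] with T hT f g hf hg
    refine tendsto_cor (U := fun n => T.1.rep^[n]) (R := fun n => R.rep^[n])
      (g := fun z => starRingEnd ℂ (g z)) (fun n => ⟨T.1.mp.iterate n, R.mp.iterate n,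
        ⟨R.rep.symm^[n], R.rep.symm.measurable.iterate n, fun x =>
          Function.LeftInverse.iterate R.rep.symm_apply_apply n x⟩, ext_iter T.1.mp T.2 n⟩)
      hT hf ⟨?_, ?_⟩
    · exact hg.1.of_le (Complex.continuous_conj.comp_aestronglyMeasurable hg.1.1)
        (Eventually.of_forall fun z => by simp)
    · simpa using hg.2
  exact h

end Pool.Agent.Work.MP_2967d5_an
end

-- merged part: Pool.Agent.Work.MP_2967d5_an.C.Meagre
section
/-! Over a partially rigid base the strongly mixing extensions are meagre. -/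

open MeasureTheory Set Filter Topology
open scoped symmDiff ENNReal

namespace Pool.Agent.Work.MP_2967d5_an

variable {X Y : Type*} [MeasurableSpace X] [MeasurableSpace Y] {m : Measure X} {η : Measure Y}
  [IsProbabilityMeasure m] [IsProbabilityMeasure η]

/-- a weighted correlation -/
noncomputable def corr (m : Measure X) (η : Measure Y) (Q : Set Y) (U : X × Y → X × Y)
    (φ : X → ℝ) : ℝ :=
  ∫ z, φ z.1 * (cen η Q (U z).2 * cen η Q z.2) ∂(m.prod η)

theorem int_cen {Q : Set Y} (hQ : MeasurableSet Q) : ∫ y, cen η Q y ∂η = 0 := by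
  simp only [cen]
  rw [integral_sub ((bd_indicator hQ).integrable η) (integrable_const _), integral_indicator_one hQ]
  simp

theorem int_cen_sq {Q : Set Y} (hQ : MeasurableSet Q) :
    ∫ y, cen η Q y * cen η Q y ∂η = η.real Q * (1 - η.real Q) := by
  have e : ∀ y, cen η Q y * cen η Q y = (1 - 2 * η.real Q) * cen η Q y +
      η.real Q * (1 - η.real Q) := fun y => by
    by_cases h : y ∈ Q <;> simp [cen, h] <;> ring
  simp only [e]
  rw [integral_add (((bd_cen hQ).integrable η).const_mul _) (integrable_const _),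
    integral_const_mul, int_cen hQ]
  simp

theorem int_ind_cen {Q : Set Y} (hQ : MeasurableSet Q) {P : Set X} (hP : MeasurableSet P) :
    ∫ z, P.indicator 1 z.1 * (cen η Q z.2 * cen η Q z.2) ∂(m.prod η) =
      m.real P * (η.real Q * (1 - η.real Q)) := by
  rw [integral_prod_mul (P.indicator (1 : X → ℝ)) fun y => cen η Q y * cen η Q y, int_cen_sq hQ,
    integral_indicator_one hP]

theorem corr_small {R : Aut m} {T : Extensions η R} (hT : T ∈ MixingExtensions η R) {Q : Set Y}
    (hQ : MeasurableSet Q) {c : ℝ} (hc : 0 < c) :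
    ∀ᶠ n in atTop, ∀ φ, Bd φ → corr m η Q T.1.rep^[n] φ ≤ c := by
  have bf : Bd fun z : X × Y => cen η Q z.2 := (bd_cen hQ).comp measurable_snd
  have hF : MemL2Rel m η fun z => ((cen η Q z.2 : ℝ) : ℂ) :=
    ⟨MemLp.of_bound (Complex.measurable_ofReal.comp bf.meas).aestronglyMeasurable 1
      (Eventually.of_forall fun z => by simpa using bf.le z),
      memLp_const (√(∫ y, ‖((cen η Q y : ℝ) : ℂ)‖ ^ 2 ∂η))⟩
  filter_upwards [(hT _ _ hF hF).eventually (ge_mem_nhds (ENNReal.ofReal_pos.mpr hc))]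
    with n hn φ hφ
  have bH : Bd fun z : X × Y => cen η Q (T.1.rep^[n] z).2 * cen η Q z.2 :=
    (bf.comp (T.1.rep.measurable.iterate n)).mul bf
  set E : X → ℝ := fun x => ∫ y, cen η Q (T.1.rep^[n] (x, y)).2 * cen η Q y ∂η with hE
  have bE : Bd E := ⟨bH.meas.stronglyMeasurable.integral_prod_right'.measurable, fun x =>
    (bH.comp measurable_prodMk_left).abs_integral_le η⟩
  simp only [condE, Complex.conj_ofReal, ← Complex.ofReal_mul, integral_complex_ofReal,
    int_cen hQ, mul_zero, Complex.ofReal_zero, sub_zero] at hn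
  have h1 : ENNReal.ofReal (∫ x, ‖E x‖ ∂m) ≤ ENNReal.ofReal c := by
    rw [ofReal_integral_norm_eq_lintegral_enorm (bE.integrable m), ← eLpNorm_one_eq_lintegral_enorm]
    refine (eLpNorm_le_eLpNorm_of_exponent_le one_le_two bE.meas.aestronglyMeasurable).trans
      (le_trans (le_of_eq (eLpNorm_congr_norm_ae (Eventually.of_forall fun x => ?_))) hn)
    rw [Complex.norm_real]
  rw [corr, integral_prod _ (((hφ.comp measurable_fst).mul bH).integrable _)]
  simp only [integral_const_mul]
  refine (le_abs_self _).trans ((abs_int_le (bE.integrable m).norm (Eventually.of_forall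
    fun x => ?_)).trans ((ENNReal.ofReal_le_ofReal_iff hc.le).mp h1))
  rw [abs_mul]
  exact mul_le_of_le_one_left (abs_nonneg _) (hφ.le x)

theorem meagre_of_dense {R : Aut m} {Q : Set Y} (hQ : MeasurableSet Q) {c : ℝ} (hc : 0 < c)
    (h : ∀ T₀ ∈ Extensions η R, ∀ δ : ℝ, 0 < δ → ∀ N, ∃ T₁ ∈ Extensions η R,
      (m.prod η).real {z | T₁.rep z ≠ T₀.rep z} ≤ δ ∧
        ∃ n, N ≤ n ∧ ∃ φ, Bd φ ∧ c < corr m η Q T₁.rep^[n] φ) :
    IsMeagre (MixingExtensions η R) := by
  have key : ∀ N, ∀ᶠ T in residual (Extensions η R),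
      ∃ n, N ≤ n ∧ ∃ φ, Bd φ ∧ c < corr m η Q T.1.rep^[n] φ := by
    intro N
    refine mem_of_superset (residual_of_dense_open isOpen_interior ?_) (interior_subset
      (s := {T : Extensions η R | ∃ n, N ≤ n ∧ ∃ φ, Bd φ ∧ c < corr m η Q T.1.rep^[n] φ}))
    intro T₀
    rw [mem_closure_iff_nhds]
    intro O hO
    obtain ⟨O', hO', hsub⟩ := (mem_nhds_subtype _ _ _).mp hO
    obtain ⟨δ, hδ, hδ'⟩ := exists_delta hO'
    have hd : 0 < (min δ 1).toReal := ENNReal.toReal_pos (lt_min hδ one_pos).ne' (by simp)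
    obtain ⟨T₁, hT₁, hclose, n, hn, φ, hφ, hlt⟩ := h _ T₀.2 _ hd N
    refine ⟨⟨T₁, hT₁⟩, hsub (hδ' T₁ ?_), mem_interior_iff_mem_nhds.mpr ?_⟩
    · exact ((ENNReal.toReal_le_toReal (measure_ne_top _ _) (by simp)).mp hclose).trans
        (min_le_left _ _)
    · filter_upwards [(continuous_subtype_val.tendsto (⟨T₁, hT₁⟩ : Extensions η R)).eventually
        (stable_fun (η := η) T₁ measurable_snd hQ n (half_pos (sub_pos.mpr hlt)))] with T hT
      refine ⟨n, hn, φ, hφ, ?_⟩
      have bf : Bd fun z : X × Y => cen η Q z.2 := (bd_cen hQ).comp measurable_snd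
      have b : ∀ T : Aut (m.prod η), Bd fun z => cen η Q (T.rep^[n] z).2 := fun T =>
        bf.comp (T.rep.measurable.iterate n)
      have i : ∀ T : Aut (m.prod η), Integrable (fun z => φ z.1 * (cen η Q (T.rep^[n] z).2 *
        cen η Q z.2)) (m.prod η) := fun T => ((hφ.comp measurable_fst).mul ((b T).mul bf)).integrable _
      have : |corr m η Q T.1.rep^[n] φ - corr m η Q T₁.rep^[n] φ| ≤
          (corr m η Q T₁.rep^[n] φ - c) / 2 := by
        rw [corr, corr, ← integral_sub (i _) (i _)]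
        refine (abs_int_le (((b T.1).integrable _).sub' ((b T₁).integrable _)).abs
          (Eventually.of_forall fun z => ?_)).trans hT
        rw [← mul_sub, ← sub_mul, mul_comm (_ - _), ← mul_assoc, abs_mul]
        exact mul_le_of_le_one_left (abs_nonneg _) (((hφ.comp measurable_fst).mul bf).le z)
      linarith only [hlt, this, (abs_le.mp this).1]
  filter_upwards [eventually_countable_forall.mpr key] with T hT hm
  obtain ⟨N, hN⟩ := eventually_atTop.mp (corr_small hm hQ hc)
  obtain ⟨n, hn, φ, hφ, hlt⟩ := hT N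
  exact hlt.not_ge (hN n hn φ hφ)

theorem meagre_periodic [StandardBorelSpace X] [StandardBorelSpace Y] {R : Aut m} {Q : Set Y}
    (hQ : MeasurableSet Q) (hv : 0 < η.real Q * (1 - η.real Q)) {p : ℕ} (hp : 1 ≤ p)
    (h : m {x | R.rep^[p] x = x} ≠ 0) : IsMeagre (MixingExtensions η R) := by
  set P := {x | R.rep^[p] x = x} with hP
  have mP : MeasurableSet P := measurableSet_eq_fun (R.rep.measurable.iterate p) measurable_id
  have ha : 0 < m.real P := ENNReal.toReal_pos h (measure_ne_top _ _)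
  set c := m.real P * (η.real Q * (1 - η.real Q)) / 2 with hc
  have hc0 : 0 < c := by positivity
  refine meagre_of_dense hQ hc0 fun T₀ hT₀ δ hδ N => ?_
  obtain ⟨k, hk⟩ := exists_nat_one_div_lt (show 0 < min δ c / 2 by positivity)
  have hk' : 2 / (((p * (k + 1) : ℕ) : ℝ) + 1) < min δ c := by
    clear * - k p hp δ c hk
    have : (k : ℝ) + 1 ≤ ((p * (k + 1) : ℕ) : ℝ) + 1 := by
      have : k ≤ p * (k + 1) := by nlinarith only [hp]
      exact_mod_cast Nat.succ_le_succ this
    calc _ ≤ 2 / ((k : ℝ) + 1) := by gcongr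
      _ = 2 * (1 / ((k : ℝ) + 1)) := by ring
      _ < _ := by linarith only [hk]
  obtain ⟨T₁, h1, h2, q, hq, h3⟩ := periodic_approx T₀
    (G := {w | (T₀.rep^[p * (k + 1)] w).1 = w.1}) (measurableSet_eq_fun (measurable_fst.comp
      (T₀.rep.measurable.iterate _)) measurable_fst) (Nat.mul_pos hp k.succ_pos)
  refine ⟨T₁, ?_, h2.trans (hk'.le.trans (min_le_left _ _)), q * N, Nat.le_mul_of_pos_left _ hq,
    P.indicator 1, bd_indicator mP, ?_⟩
  · show ∀ᵐ z ∂(m.prod η), (T₁.rep z).1 = R.rep z.1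
    filter_upwards [h1, hT₀] with z a1 a2
    rcases a1 with a1 | ⟨w, hw, ⟨a1, a3⟩ | ⟨a1, a3⟩⟩
    · rwa [a1]
    · rw [a1, ← a2, a3, hw]
    · rw [a3, ← a2, a1, hw]
  set D := {z : X × Y | z.1 ∈ P ∧ T₁.rep^[q * N] z ≠ z} with hD
  have mT := T₁.rep.measurable.iterate (q * N)
  have mD : MeasurableSet D :=
    (measurable_fst mP).inter (measurableSet_eq_fun mT measurable_id).compl
  have sD : (m.prod η).real D < c := by
    refine lt_of_le_of_lt (le_trans (ENNReal.toReal_mono (measure_ne_top _ _)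
      (measure_mono_ae ?_)) (h3 N)) (hk'.trans_le (min_le_right _ _))
    filter_upwards [ae_all_iff.mpr fun j => ext_iter T₀.mp_symm (symm_ext hT₀) j,
      ae_all_iff.mpr fun j => (T₀.mp_symm.iterate j).quasiMeasurePreserving.ae
        (ext_iter T₀.mp hT₀ (p * (k + 1)))] with z a1 a2 hz
    refine ⟨fun j => ?_, hz.2⟩
    show (T₀.rep^[p * (k + 1)] _).1 = _
    rw [a2 j, a1 j, Function.iterate_mul]
    refine Function.IsFixedPt.iterate ?_ _
    show R.rep^[p] _ = _
    conv_lhs => rw [← symm_iter R.rep j (R.rep^[p] _), iter_comm, iter_symm, hz.1]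
  have bf : Bd fun z : X × Y => cen η Q z.2 := (bd_cen hQ).comp measurable_snd
  have bP := (bd_indicator mP).comp (measurable_fst (α := X) (β := Y))
  have : |corr m η Q T₁.rep^[q * N] (P.indicator 1) -
      m.real P * (η.real Q * (1 - η.real Q))| ≤ (m.prod η).real D := by
    rw [← int_ind_cen hQ mP, corr, ← integral_sub ((bP.mul ((bf.comp mT).mul bf)).integrable _)
      ((bP.mul (bf.mul bf)).integrable _), ← integral_indicator_one mD]
    refine abs_int_le ((bd_indicator mD).integrable _) (Eventually.of_forall fun z => ?_)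
    by_cases hz : z ∈ D
    · rw [← mul_sub, ← sub_mul, mul_comm (_ - _), ← mul_assoc, abs_mul, indicator_of_mem hz]
      exact mul_le_one₀ ((bP.mul bf).le z) (abs_nonneg _) (cen_sub_le _ _ _)
    · rw [indicator_of_notMem hz]
      by_cases hz' : z.1 ∈ P
      · have : T₁.rep^[q * N] z = z := by
          by_contra hn
          exact hz ⟨hz', hn⟩
        simp [this]
      · simp [hz']
  clear * - c X Y m η Q T₁ q N P D hc sD this
  linarith only [hc, sD, this, (abs_le.mp this).1]

theorem meagre_aperiodic [StandardBorelSpace X] [StandardBorelSpace Y] {R : Aut m} {Q : Set Y}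
    (hQ : MeasurableSet Q) (hv : 0 < η.real Q * (1 - η.real Q)) (hR : Clock R) (h : ¬ NR R) :
    IsMeagre (MixingExtensions η R) := by
  classical
  simp only [NR, not_forall, not_exists, not_and, not_eventually, not_le] at h
  obtain ⟨ε, hε, h⟩ := h
  set c := ε * (η.real Q * (1 - η.real Q)) / 2 with hc
  have hc0 : 0 < c := by positivity
  refine meagre_of_dense hQ hc0 fun T₀ hT₀ δ hδ N => ?_
  obtain ⟨Φ, Φ', hG, hΦ⟩ := exists_cob' hR hT₀ hδ
  obtain ⟨T₁, hT₁, hT₁e, hT₁j⟩ := exists_conj R hG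
  obtain ⟨ι, _, a, Q', ha, hQ', hF⟩ := approx_gauge hG (MeasurableSet.univ.prod hQ)
    (show 0 < c / 3 by positivity)
  obtain ⟨M, hM⟩ := exists_nat_gt (Fintype.card ι * 3 / c)
  have hM0 : (0 : ℝ) < M := lt_of_le_of_lt (by clear * - ι c ε Y η Q hε hv M hM; positivity) hM
  set ξ : X → ι → Fin (2 * M + 1) := fun x i => Fin.ofNat _ ⌊(a i x + 1) * M⌋₊ with hξ
  have mξ : Measurable ξ := measurable_pi_lambda _ fun i =>
    (Measurable.of_discrete (f := Fin.ofNat (2 * M + 1))).comp
      (((ha i).meas.add_const 1).mul_const _).nat_floor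
  have close : ∀ x x', ξ x = ξ x' → ∀ i, |a i x - a i x'| ≤ 1 / M := by
    clear * - X ι M ξ a ha hM0 hξ
    intro x x' he i
    have b : ∀ x, 0 ≤ (a i x + 1) * M ∧ ⌊(a i x + 1) * M⌋₊ < 2 * M + 1 := fun x => by
      have := abs_le.mp ((ha i).le x)
      have h0 : 0 ≤ (a i x + 1) * M := mul_nonneg (by linarith) hM0.le
      refine ⟨h0, Nat.lt_succ_of_le (Nat.floor_le_of_le ?_)⟩
      push_cast
      linarith only [this, mul_nonneg_of_nonpos_of_nonpos (Mathlib.Tactic.Linarith.sub_nonpos_of_le (Mathlib.Tactic.Linarith.natCast_nonneg ℝ M)) (Mathlib.Tactic.Linarith.sub_nonpos_of_le this.right)]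
    have h1 := congrArg Fin.val (congrFun he i)
    simp only [hξ, Fin.val_ofNat, Nat.mod_eq_of_lt (b _).2] at h1
    have a1 := Nat.floor_le (b x).1
    have a2 := Nat.lt_floor_add_one ((a i x + 1) * M)
    have a3 := Nat.floor_le (b x').1
    have a4 := Nat.lt_floor_add_one ((a i x' + 1) * M)
    rw [h1] at a1 a2
    rw [le_div_iff₀ hM0, ← abs_of_pos hM0, ← abs_mul, abs_le]
    constructor <;> linarith only [a1, a4, a2, a3]
  obtain ⟨n, hn, hN⟩ := ((h _ inferInstance inferInstance inferInstance ξ mξ).and_eventually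
    (eventually_ge_atTop N)).exists
  set P := {x | ξ x = ξ (R.rep^[n] x)} with hP
  have mP : MeasurableSet P := measurableSet_eq_fun mξ (mξ.comp (R.rep.measurable.iterate n))
  refine ⟨T₁, hT₁, le_trans (le_of_eq (measureReal_congr ?_)) hΦ, n, hN, P.indicator 1,
    bd_indicator mP, ?_⟩
  · filter_upwards [hT₁e] with z hz
    show (T₁.rep z ≠ T₀.rep z) = (_ ≠ T₀.rep z)
    rw [hz]
  have bf : Bd fun z : X × Y => cen η Q z.2 := (bd_cen hQ).comp measurable_snd
  have bP := (bd_indicator mP).comp (measurable_fst (α := X) (β := Y))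
  have mT := T₁.rep.measurable.iterate n
  set G : X × Y → ℝ := fun z => ∑ i, a i z.1 * cen η (Q' i) (Φ' z).2 with hGd
  have bu : ∀ i, Bd fun z : X × Y => a i z.1 * cen η (Q' i) (Φ' z).2 := fun i =>
    ((ha i).comp measurable_fst).mul ((bd_cen (hQ' i)).comp
      (measurable_snd.comp hG.mp'.measurable))
  have mG : Measurable G := Finset.measurable_sum _ fun i _ => (bu i).meas
  have iG : Integrable G (m.prod η) := integrable_finsetSum _ fun i _ => (bu i).integrable _
  have e : ∀ z : X × Y, cenZ η (univ ×ˢ Q) z = cen η Q z.2 := fun z => by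
    by_cases h : z.2 ∈ Q <;> simp [cenZ, cen, fib, indicator, h, mk_preimage_prod_right]
  simp only [e] at hF
  have j0 : Integrable (fun z : X × Y => |cen η Q z.2 - G z|) (m.prod η) :=
    ((bf.integrable _).sub' iG).abs
  have j1 : Integrable (fun z => |cen η Q (T₁.rep^[n] z).2 - G (T₁.rep^[n] z)|) (m.prod η) :=
    (T₁.mp.iterate n).integrable_comp_of_integrable j0
  have hGG : ∀ᵐ z ∂(m.prod η), z.1 ∈ P → |G (T₁.rep^[n] z) - G z| ≤ Fintype.card ι * (1 / M) := by
    filter_upwards [ext_iter T₁.mp hT₁ n, hG.right, hG.mp'.quasiMeasurePreserving.ae (hT₁j n),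
      (((pm_mp R.mp).iterate n).comp hG.mp').quasiMeasurePreserving.ae hG.left] with z a1 a2 a3 a4 hz
    simp only [Function.comp, pm_iter] at a4
    rw [a2] at a3
    simp only [hGd]
    rw [a1, a3, a4, ← Finset.sum_sub_distrib]
    refine (Finset.abs_sum_le_sum_abs _ _).trans ((Finset.sum_le_sum (g := fun _ => (1 : ℝ) / M)
      fun i _ => ?_).trans (by simp))
    rw [← sub_mul, abs_mul]
    exact (mul_le_of_le_one_right (abs_nonneg _) ((bd_cen (hQ' i)).le _)).trans
      (close _ _ hz.symm i)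
  have : |corr m η Q T₁.rep^[n] (P.indicator 1) - m.real P * (η.real Q * (1 - η.real Q))| ≤
      c / 3 + c / 3 + Fintype.card ι * (1 / M) := by
    rw [← int_ind_cen hQ mP, corr, ← integral_sub ((bP.mul ((bf.comp mT).mul bf)).integrable _)
      ((bP.mul (bf.mul bf)).integrable _)]
    refine (abs_int_le ((j1.fun_add j0).fun_add (integrable_const (Fintype.card ι * (1 / M : ℝ))))
      ?_).trans ?_
    · filter_upwards [hGG] with z hz
      by_cases hz' : z.1 ∈ P
      · rw [← mul_sub, ← sub_mul, mul_comm (_ - _), ← mul_assoc, abs_mul]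
        refine (mul_le_of_le_one_left (abs_nonneg _) ((bP.mul bf).le z)).trans ?_
        have a1 := abs_sub_le (cen η Q (T₁.rep^[n] z).2) (G (T₁.rep^[n] z)) (cen η Q z.2)
        have a2 := abs_sub_le (G (T₁.rep^[n] z)) (G z) (cen η Q z.2)
        clear * - Y η Q X m T₁ n z G ι M a1 a2 hz hz'
        linarith only [a1, a2, hz, hz', hz hz', abs_sub_comm (G z) (cen η Q z.2)]
      · simp only [indicator_of_notMem hz', zero_mul, sub_zero, abs_zero]
        clear * - Y η Q X m T₁ n z G ι M hM0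
        positivity
    · rw [integral_add (j1.fun_add j0) (integrable_const _), integral_add j1 j0,
        int_comp (T₁.mp.iterate n) (F := fun z => |cen η Q z.2 - G z|) (bf.meas.sub mG).abs]
      simp only [integral_const, probReal_univ, one_smul]
      clear * - X Y m η Q G ι M c a Q' Φ' ε hF
      linarith only [hF]
  have a1 : Fintype.card ι * (1 / M : ℝ) < c / 3 := by
    clear * - ι M c hM0 ε Y η Q hc0 hM
    rw [div_lt_iff₀ hc0] at hM
    rw [mul_one_div, div_lt_iff₀ hM0]
    linarith only [hM]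
  linarith only [hc, a1, this, hv, hn, (abs_le.mp this).1, mul_pos_of_neg_of_neg (Mathlib.Tactic.Linarith.sub_neg_of_lt hv) (Mathlib.Tactic.Linarith.sub_neg_of_lt hn)]

theorem meagre_of_not_NR [StandardBorelSpace X] [StandardBorelSpace Y] [NullSingletonClass η]
    {R : Aut m} (h : ¬ NR R) : IsMeagre (MixingExtensions η R) := by
  obtain ⟨Q, hQ, h0, h1⟩ := small_sets η (1 / 2) one_half_pos
  have hv : 0 < η.real Q * (1 - η.real Q) := mul_pos h0 (by linarith only [h0, h1])
  by_cases hp : ∀ p, 1 ≤ p → m {x | R.rep^[p] x = x} = 0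
  · exact meagre_aperiodic hQ hv (clock_of_aperiodic hp) h
  · push Not at hp
    obtain ⟨p, hp, h'⟩ := hp
    exact meagre_periodic hQ hv hp h'

end Pool.Agent.Work.MP_2967d5_an
end

-- merged part: Pool.Agent.Work.MP_2967d5_an.C.Main
section
/-! The classification. -/

open MeasureTheory Set Filter Topology
open scoped ENNReal

namespace Pool.Agent.Work.MP_2967d5_an

variable {X Y : Type*} [MeasurableSpace X] [MeasurableSpace Y] {m : Measure X} {η : Measure Y}
  [IsProbabilityMeasure m] [IsProbabilityMeasure η]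

theorem col_of_nr {R : Aut m} (hR : NR R) (hc : Clock R) : Col R := by
  intro ε hε
  obtain ⟨Z, hZ, hZR⟩ := exists_flow R
  have hZ1 : Z 1 = R.rep := hZR 1
  obtain ⟨a, ha⟩ := exists_nat_gt (64 / ε)
  have ha' : (0 : ℝ) < a := lt_trans (by positivity) ha
  obtain ⟨K, hK⟩ := exists_nat_gt (128 / ε ^ 2)
  have hK' : (0 : ℝ) < K := lt_trans (by positivity) hK
  have hK0 : 0 < K := by exact_mod_cast hK'
  refine ⟨2 ^ (5 * a) * K, by positivity, fun δ hδ => ?_⟩
  obtain ⟨H, hH⟩ := exists_nat_one_div_lt (show 0 < δ / 8 by positivity)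
  obtain ⟨Λ, _, _, _, ξ₀, hξ₀, hev⟩ := hR (ε / (16 * (H + 1))) (by positivity)
  obtain ⟨c, hc1, hc0⟩ := ((ev_small (H + 2) (show 0 < δ / 8 by positivity)).and
    self_mem_nhdsWithin).exists
  have hc0 : 0 < c := hc0
  obtain ⟨r, hr, hrc⟩ := hc c hc0
  set ξ : X → Λ × Fin (H + 1) := fun x => (ξ₀ x, Fin.ofNat _ (r x)) with hξd
  have hξ : Measurable ξ := hξ₀.prodMk ((Measurable.of_discrete (f := Fin.ofNat (H + 1))).comp hr)
  set lam := Fintype.card (Λ × Fin (H + 1)) + 1 with hlam
  obtain ⟨e, he1, he0⟩ := ((ev_small (16 * (H + 1) * lam + 9) (show 0 < ε / 4 by positivity)).and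
    self_mem_nhdsWithin).exists
  have he0 : 0 < e := he0
  obtain ⟨B, hB, h1, h2⟩ := exists_core hZ hξ he0
  have hd : 0 < min δ ε / 8 := by positivity
  obtain ⟨τ₀, m₀, k₀, s₀, c₀⟩ := tau_zero hZ hξ hB (ε := ε / (16 * (H + 1))) he0 hd h2
    (by rw [hZ1]; exact hc) H.succ_pos (show 0 < lam from Nat.succ_pos _)
    (show 0 < a by exact_mod_cast ha')
    (Nat.lt_two_pow_self.le.trans (Nat.pow_le_pow_right two_pos (Nat.le_succ _))) (by
      filter_upwards [hev] with n hn
      rw [hZR]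
      exact le_trans (measureReal_mono fun x hx => congrArg Prod.fst hx) hn)
  obtain ⟨τ₁, m₁, k₁, s₁, c₁⟩ := tau_plus hZ hξ (fun p => p.2) (c := δ / 4) (lam := ε / 8) (by
      have h3 := jump R.mp hr hc0.le hrc H.succ_pos 1
      rw [hZ1]
      refine (measureReal_mono (s₂ := {x | r (R.rep x) ≠ r x + 1} ∪
        {x | (r x + 1) / (H + 1) ≠ r x / (H + 1)}) fun x hx => ?_).trans
        ((measureReal_union_le _ _).trans (by clear * - X m r R H δ c hH hc1 hrc h3; push_cast at h3; linarith only [hH, hc1, hrc, h3]))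
      by_contra hn
      simp only [mem_union, mem_ofPred_eq, not_or, not_not] at hn
      apply hx
      have a1 := Nat.div_add_mod (r x + 1) (H + 1)
      have a2 := Nat.div_add_mod (r x) (H + 1)
      simp only [hξd, Fin.val_ofNat, hn.1]
      rw [hn.2] at a1
      omega)
    hB.1 he0 hd (by positivity) h1 (fun i => (h2 i).2) hK0
  have hmin : min δ ε / 8 ≤ δ / 8 ∧ min δ ε / 8 ≤ ε / 8 :=
    ⟨by gcongr; exact min_le_left _ _, by gcongr; exact min_le_right _ _⟩
  refine ⟨fun x => τ₀ x * K + τ₁ x, (m₀.mul_const _).add m₁, fun x => ?_, ?_, ?_⟩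
  · clear * - X τ₀ K τ₁ x a k₁ k₀
    nlinarith only [k₁, k₀, k₀ x, k₁ x]
  · rw [← hZ1]
    refine (measureReal_mono (s₂ := {x | τ₀ (Z 1 x) ≠ τ₀ x} ∪ {x | τ₁ (Z 1 x) ≠ τ₁ x})
      fun x hx => ?_).trans ((measureReal_union_le _ _).trans (by clear * - X m τ₀ Z τ₁ δ H ε hδ hH s₁ hmin s₀; push_cast at s₀; linarith only [hδ, hH, s₁, hmin, s₀]))
    by_contra hn
    simp only [mem_union, mem_ofPred_eq, not_or, not_not] at hn
    exact hx (by simp only [hn.1, hn.2])
  · filter_upwards [c₀, c₁] with n a0 a1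
    rw [← hZR]
    refine (measureReal_mono (s₂ := {x | Z n x ∈ B ∧ τ₀ x = τ₀ (Z n x)} ∪
      {x | Z n x ∉ B ∧ τ₁ x = τ₁ (Z n x)}) fun x hx => ?_).trans
      ((measureReal_union_le _ _).trans ?_)
    · have b1 : τ₁ x = τ₁ (Z n x) := by
        have := congrArg (· % K) hx
        simpa only [Nat.mul_add_mod', Nat.mod_eq_of_lt (k₁ _)] using this
      by_cases h : Z n x ∈ B
      · refine Or.inl ⟨h, Nat.eq_of_mul_eq_mul_right hK0 ?_⟩
        have : τ₀ x * K + τ₁ x = τ₀ (Z n x) * K + τ₁ (Z n x) := hx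
        omega
      · exact Or.inr ⟨h, b1⟩
    · have b1 : (8 : ℝ) / a ≤ ε / 8 := by
        clear * - a ε ha' hε ha
        rw [div_lt_iff₀ hε] at ha
        rw [div_le_iff₀ ha']
        linarith only [ha]
      have b2 : 1 / (K * (ε / 8)) ≤ ε / 16 := by
        clear * - K ε hK0 hε hK
        rw [div_lt_iff₀ (by positivity)] at hK
        rw [div_le_iff₀ (by positivity)]
        linarith only [hK]
      have b3 : 2 * ((H + 1 : ℕ) : ℝ) * (ε / (16 * (H + 1))) = ε / 8 := by
        clear * - H ε hε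
        push_cast
        field_simp
        ring
      simp only [Nat.succ_eq_add_one, b3] at a0
      push_cast at a0
      clear * - X m B Z n τ₀ τ₁ ε H lam e δ K a hε he1 hmin a1 b1 b2 a0
      linarith only [hε, he1, hmin, a1, b1, b2, a0]

theorem classification [StandardBorelSpace X] [StandardBorelSpace Y] [NullSingletonClass η]
    (R : Aut m) : (IsMeagre (MixingExtensions η R) ↔ PartiallyRigid R) ∧
      (MixingExtensions η R ∈ residual (Extensions η R) ↔ ¬ PartiallyRigid R) := by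
  have h0 : IsMeagre (MixingExtensions η R) → MixingExtensions η R ∉ residual (Extensions η R) := by
    intro hm h
    have := baireSpace_extensions (η := η) R
    obtain ⟨T, hT, -⟩ := exists_conj (η := η) R (Θ := id) (Θ' := id) ⟨MeasurePreserving.id _,
      MeasurePreserving.id _, by simp, by simp, by simp, by simp⟩
    have : Nonempty (Extensions η R) := ⟨⟨T, hT⟩⟩
    obtain ⟨T', hT'⟩ := (dense_of_mem_residual (inter_mem h hm)).nonempty
    exact hT'.2 hT'.1
  by_cases h : NR R
  · obtain ⟨S, hS⟩ := exists_mixing η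
    have hc := clock_of_aperiodic h.aperiodic
    have h1 := residual_of_col hc (col_of_nr h hc) hS
    exact ⟨iff_of_false (fun hm => h0 hm h1) h.not_rigid, iff_of_true h1 h.not_rigid⟩
  · have h1 := meagre_of_not_NR (η := η) h
    exact ⟨iff_of_true h1 (rigid_of_not_NR h), iff_of_false (h0 h1) (not_not_intro (rigid_of_not_NR h))⟩

end Pool.Agent.Work.MP_2967d5_an
end
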